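import Pool.Agent.Helper819.Gr.Lead5
import Pool.Agent.Helper819.Gr.Res4

/-!
The conjugation action as a `DAct`, and semi-invariants realising all invariant linear forms on
the normal space of an orbit.
-/

open MvPolynomial

namespace Pool.Agent.N141.Sing

open Pool.Agent.Helper819 Pool.Agent.Helper819.Apolar Pool.Agent.Helper819.Dyn

noncomputable section

set_option linter.unusedSectionVars false

/-- The conjugation action with its derivative. -/
def CAct (N d : ℕ) : Gr.DAct Unit (N + 1) (Ix N d) where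
  act A c := actT (A ()) c
  map_act φ A c p := map_actT φ (A ()) c p
  act_act A B c := actT_actT (A ()) (B ()) c
  act_one c := actT_one c
  act_add A c c' := actT_add (A ()) c c'
  act_smul A r c := actT_smul (A ()) r c
  xi Y c := xi (Y ()) c
  xi_add Y Y' c := Dyn.xi_add (Y ()) (Y' ()) c
  xi_smul r Y c := Dyn.xi_smul r (Y ()) c
  map_xi φ Y c p := Dyn.map_xi φ (Y ()) c p
  act_eps e he Y c p := actT_eps e he (Y ()) c p

theorem detw_unit {R : Type} [CommRing R] {n : ℕ} (w : ℕ) (A : Gr.Mt Unit n R) :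
    Gr.detw (fun _ => w) A = (A ()).det ^ w := by
  unfold Gr.detw
  simp

theorem semi_iff {k : Type} [Field k] {N d : ℕ} (w : ℕ) (P : MvPolynomial (Ix N d) k) :
    Gr.IsSemi (CAct N d).toRAct (fun _ => w) P ↔ Dyn.IsSemi w P := by
  constructor
  · intro h A c
    have := h (fun _ => A) c
    rw [detw_unit] at this
    exact this
  · intro h A c
    rw [detw_unit]
    exact h (A ()) c

theorem aeval_act {k : Type} [Field k] [Infinite k] {N d w : ℕ} {P : MvPolynomial (Ix N d) k}
    (hP : Dyn.IsSemi w P) {R : Type} [CommRing R] [Algebra k R]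
    (A : Matrix (Fin (N + 1)) (Fin (N + 1)) R) (c : Ix N d → R) :
    aeval (actT A c) P = A.det ^ w * aeval c P := by
  have := ((semi_iff w P).mpr hP).aeval_act (R := R) (fun _ => A) c
  rw [detw_unit] at this
  exact this

/-- The conjugation action in terms of the two-sided action. -/
theorem actT_eq_ZA {R : Type} [CommRing R] {N d : ℕ} (A : Matrix (Fin (N + 1)) (Fin (N + 1)) R)
    (c : Ix N d → R) : actT A c =
      (Gr.ZA N d).act (fun s => if s then A else A.adjugate.transpose) c := by
  have h : act A (tup c) = Gr.zact (fun s => if s then A else A.adjugate.transpose) (tup c) := by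
    funext i
    unfold act Gr.zact Gr.subst
    refine Finset.sum_congr rfl fun j _ => ?_
    simp [Matrix.transpose_apply]
  change cf (act A (tup c)) = cf (Gr.zact _ (tup c))
  rw [h]

/-- The resultant. -/
theorem exists_D {k : Type} [Field k] [IsAlgClosed k] [CharZero k] {N d : ℕ} (hd : 1 ≤ d) :
    ∃ (D : MvPolynomial (Ix N d) k) (r : ℕ), Dyn.IsSemi r D ∧
      (∀ c, eval c D ≠ 0 ↔ NZ (tup c)) ∧
      ∀ (K : Type) [Field K] [Algebra k K] (c : Ix N d → K), aeval c D ≠ 0 → NZ (tup c) := by
  obtain ⟨D, r, h1, _, h3, h4⟩ := Gr.exists_res (k := k) (N := N) (e := d) hd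
  refine ⟨D, r true + N * r false, ?_, h3, h4⟩
  intro A c
  rw [actT_eq_ZA, h1]
  congr 1
  unfold Gr.detw
  rw [Fintype.prod_bool]
  simp only [if_true, Bool.false_eq_true, if_false]
  rw [Matrix.det_transpose, Matrix.det_adjugate, Fintype.card_fin, Nat.add_sub_cancel, ← pow_mul,
    pow_add]

section field

variable {k : Type} [Field k] [IsAlgClosed k] [CharZero k] {N d : ℕ}

theorem eval_orbG (A : Gr.Mt Unit (N + 1) k) (c : Ix N d → k) (P : MvPolynomial (Ix N d) k) :
    eval (Gr.ent A) (aeval (Gr.orb (CAct N d).toRAct c) P) = eval (actT (A ()) c) P :=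
  Gr.eval_aeval_orb _ _ _ _

/-- closedness of orbits in the nondegenerate locus, in the form needed for `exists_lead` -/
theorem hmin (hd : 2 ≤ d) {D : MvPolynomial (Ix N d) k} (hD : ∀ c, eval c D ≠ 0 → NZ (tup c))
    {F0 : Ix N d → k} (hF : NZ (tup F0)) (c : Ix N d → k) (hc : eval c D ≠ 0)
    (h : ∀ P : MvPolynomial (Ix N d) k, aeval (Gr.orb (CAct N d).toRAct F0) P = 0 → eval c P = 0)
    (P : MvPolynomial (Ix N d) k) (hP : aeval (Gr.orb (CAct N d).toRAct c) P = 0) :
    eval F0 P = 0 := by
  have hinf : Infinite k := inferInstance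
  obtain ⟨A, hA, hAc⟩ := closed_GL hd hF c (hD c hc) (by
    intro P hP
    apply h
    apply Gr.poly_ext
    intro B hB
    rw [eval_orbG, map_zero]
    exact hP _ (hB ()))
  have h1 : actT A⁻¹ c = F0 := by
    rw [← hAc, actT_actT, Matrix.mul_nonsing_inv _ (isUnit_iff_ne_zero.mpr hA), actT_one]
  rw [← h1]
  have h2 := eval_orbG (fun _ => A⁻¹) c P
  rw [hP, map_zero] at h2
  exact h2.symm

/-- If the stabiliser of a point consists of scalars, every linear form vanishing on the tangent
space of the orbit is, up to a constant, the differential of a semi-invariant. -/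
theorem lemA (hd : 2 ≤ d) {r : ℕ} {D : MvPolynomial (Ix N d) k} (hDs : Dyn.IsSemi r D)
    (hD : ∀ c, eval c D ≠ 0 → NZ (tup c)) {f : Ix N d → k} (hf : eval f D ≠ 0)
    (hstab : ∀ A : Matrix (Fin (N + 1)) (Fin (N + 1)) k, A.det ≠ 0 → actT A f = f →
      ∃ a : k, A = a • 1) (ℓ : Ix N d → k)
    (hℓ : ∀ Y : Matrix (Fin (N + 1)) (Fin (N + 1)) k, ∑ p, ℓ p * xi Y f p = 0) :
    ∃ (m : ℕ) (q : MvPolynomial (Ix N d) k), Dyn.IsSemi (m * r) q ∧ eval f q = 0 ∧
      ∀ v, dd q f v = eval f D ^ m * ∑ p, ℓ p * v p := by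
  have hinf : Infinite k := inferInstance
  have hfNZ := hD f hf
  let Q : MvPolynomial (Ix N d) k := ∑ p, C (ℓ p) * X p
  have hQe : ∀ v, eval v Q = ∑ p, ℓ p * v p := by
    intro v
    change eval v (∑ p, C (ℓ p) * X p) = _
    rw [map_sum]
    exact Finset.sum_congr rfl fun p _ => by rw [map_mul, eval_C, eval_X]
  have hQh : Q.IsHomogeneous 1 :=
    IsHomogeneous.sum _ _ _ fun p _ => isHomogeneous_C_mul_X _ _
  obtain ⟨m, q, hq, hord, hlf⟩ := Gr.exists_lead (CAct N d) f ((semi_iff r D).mpr hDs)
    (fun c hc h P hP => hmin hd hD hfNZ c hc h P hP) 1 Q hQh (by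
      intro Y v
      rw [hQe, hQe]
      simp only [Pi.add_apply, mul_add, Finset.sum_add_distrib]
      have := hℓ (Y ())
      change ∑ p, ℓ p * v p + ∑ p, ℓ p * xi (Y ()) f p = _
      rw [this, add_zero]) (by
      intro A hA hAf v
      obtain ⟨a, ha⟩ := hstab (A ()) (hA ()) hAf
      have h1 : ∀ v : Ix N d → k, (CAct N d).act A v = a ^ (N + d) • v := by
        intro v
        change actT (A ()) v = _
        rw [ha, actT_scalar]
      have hf0 : f ≠ 0 := by
        intro h0
        have h2 := hfNZ (fun _ => 1) (by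
          intro i
          rw [h0]
          have : tup (0 : Ix N d → k) i = 0 := by
            unfold tup
            simp
          rw [this, map_zero])
        have h3 := congrFun h2 0
        exact one_ne_zero h3
      have ha1 : a ^ (N + d) = 1 := by
        have h2 := h1 f
        rw [hAf] at h2
        obtain ⟨p, hp⟩ := Function.ne_iff.mp hf0
        have h3 := congrFun h2 p
        rw [Pi.smul_apply, smul_eq_mul] at h3
        have hp' : f p ≠ 0 := hp
        have h4 : (a ^ (N + d) - 1) * f p = 0 := by rw [sub_mul, one_mul, ← h3, sub_self]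
        exact sub_eq_zero.mp ((mul_eq_zero.mp h4).resolve_right hp')
      rw [h1, ha1, one_smul])
  have hw : m • (fun _ : Unit => r) = fun _ => m * r := by
    funext s
    rfl
  rw [hw] at hq
  refine ⟨m, q, (semi_iff _ _).mp hq, ?_, ?_⟩
  · have h1 := Gr.eval_lf 0 q f 0
    rw [hord 0 (by omega), map_zero, Gr.tayl_coeff_zero, Gr.aeval_eq_eval_self] at h1
    exact h1.symm
  · intro v
    have h1 := Gr.eval_lf 1 q f v
    rw [hlf, Gr.tayl_coeff_one, hQe] at h1
    rw [h1]
    unfold dd
    refine Finset.sum_congr rfl fun p _ => ?_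
    rw [Gr.aeval_eq_eval_self]

end field

end

end Pool.Agent.N141.Sing
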