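import Pool.Agent.N141.Sing.Basic

/-!
A combinatorial inequality and the action of diagonal matrices.
-/

open MvPolynomial

namespace Pool.Agent.N141.Sing

open Pool.Agent.Helper819 Pool.Agent.Helper819.Apolar Pool.Agent.Helper819.Dyn

noncomputable section

set_option linter.unusedSectionVars false

theorem card_Ex (N d : ℕ) : Fintype.card (Ex N d) = (N + d).choose N := by
  rw [Fintype.card_coe, Finset.card_finsuppAntidiag_nat_eq_choose, Finset.card_univ,
    Fintype.card_fin]
  have : N + 1 + d - 1 = N + d := by omega
  rw [this, Nat.choose_symm_add]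

theorem le_card_Ex {N d : ℕ} (hN : 2 ≤ N) (hd : 2 ≤ d) : 2 * (N + 1) ≤ Fintype.card (Ex N d) := by
  rw [card_Ex]
  have h1 : (N + 2).choose N ≤ (N + d).choose N := Nat.choose_le_choose N (by omega)
  refine le_trans ?_ h1
  have h2 : (N + 2).choose N = (N + 2).choose 2 := Nat.choose_symm_add
  rw [h2, Nat.choose_two_right]
  have h3 : N + 2 - 1 = N + 1 := by omega
  rw [h3, Nat.le_div_iff_mul_le (by norm_num)]
  nlinarith

/-- The combinatorial inequality. -/
theorem comb {K : Type} [DecidableEq K] {n : ℕ} {E : Type} [Fintype E] (l : Fin n → K)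
    (hl : ∃ i j, l i ≠ l j) (hn : 2 * n ≤ Fintype.card E) (ν : E → K) :
    Fintype.card {p : Fin n × E // l p.1 = ν p.2} + Fintype.card {q : Fin n × Fin n // l q.1 ≠ l q.2}
      + 2 ≤ Fintype.card (Fin n × E) := by
  classical
  obtain ⟨i1, j1, hij⟩ := hl
  let cnt : Fin n → ℕ := fun i => (Finset.univ.filter fun j => l j = l i).card
  obtain ⟨i0, -, hi0⟩ := Finset.exists_max_image Finset.univ cnt ⟨i1, Finset.mem_univ _⟩
  set m := cnt i0 with hm
  set S0 := Finset.univ.filter fun j => l j = l i0 with hS0
  have hS0m : S0.card = m := rfl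
  have hmn : m < n := by
    have h1 : S0 ≠ Finset.univ := by
      intro h
      have e1 : i1 ∈ S0 := by rw [h]; exact Finset.mem_univ _
      have e2 : j1 ∈ S0 := by rw [h]; exact Finset.mem_univ _
      rw [hS0, Finset.mem_filter] at e1 e2
      exact hij (e1.2.trans e2.2.symm)
    have h2 := Finset.card_lt_card (Finset.ssubset_univ_iff.mpr h1)
    rwa [Finset.card_univ, Fintype.card_fin] at h2
  -- first bound
  have hA : Fintype.card {p : Fin n × E // l p.1 = ν p.2} ≤ m * Fintype.card E := by
    rw [Fintype.card_subtype]
    have h1 : (Finset.univ.filter fun p : Fin n × E => l p.1 = ν p.2).card =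
        ∑ e : E, ((Finset.univ.filter fun p : Fin n × E => l p.1 = ν p.2).filter
          fun p => p.2 = e).card :=
      Finset.card_eq_sum_card_fiberwise (fun p _ => Finset.mem_univ p.2)
    rw [h1]
    have h2 : ∀ e ∈ (Finset.univ : Finset E),
        ((Finset.univ.filter fun p : Fin n × E => l p.1 = ν p.2).filter
          fun p => p.2 = e).card ≤ m := by
      intro e _
      by_cases hne : ∃ i, l i = ν e
      · obtain ⟨i, hi⟩ := hne
        refine le_trans ?_ (hi0 i (Finset.mem_univ i))
        refine Finset.card_le_card_of_injOn Prod.fst ?_ ?_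
        · intro p hp
          simp only [Finset.coe_filter, Set.mem_setOf_eq, Finset.mem_filter, Finset.mem_univ,
            true_and] at hp ⊢
          rw [hp.1, hp.2, hi]
        · intro p hp p' hp' hpp
          simp only [Finset.coe_filter, Set.mem_setOf_eq, Finset.mem_filter, Finset.mem_univ,
            true_and] at hp hp'
          exact Prod.ext hpp (hp.2.trans hp'.2.symm)
      · push Not at hne
        have h3 : ((Finset.univ.filter fun p : Fin n × E => l p.1 = ν p.2).filter
          fun p => p.2 = e) = ∅ := by
          rw [Finset.eq_empty_iff_forall_notMem]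
          intro p hp
          simp only [Finset.mem_filter, Finset.mem_univ, true_and] at hp
          exact hne p.1 (by rw [hp.1, hp.2])
        rw [h3]
        simp
    refine (Finset.sum_le_card_nsmul _ _ _ h2).trans ?_
    rw [Finset.card_univ, smul_eq_mul, mul_comm]
  -- second bound
  have hB : Fintype.card {q : Fin n × Fin n // l q.1 ≠ l q.2} + (m * m + (n - m)) ≤ n * n := by
    have h1 : Fintype.card {q : Fin n × Fin n // l q.1 ≠ l q.2} +
        Fintype.card {q : Fin n × Fin n // ¬ l q.1 ≠ l q.2} = n * n := by
      have := Fintype.card_subtype_compl (fun q : Fin n × Fin n => l q.1 ≠ l q.2)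
      have h2 := Fintype.card_subtype_le (fun q : Fin n × Fin n => l q.1 ≠ l q.2)
      rw [Fintype.card_prod, Fintype.card_fin] at this h2
      omega
    have h2 : m * m + (n - m) ≤ Fintype.card {q : Fin n × Fin n // ¬ l q.1 ≠ l q.2} := by
      rw [Fintype.card_subtype]
      let U : Finset (Fin n × Fin n) := (S0 ×ˢ S0) ∪ (S0ᶜ).image fun i => (i, i)
      have hU : U.card = m * m + (n - m) := by
        rw [Finset.card_union_of_disjoint, Finset.card_product, hS0m, Finset.card_image_of_injective,
          Finset.card_compl, Fintype.card_fin, hS0m]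
        · intro a b hab
          exact congrArg Prod.fst hab
        · rw [Finset.disjoint_left]
          intro p hp hp'
          rw [Finset.mem_product] at hp
          rw [Finset.mem_image] at hp'
          obtain ⟨a, ha, rfl⟩ := hp'
          exact (Finset.mem_compl.mp ha) hp.1
      rw [← hU]
      apply Finset.card_le_card
      intro p hp
      rw [Finset.mem_filter]
      refine ⟨Finset.mem_univ _, ?_⟩
      rw [not_not]
      rcases Finset.mem_union.mp hp with hp | hp
      · rw [Finset.mem_product, hS0, Finset.mem_filter, Finset.mem_filter] at hp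
        rw [hp.1.2, hp.2.2]
      · rw [Finset.mem_image] at hp
        obtain ⟨a, _, rfl⟩ := hp
        rfl
    omega
  rw [Fintype.card_prod, Fintype.card_fin]
  obtain ⟨t, ht⟩ := Nat.exists_eq_add_of_lt hmn
  set M := Fintype.card E with hM
  generalize Fintype.card {p : Fin n × E // l p.1 = ν p.2} = x at hA ⊢
  generalize Fintype.card {q : Fin n × Fin n // l q.1 ≠ l q.2} = y at hB ⊢
  have h3 : n - m = t + 1 := by omega
  rw [h3] at hB
  rw [ht] at hB hn ⊢
  nlinarith

end

end Pool.Agent.N141.Sing
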