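import Pool.Agent.Helper819.DynDefs

/-!
The local rings of the moduli space `M_d^N` and its singular points.
-/

open MvPolynomial Filter Topology

namespace Pool.Agent.N141.Sing

open Pool.Agent.Helper819.Dyn

noncomputable section

variable {k : Type} [Field k] {N d : ℕ}

/-- The function `φ` on `M_d^N = End_d^N / PGL_{N+1}` is regular at the point `m`: near every
point `F` of `End_d^N` over `m` the pullback of `φ` to `End_d^N` is a quotient `P / Q` of two
homogeneous polynomials of the same degree in the coefficients, with `Q(F) ≠ 0`. -/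
def IsRegularAt (φ : Moduli k N d → k) (m : Moduli k N d) : Prop :=
  ∀ F : EndTuple k N d, cls F = m →
    ∃ (P Q : MvPolynomial (Fin (N + 1) × (Fin (N + 1) →₀ ℕ)) k) (e : ℕ),
      P.IsHomogeneous e ∧ Q.IsHomogeneous e ∧ eval (coords F) Q ≠ 0 ∧
        ∀ G : EndTuple k N d, eval (coords G) Q ≠ 0 →
          φ (cls G) = eval (coords G) P / eval (coords G) Q

theorem IsRegularAt.const (a : k) (m : Moduli k N d) : IsRegularAt (fun _ => a) m := by
  intro F _
  refine ⟨C a, 1, 0, isHomogeneous_C _ _, isHomogeneous_one _ _, by simp, ?_⟩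
  intro G _
  simp

theorem IsRegularAt.add {φ ψ : Moduli k N d → k} {m : Moduli k N d} (hφ : IsRegularAt φ m)
    (hψ : IsRegularAt ψ m) : IsRegularAt (φ + ψ) m := by
  intro F hF
  obtain ⟨P, Q, e, hP, hQ, hQF, h⟩ := hφ F hF
  obtain ⟨P', Q', e', hP', hQ', hQF', h'⟩ := hψ F hF
  refine ⟨P * Q' + Q * P', Q * Q', e + e', (hP.mul hQ').add (hQ.mul hP'), hQ.mul hQ', ?_, ?_⟩
  · rw [map_mul]
    exact mul_ne_zero hQF hQF'
  · intro G hG
    rw [map_mul] at hG
    rw [Pi.add_apply, h G (left_ne_zero_of_mul hG), h' G (right_ne_zero_of_mul hG), map_add,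
      map_mul, map_mul, map_mul, div_add_div _ _ (left_ne_zero_of_mul hG)
      (right_ne_zero_of_mul hG)]

theorem IsRegularAt.mul {φ ψ : Moduli k N d → k} {m : Moduli k N d} (hφ : IsRegularAt φ m)
    (hψ : IsRegularAt ψ m) : IsRegularAt (φ * ψ) m := by
  intro F hF
  obtain ⟨P, Q, e, hP, hQ, hQF, h⟩ := hφ F hF
  obtain ⟨P', Q', e', hP', hQ', hQF', h'⟩ := hψ F hF
  refine ⟨P * P', Q * Q', e + e', hP.mul hP', hQ.mul hQ', ?_, ?_⟩
  · rw [map_mul]
    exact mul_ne_zero hQF hQF'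
  · intro G hG
    rw [map_mul] at hG
    rw [Pi.mul_apply, h G (left_ne_zero_of_mul hG), h' G (right_ne_zero_of_mul hG), map_mul,
      map_mul, div_mul_div_comm]

theorem IsRegularAt.neg {φ : Moduli k N d → k} {m : Moduli k N d} (hφ : IsRegularAt φ m) :
    IsRegularAt (-φ) m := by
  intro F hF
  obtain ⟨P, Q, e, hP, hQ, hQF, h⟩ := hφ F hF
  refine ⟨-P, Q, e, hP.neg, hQ, hQF, ?_⟩
  intro G hG
  rw [Pi.neg_apply, h G hG, map_neg, neg_div]

/-- The local ring `O_{M_d^N, m}` of the geometric quotient `M_d^N = End_d^N / PGL_{N+1}` at `m`: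
the ring of germs at `m`, for the Zariski topology, of the functions which are regular at every
point of a neighbourhood of `m`. -/
def localRing (m : Moduli k N d) : Subring (Germ (𝓝 m) k) where
  carrier := {g | ∃ φ : Moduli k N d → k, (∀ᶠ x in 𝓝 m, IsRegularAt φ x) ∧
    (φ : Germ (𝓝 m) k) = g}
  mul_mem' := by
    rintro _ _ ⟨φ, hφ, rfl⟩ ⟨ψ, hψ, rfl⟩
    exact ⟨φ * ψ, by filter_upwards [hφ, hψ] with x h1 h2 using h1.mul h2, rfl⟩
  one_mem' := ⟨fun _ => 1, Eventually.of_forall fun x => IsRegularAt.const 1 x, rfl⟩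
  add_mem' := by
    rintro _ _ ⟨φ, hφ, rfl⟩ ⟨ψ, hψ, rfl⟩
    exact ⟨φ + ψ, by filter_upwards [hφ, hψ] with x h1 h2 using h1.add h2, rfl⟩
  zero_mem' := ⟨fun _ => 0, Eventually.of_forall fun x => IsRegularAt.const 0 x, rfl⟩
  neg_mem' := by
    rintro _ ⟨φ, hφ, rfl⟩
    exact ⟨-φ, by filter_upwards [hφ] with x h1 using h1.neg, rfl⟩

/-- `m` is a singular point of `M_d^N`: its local ring is not regular. -/
def IsSingular (m : Moduli k N d) : Prop := ¬ IsRegularLocalRing (localRing m)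

/-- The morphism defined by `F` has a nontrivial automorphism: there is `φ ∈ PGL_{N+1}(k)`,
`φ ≠ 1`, with `φ⁻¹ ∘ f ∘ φ = f`. -/
def HasNontrivialAut (F : EndTuple k N d) : Prop :=
  ∃ φ : GL (Fin (N + 1)) k, (∃ c : kˣ, conj φ F.1 = fun i => C (c : k) * F.1 i) ∧
    ¬ ∃ a : k, (φ : Matrix (Fin (N + 1)) (Fin (N + 1)) k) = a • 1

end

end Pool.Agent.N141.Sing
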