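import Pool.Agent.N141.Sing.Upper

/-!
Semi-invariants over an extension field are spanned by semi-invariants over the base field.
-/

open MvPolynomial

namespace Pool.Agent.N141.Sing

open Pool.Agent.Helper819 Pool.Agent.Helper819.Apolar Pool.Agent.Helper819.Dyn

noncomputable section

set_option linter.unusedSectionVars false

section tau

variable {k K : Type} [Field k] [Field K] [Algebra k K] {σ : Type}

/-- apply a linear functional to the coefficients -/
def tau (τ : K →ₗ[k] k) (q : MvPolynomial σ K) : MvPolynomial σ k :=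
  ∑ m ∈ q.support, monomial m (τ (coeff m q))

theorem coeff_tau (τ : K →ₗ[k] k) (q : MvPolynomial σ K) (m : σ →₀ ℕ) :
    coeff m (tau τ q) = τ (coeff m q) := by
  classical
  unfold tau
  rw [coeff_sum]
  simp only [coeff_monomial]
  rw [Finset.sum_ite_eq']
  split_ifs with h
  · rfl
  · rw [notMem_support_iff.mp h, map_zero]

theorem tau_add (τ : K →ₗ[k] k) (p q : MvPolynomial σ K) :
    tau τ (p + q) = tau τ p + tau τ q := by
  ext m
  rw [coeff_add, coeff_tau, coeff_tau, coeff_tau, coeff_add, map_add]

theorem tau_zero (τ : K →ₗ[k] k) : tau τ (0 : MvPolynomial σ K) = 0 := by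
  ext m
  rw [coeff_tau, coeff_zero, map_zero, coeff_zero]

theorem tau_sum (τ : K →ₗ[k] k) {ι : Type} (s : Finset ι) (q : ι → MvPolynomial σ K) :
    tau τ (∑ i ∈ s, q i) = ∑ i ∈ s, tau τ (q i) := by
  classical
  induction s using Finset.induction_on with
  | empty => simp [tau_zero]
  | insert a s ha ih => rw [Finset.sum_insert ha, Finset.sum_insert ha, tau_add, ih]

theorem tau_C_map (τ : K →ₗ[k] k) (a : K) (p : MvPolynomial σ k) :
    tau τ (C a * map (algebraMap k K) p) = C (τ a) * p := by
  ext m
  rw [coeff_tau, coeff_C_mul, coeff_C_mul, coeff_map, mul_comm a, ← Algebra.smul_def, map_smul,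
    smul_eq_mul, mul_comm]

theorem tau_smul (τ : K →ₗ[k] k) (a : k) (q : MvPolynomial σ K) :
    tau τ (C (algebraMap k K a) * q) = C a * tau τ q := by
  ext m
  rw [coeff_tau, coeff_C_mul, coeff_C_mul, coeff_tau, ← Algebra.smul_def, map_smul, smul_eq_mul]

theorem eq_sum_C_map (q : MvPolynomial σ K) :
    q = ∑ m ∈ q.support, C (coeff m q) * map (algebraMap k K) (monomial m (1 : k)) := by
  conv_lhs => rw [q.as_sum]
  refine Finset.sum_congr rfl fun m _ => ?_
  rw [map_monomial, map_one, C_mul_monomial, mul_one]

/-- a polynomial over the big field is a combination of its coordinates -/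
theorem mem_span_tau (q : MvPolynomial σ K) :
    q ∈ Submodule.span K {P | ∃ τ : K →ₗ[k] k, P = map (algebraMap k K) (tau τ q)} := by
  classical
  let b := Module.Basis.ofVectorSpace k K
  let S := q.support.biUnion (fun m => (b.repr (coeff m q)).support)
  have h1 : q = ∑ i ∈ S, (b i) • map (algebraMap k K) (tau (b.coord i) q) := by
    ext m
    rw [coeff_sum]
    simp only [coeff_smul, coeff_map, coeff_tau, Module.Basis.coord_apply]
    by_cases hm : m ∈ q.support
    · have h2 := b.linearCombination_repr (coeff m q)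
      rw [Finsupp.linearCombination_apply, Finsupp.sum] at h2
      conv_lhs => rw [← h2]
      have h3 : (b.repr (coeff m q)).support ⊆ S := by
        intro i hi
        exact Finset.mem_biUnion.mpr ⟨m, hm, hi⟩
      rw [← Finset.sum_subset h3]
      · refine Finset.sum_congr rfl fun i _ => ?_
        rw [Algebra.smul_def, smul_eq_mul, mul_comm]
      · intro i _ hi
        rw [Finsupp.notMem_support_iff.mp hi, map_zero, smul_zero]
    · rw [notMem_support_iff.mp hm, map_zero]
      simp
  rw [h1]
  refine Submodule.sum_mem _ fun i _ => Submodule.smul_mem _ _ (Submodule.subset_span ?_)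
  rw [← h1]
  exact ⟨b.coord i, rfl⟩

end tau

variable {k K : Type} [Field k] [Field K] [Algebra k K] [Infinite k] {N d : ℕ}

theorem compT_map (A : Matrix (Fin (N + 1)) (Fin (N + 1)) k) (p : MvPolynomial (Ix N d) k) :
    Dyn.compT (A.map (algebraMap k K)) (map (algebraMap k K) p) =
      map (algebraMap k K) (Dyn.compT A p) := by
  have hinf : Infinite K := Infinite.of_injective _ (algebraMap k K).injective
  apply MvPolynomial.funext
  intro c
  rw [Dyn.eval_compT, eval_map, eval_map]
  change aeval _ p = aeval c (Dyn.compT A p)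
  rw [aeval_compT_S]

theorem compT_C {F : Type} [Field F] (A : Matrix (Fin (N + 1)) (Fin (N + 1)) F) (a : F)
    (p : MvPolynomial (Ix N d) F) : Dyn.compT A (C a * p) = C a * Dyn.compT A p := by
  rw [map_mul, algHom_C]
  rfl

theorem compT_tau (τ : K →ₗ[k] k) (A : Matrix (Fin (N + 1)) (Fin (N + 1)) k)
    (q : MvPolynomial (Ix N d) K) :
    Dyn.compT A (tau τ q) = tau τ (Dyn.compT (A.map (algebraMap k K)) q) := by
  have h1 : Dyn.compT (A.map (algebraMap k K)) q = ∑ m ∈ q.support,
      C (coeff m q) * map (algebraMap k K) (Dyn.compT A (monomial m (1 : k))) := by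
    conv_lhs => rw [eq_sum_C_map (k := k) q]
    rw [map_sum]
    refine Finset.sum_congr rfl fun m _ => ?_
    rw [compT_C, compT_map]
  have h2 : tau τ q = ∑ m ∈ q.support, C (τ (coeff m q)) * monomial m (1 : k) := by
    conv_lhs => rw [eq_sum_C_map (k := k) q]
    rw [tau_sum]
    exact Finset.sum_congr rfl fun m _ => tau_C_map τ _ _
  rw [h1, h2, tau_sum, map_sum]
  refine Finset.sum_congr rfl fun m _ => ?_
  rw [tau_C_map, compT_C]

theorem tau_semi {w : ℕ} {q : MvPolynomial (Ix N d) K} (hq : IsSemi w q) (τ : K →ₗ[k] k) :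
    IsSemi w (tau τ q) := by
  have hinf : Infinite K := Infinite.of_injective _ (algebraMap k K).injective
  intro A c
  have h1 : Dyn.compT (A.map (algebraMap k K)) q = C (algebraMap k K (A.det ^ w)) * q := by
    apply MvPolynomial.funext
    intro c
    rw [Dyn.eval_compT, hq, map_mul, eval_C, map_pow, RingHom.map_det]
    rfl
  rw [← Dyn.eval_compT, compT_tau, h1, tau_smul, map_mul, eval_C]

theorem semi_descend {w : ℕ} {q : MvPolynomial (Ix N d) K} (hq : IsSemi w q) :
    q ∈ Submodule.span K {P | ∃ q' : MvPolynomial (Ix N d) k, IsSemi w q' ∧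
      P = map (algebraMap k K) q'} := by
  refine Submodule.span_mono ?_ (mem_span_tau (k := k) q)
  rintro _ ⟨τ, rfl⟩
  exact ⟨tau τ q, tau_semi hq τ, rfl⟩

end

end Pool.Agent.N141.Sing
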