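import Pool.Agent.N141.Sing.Hard3

/-!
The dimension of the local ring of affine space, and orders of vanishing.
-/

open MvPolynomial

namespace Pool.Agent.N141.Sing

open Pool.Agent.Helper819 Pool.Agent.Helper819.Apolar Pool.Agent.Helper819.Dyn

noncomputable section

set_option linter.unusedSectionVars false

section gen

variable {k : Type} [Field k] {σ : Type}

/-- translation -/
def trans (a : σ → k) : MvPolynomial σ k →ₐ[k] MvPolynomial σ k := aeval fun q => X q + C (a q)

theorem trans_trans (a b : σ → k) (h : ∀ q, a q + b q = 0) (P : MvPolynomial σ k) :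
    trans a (trans b P) = P := by
  have h1 : (trans a).comp (trans b) = AlgHom.id k _ := by
    apply algHom_ext
    intro q
    rw [AlgHom.comp_apply]
    unfold trans
    rw [aeval_X, map_add, aeval_X, AlgHom.id_apply]
    have h2 : (aeval (fun q => X q + C (a q)) : MvPolynomial σ k →ₐ[k] MvPolynomial σ k) (C (b q)) =
        C (b q) := algHom_C _ _
    rw [h2, add_assoc, ← C_add, h q, C_0, add_zero]
  exact congrFun (congrArg DFunLike.coe h1) P

theorem eval_trans (a f : σ → k) (P : MvPolynomial σ k) :
    eval f (trans a P) = eval (fun q => f q + a q) P := by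
  unfold trans
  have h1 : eval f (bind₁ (fun q => X q + C (a q)) P) =
      eval (fun i => eval f (X i + C (a i))) P := eval_bind' _ _ _
  rw [aeval_eq_bind₁, h1]
  congr 2
  funext q
  rw [map_add, eval_X, eval_C]

/-- translation as an equivalence -/
def transE (a : σ → k) : MvPolynomial σ k ≃+* MvPolynomial σ k where
  toFun := trans a
  invFun := trans (fun q => -a q)
  left_inv := trans_trans _ _ (fun q => by ring)
  right_inv := trans_trans _ _ (fun q => by ring)
  map_mul' := map_mul _
  map_add' := map_add _

theorem height_nn [IsAlgClosed k] [Fintype σ] (f : σ → k) :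
    (nn f).height = Fintype.card σ := by
  have hdim : ringKrullDim (MvPolynomial σ k) = (Fintype.card σ : ℕ) := by
    rw [MvPolynomial.ringKrullDim_of_isNoetherianRing, ringKrullDim_eq_zero_of_field, zero_add,
      Nat.card_eq_fintype_card]
  have hfin : FiniteRingKrullDim (MvPolynomial σ k) := by
    rw [finiteRingKrullDim_iff_ne_bot_and_top, hdim]
    constructor
    · exact WithBot.coe_ne_bot
    · intro h
      have h2 : ((Fintype.card σ : ℕ∞) : WithBot ℕ∞) = ((⊤ : ℕ∞) : WithBot ℕ∞) := h
      rw [WithBot.coe_inj] at h2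
      exact ENat.coe_ne_top _ h2
  obtain ⟨p, hp, hph⟩ := Ideal.exists_isMaximal_height (R := MvPolynomial σ k)
  obtain ⟨x, hx⟩ := isMaximal_iff_eq_vanishingIdeal_singleton.mp hp
  have hpx : p = nn x := by
    ext P
    rw [hx, mem_vanishingIdeal_singleton_iff, mem_nn, Gr.aeval_eq_eval_self]
  have h1 : (nn x) = (nn f).comap (transE fun q => x q - f q) := by
    ext P
    rw [Ideal.mem_comap, mem_nn, mem_nn]
    change _ ↔ eval f (trans _ P) = 0
    rw [eval_trans]
    have : (fun q => f q + (x q - f q)) = x := by
      funext q; ring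
    rw [this]
  rw [hpx, h1, RingEquiv.height_comap, hdim] at hph
  exact_mod_cast hph

theorem aeval_homog_mem {R : Type} [CommRing R] [Algebra k R] (𝔫 : Ideal R) {Q : MvPolynomial σ k}
    {j : ℕ} (hQ : Q.IsHomogeneous j) (y : σ → R) (hy : ∀ p, y p ∈ 𝔫) : aeval y Q ∈ 𝔫 ^ j := by
  classical
  rw [Q.as_sum, map_sum]
  refine Submodule.sum_mem _ fun m hm => ?_
  rw [aeval_monomial]
  apply Ideal.mul_mem_left
  have hdeg : ∑ i ∈ m.support, m i = j := by
    have : m.degree = j := by
      by_contra hne
      exact (mem_support_iff.mp hm) (hQ.coeff_eq_zero hne)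
    rw [← this]
    rfl
  rw [← hdeg, ← Finset.prod_pow_eq_pow_sum]
  exact Ideal.prod_mem_prod fun i _ => Ideal.pow_mem_pow (hy i) _

theorem ord_mem_pow [Infinite k] {M : ℕ} {P : MvPolynomial σ k} {c : σ → k} (h : Gr.Ord M P c) :
    P ∈ (nn c) ^ M := by
  let y : σ → MvPolynomial σ k := fun p => X p - C (c p)
  have hy : ∀ p, y p ∈ nn c := by
    intro p
    rw [mem_nn]
    change eval c (X p - C (c p)) = 0
    rw [map_sub, eval_X, eval_C, sub_self]
  have h1 : (Gr.tayl (fun p => (C (c p) : MvPolynomial σ k)) y P).eval 1 = P := by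
    rw [Gr.eval_tayl]
    have : (fun p => C (c p) + 1 * y p) = (X : σ → MvPolynomial σ k) := by
      funext p
      change C (c p) + 1 * (X p - C (c p)) = X p
      ring
    rw [this]
    exact aeval_X_left_apply P
  have h2 : ∀ i, (Gr.tayl (fun p => (C (c p) : MvPolynomial σ k)) y P).coeff i =
      aeval y (Gr.lf i P c) := fun i => (Gr.aeval_lf i P c y).symm
  rw [← h1, Polynomial.eval_eq_sum_range]
  refine Submodule.sum_mem _ fun i _ => ?_
  rw [one_pow, mul_one, h2]
  by_cases hi : i < M
  · rw [h i hi, map_zero]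
    exact Submodule.zero_mem _
  · exact Ideal.pow_le_pow_right (by omega) (aeval_homog_mem (nn c) (Gr.lf_homog i P c) y hy)

end gen

end

end Pool.Agent.N141.Sing
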