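import Pool.Agent.N141.Sing.Easy1

/-!
At a map with trivial automorphism group the maximal ideal has the expected number of generators.
-/

open MvPolynomial

namespace Pool.Agent.N141.Sing

open Pool.Agent.Helper819 Pool.Agent.Helper819.Apolar Pool.Agent.Helper819.Dyn

noncomputable section

set_option linter.unusedSectionVars false

section gen

variable {k : Type} [Field k] {σ τ : Type}

theorem aeval_scale {R : Type} [CommRing R] [Algebra k R] {G : MvPolynomial τ k}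
    {j : ℕ} (hG : G.IsHomogeneous j) (r : R) (y : τ → R) :
    aeval (fun i => r * y i) G = r ^ j * aeval y G := by
  rw [G.as_sum, map_sum, map_sum, Finset.mul_sum]
  refine Finset.sum_congr rfl fun m hm => ?_
  rw [aeval_monomial, aeval_monomial]
  have hdeg : ∑ i ∈ m.support, m i = j := by
    have : m.degree = j := by
      by_contra hne
      exact (mem_support_iff.mp hm) (hG.coeff_eq_zero hne)
    rw [← this]
    rfl
  unfold Finsupp.prod
  simp_rw [mul_pow]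
  rw [Finset.prod_mul_distrib, Finset.prod_pow_eq_pow_sum, hdeg]
  ring

theorem tayl_aeval {G : MvPolynomial τ k} {j : ℕ} (hG : G.IsHomogeneous j)
    (U : τ → MvPolynomial σ k) (c v : σ → k) (hU : ∀ i, eval c (U i) = 0) :
    Gr.tayl c v (aeval U G) = Polynomial.X ^ j *
      aeval (fun i => (Gr.tayl c v (U i)).divX) G := by
  have h1 : Gr.tayl c v (aeval U G) = aeval (fun i => Gr.tayl c v (U i)) G :=
    comp_aeval_apply U (Gr.tayl c v : MvPolynomial σ k →ₐ[k] Polynomial k) G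
  rw [h1, ← aeval_scale hG]
  congr 2
  funext i
  have h2 := Polynomial.divX_mul_X_add (Gr.tayl c v (U i))
  rw [Gr.tayl_coeff_zero, Gr.aeval_eq_eval_self, hU, Polynomial.C_0, add_zero, mul_comm] at h2
  exact h2.symm

theorem lf_aeval_lt [Infinite k] {G : MvPolynomial τ k} {j : ℕ} (hG : G.IsHomogeneous j)
    (U : τ → MvPolynomial σ k) (c : σ → k) (hU : ∀ i, eval c (U i) = 0) :
    Gr.Ord j (aeval U G) c := by
  rw [Gr.ord_iff]
  intro i hi v
  rw [tayl_aeval hG U c v hU, Polynomial.coeff_X_pow_mul', if_neg (by omega)]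

theorem lf_aeval_eq {G : MvPolynomial τ k} {j : ℕ} (hG : G.IsHomogeneous j)
    (U : τ → MvPolynomial σ k) (c v : σ → k) (hU : ∀ i, eval c (U i) = 0) :
    eval v (Gr.lf j (aeval U G) c) = eval (fun i => (Gr.tayl c v (U i)).coeff 1) G := by
  rw [Gr.eval_lf, tayl_aeval hG U c v hU, Polynomial.coeff_X_pow_mul', if_pos le_rfl,
    Nat.sub_self, Polynomial.coeff_zero_eq_eval_zero]
  have h1 := comp_aeval_apply (fun i => (Gr.tayl c v (U i)).divX)
    (Polynomial.aeval (0 : k) : Polynomial k →ₐ[k] k) G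
  change (Polynomial.aeval (0 : k)) (aeval _ G) = _
  rw [h1, Gr.aeval_eq_eval_self]
  congr 2
  funext i
  change Polynomial.eval 0 _ = _
  rw [← Polynomial.coeff_zero_eq_eval_zero, Polynomial.coeff_divX]

end gen

variable {k : Type} [Field k] {N d : ℕ}

theorem tayl_one_eq_dd (c v : Ix N d → k) (P : MvPolynomial (Ix N d) k) :
    (Gr.tayl c v P).coeff 1 = dd P c v := by
  rw [Gr.tayl_coeff_one]
  unfold dd
  refine Finset.sum_congr rfl fun p _ => ?_
  rw [Gr.aeval_eq_eval_self]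

theorem dd_mul_left (P Q : MvPolynomial (Ix N d) k) (c v : Ix N d → k) (hQ : eval c Q = 0) :
    dd (P * Q) c v = eval c P * dd Q c v := by
  unfold dd
  rw [Finset.mul_sum]
  refine Finset.sum_congr rfl fun p _ => ?_
  rw [Derivation.leibniz, map_add, smul_eq_mul, smul_eq_mul, map_mul, map_mul, hQ]
  ring

/-- semi-invariants whose differentials are the coordinates of a slice -/
structure UD {f : Ix N d → k} (𝓢 : Slice f) where
  D : MvPolynomial (Ix N d) k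
  r : ℕ
  hD : IsSemi r D
  hDf : eval f D ≠ 0
  m : ℕ
  U : Fin 𝓢.s → MvPolynomial (Ix N d) k
  hU : ∀ i, IsSemi (m * r) (U i)
  hU0 : ∀ i, eval f (U i) = 0
  hUd : ∀ i v, dd (U i) f v = eval f D ^ m * 𝓢.ell i v

theorem exists_UD [IsAlgClosed k] [CharZero k] (hd : 2 ≤ d) {f : Ix N d → k}
    (hf : NZ (tup f)) (𝓢 : Slice f)
    (hstab : ∀ A : Matrix (Fin (N + 1)) (Fin (N + 1)) k, A.det ≠ 0 → actT A f = f →
      ∃ a : k, A = a • 1) : Nonempty (UD 𝓢) := by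
  obtain ⟨D, r, hDs, hDiff, hDK⟩ := exists_D (k := k) (N := N) (d := d) (by omega)
  have hDf : eval f D ≠ 0 := (hDiff f).mpr hf
  have h1 := fun i => lemA hd hDs (fun c hc => (hDiff c).mp hc) hDf hstab (𝓢.co i) (fun Y => by
    rw [← 𝓢.ell_eq]; exact 𝓢.ell_xi i Y)
  choose m q hq hq0 hqd using h1
  have hm : ∀ i, m i ≤ ∑ i, m i := fun i =>
    Finset.single_le_sum (fun _ _ => Nat.zero_le _) (Finset.mem_univ i)
  refine ⟨⟨D, r, hDs, hDf, ∑ i, m i, fun i => D ^ (∑ i, m i - m i) * q i, ?_, ?_, ?_⟩⟩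
  · intro i
    have h2 := (hDs.pow (∑ i, m i - m i)).mul (hq i)
    have h3 : r * (∑ i, m i - m i) + m i * r = (∑ i, m i) * r := by
      rw [mul_comm r, ← add_mul, Nat.sub_add_cancel (hm i)]
    rwa [h3] at h2
  · intro i
    rw [map_mul, hq0, mul_zero]
  · intro i v
    rw [dd_mul_left _ _ _ _ (hq0 i), hqd, ← 𝓢.ell_eq, map_pow, ← mul_assoc, ← pow_add,
      Nat.sub_add_cancel (hm i)]

namespace UD

variable [IsAlgClosed k] [CharZero k] {f : Ix N d → k} {𝓢 : Slice f} (𝓤 : UD 𝓢)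

theorem semi_aeval {G : MvPolynomial (Fin 𝓢.s) k} {j : ℕ} (hG : G.IsHomogeneous j) :
    IsSemi (j * (𝓤.m * 𝓤.r)) (aeval 𝓤.U G) := by
  intro A c
  have h1 : ∀ c, eval c (aeval 𝓤.U G) = eval (fun i => eval c (𝓤.U i)) G := by
    intro c
    rw [aeval_eq_bind₁]
    exact eval_bind' _ _ _
  rw [h1, h1]
  have h2 : (fun i => eval (actT A c) (𝓤.U i)) =
      fun i => A.det ^ (𝓤.m * 𝓤.r) * eval c (𝓤.U i) := funext fun i => 𝓤.hU i A c
  rw [h2]
  have h3 := aeval_scale hG (A.det ^ (𝓤.m * 𝓤.r)) (fun i => eval c (𝓤.U i))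
  rw [Gr.aeval_eq_eval_self, Gr.aeval_eq_eval_self] at h3
  rw [h3, ← pow_mul, mul_comm j]

theorem step (w j : ℕ) (p Q : MvPolynomial (Ix N d) k) (hp : IsSemi w p) (hQ : IsSemi w Q)
    (hQf : eval f Q ≠ 0) (hj : 1 ≤ j) (hord : Gr.Ord j p f) :
    ∃ p1 ∈ Ideal.span (Set.range 𝓤.U), IsSemi (w + j * (𝓤.m * 𝓤.r)) p1 ∧
      Gr.Ord (j + 1) (𝓤.D ^ (j * 𝓤.m) * p - p1) f := by
  have hinf : Infinite k := inferInstance
  set L := Gr.lf j p f with hL
  have hLh : L.IsHomogeneous j := Gr.lf_homog j p f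
  let G : MvPolynomial (Fin 𝓢.s) k := aeval (fun q => ∑ i, C (𝓢.e i q) * X i) L
  have hG : G.IsHomogeneous j := by
    have := hLh.aeval (fun q => ∑ i, C (𝓢.e i q) * X i : Ix N d → MvPolynomial (Fin 𝓢.s) k)
      (n := 1) (by
        intro q
        refine IsHomogeneous.sum _ _ _ fun i _ => ?_
        exact isHomogeneous_C_mul_X _ _)
    rw [one_mul] at this
    exact this
  have hGe : ∀ y, eval y G = eval (∑ i, y i • 𝓢.e i) L := by
    intro y
    have h1 : eval y (bind₁ (fun q => ∑ i, C (𝓢.e i q) * X i) L) =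
        eval (fun q => eval y (∑ i, C (𝓢.e i q) * X i)) L := eval_bind' _ _ _
    change eval y (aeval _ L) = _
    rw [aeval_eq_bind₁, h1]
    congr 2
    funext q
    rw [map_sum, Finset.sum_apply]
    refine Finset.sum_congr rfl fun i _ => ?_
    rw [map_mul, eval_C, eval_X, Pi.smul_apply, smul_eq_mul, mul_comm]
  have hGell : ∀ v, eval (fun i => 𝓢.ell i v) G = eval v L := by
    intro v
    rw [hGe]
    obtain ⟨Y, hY⟩ := 𝓢.decomp v
    have h1 := Gr.lf_xi (α := CAct N d) ((semi_iff w p).mpr hp) hord (fun _ => Y)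
      (∑ i, 𝓢.ell i v • 𝓢.e i)
    have h2 : (∑ i, 𝓢.ell i v • 𝓢.e i) + (CAct N d).xi (fun _ => Y) f = v := by
      conv_rhs => rw [hY]
      rw [add_comm]
      rfl
    rw [h2] at h1
    exact h1.symm
  have hord1 := lf_aeval_lt hG 𝓤.U f 𝓤.hU0
  refine ⟨C (eval f Q)⁻¹ * Q * aeval 𝓤.U G, ?_, ?_, ?_⟩
  · apply Ideal.mul_mem_left
    have h1 := aeval_homog_mem (Ideal.span (Set.range 𝓤.U)) hG 𝓤.U
      (fun i => Ideal.subset_span ⟨i, rfl⟩)
    exact Ideal.pow_le_self (by omega) h1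
  · exact (hQ.C_mul _).mul (𝓤.semi_aeval hG)
  · intro i hi
    rcases Nat.lt_succ_iff_lt_or_eq.mp hi with hi' | rfl
    · exact ((hord.mul_left _).sub (hord1.mul_left _)) i hi'
    · apply MvPolynomial.funext
      intro v
      rw [Gr.lf_sub, Gr.lf_mul_left hord, Gr.lf_mul_left hord1, map_sub, map_mul, map_mul,
        eval_C, eval_C, lf_aeval_eq hG 𝓤.U f v 𝓤.hU0, map_zero]
      have h1 : (fun i => (Gr.tayl f v (𝓤.U i)).coeff 1) =
          fun i => eval f 𝓤.D ^ 𝓤.m * 𝓢.ell i v := by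
        funext i
        rw [tayl_one_eq_dd, 𝓤.hUd]
      have h2 := aeval_scale hG (eval f 𝓤.D ^ 𝓤.m) (fun i => 𝓢.ell i v)
      rw [Gr.aeval_eq_eval_self, Gr.aeval_eq_eval_self] at h2
      rw [h1, h2, hGell, map_mul, eval_C, inv_mul_cancel₀ hQf, one_mul, map_pow, ← pow_mul,
        mul_comm 𝓤.m]
      exact sub_self _

theorem approx (w : ℕ) (p Q : MvPolynomial (Ix N d) k) (hp : IsSemi w p) (hQ : IsSemi w Q)
    (hQf : eval f Q ≠ 0) (hp0 : eval f p = 0) (M : ℕ) :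
    ∃ (L : ℕ) (a p' : MvPolynomial (Ix N d) k), a ∈ Ideal.span (Set.range 𝓤.U) ∧
      IsSemi (w + L * 𝓤.r) p' ∧ Gr.Ord (M + 1) p' f ∧ 𝓤.D ^ L * p = a + p' := by
  induction M with
  | zero =>
    refine ⟨0, 0, p, Submodule.zero_mem _, by rwa [zero_mul, add_zero], ?_, by rw [pow_zero]; ring⟩
    intro i hi
    have hi0 : i = 0 := by omega
    subst hi0
    have hinf : Infinite k := inferInstance
    apply MvPolynomial.funext
    intro v
    rw [Gr.eval_lf, Gr.tayl_coeff_zero, Gr.aeval_eq_eval_self, hp0, map_zero]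
  | succ M ih =>
    obtain ⟨L, a, p', ha, hp', hord, heq⟩ := ih
    have hDQ : IsSemi (w + L * 𝓤.r) (Q * 𝓤.D ^ L) := by
      rw [mul_comm L]
      exact hQ.mul (𝓤.hD.pow L)
    obtain ⟨p1, hp1, hp1s, hord'⟩ := 𝓤.step (w + L * 𝓤.r) (M + 1) p' (Q * 𝓤.D ^ L) hp' hDQ (by
      rw [map_mul, map_pow]
      exact mul_ne_zero hQf (pow_ne_zero _ 𝓤.hDf)) (by omega) hord
    have hw : w + L * 𝓤.r + (M + 1) * (𝓤.m * 𝓤.r) = w + ((M + 1) * 𝓤.m + L) * 𝓤.r := by ring
    refine ⟨(M + 1) * 𝓤.m + L, 𝓤.D ^ ((M + 1) * 𝓤.m) * a + p1,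
      𝓤.D ^ ((M + 1) * 𝓤.m) * p' - p1, ?_, ?_, hord', ?_⟩
    · exact Submodule.add_mem _ (Ideal.mul_mem_left _ _ ha) hp1
    · rw [← hw]
      refine IsSemi.sub ?_ hp1s
      have h1 := (𝓤.hD.pow ((M + 1) * 𝓤.m)).mul hp'
      have h2 : 𝓤.r * ((M + 1) * 𝓤.m) + (w + L * 𝓤.r) =
          w + L * 𝓤.r + (M + 1) * (𝓤.m * 𝓤.r) := by ring
      rwa [h2] at h1
    · rw [pow_add, mul_assoc, heq]
      ring

theorem krull_step (w : ℕ) (p Q : MvPolynomial (Ix N d) k) (hp : IsSemi w p) (hQ : IsSemi w Q)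
    (hQf : eval f Q ≠ 0) (hp0 : eval f p = 0) :
    ∃ a, eval f a ≠ 0 ∧ a * p ∈ Ideal.span (Set.range 𝓤.U) := by
  have hinf : Infinite k := inferInstance
  set 𝔞 := Ideal.span (Set.range 𝓤.U) with h𝔞
  have h𝔫max : (nn f).IsMaximal := RingHom.ker_isMaximal_of_surjective (eval f)
    (fun a => ⟨C a, eval_C a⟩)
  let q𝔞 := Ideal.Quotient.mk 𝔞
  let 𝔫1 : Ideal (MvPolynomial (Ix N d) k ⧸ 𝔞) := (nn f).map q𝔞
  have hmem : ∀ M, p ∈ 𝔞 ⊔ (nn f) ^ M := by
    intro M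
    obtain ⟨L, a, p', ha, hp', hord, heq⟩ := 𝓤.approx w p Q hp hQ hQf hp0 M
    have hp'n : p' ∈ (nn f) ^ M := Ideal.pow_le_pow_right (Nat.le_succ M) (ord_mem_pow hord)
    have hcop : (nn f) ^ M ⊔ Ideal.span {𝓤.D ^ L} = ⊤ := by
      apply Ideal.pow_sup_eq_top
      rw [Ideal.eq_top_iff_one]
      by_contra hcon
      have h1 : (nn f) = (nn f) ⊔ Ideal.span {𝓤.D ^ L} := h𝔫max.eq_of_le
        (fun h => hcon (by rw [h]; trivial)) le_sup_left
      have h2 : 𝓤.D ^ L ∈ nn f := by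
        rw [h1]
        exact Submodule.mem_sup_right (Ideal.subset_span rfl)
      rw [mem_nn, map_pow] at h2
      exact pow_ne_zero L 𝓤.hDf h2
    have h1 : (1 : MvPolynomial (Ix N d) k) ∈ (nn f) ^ M ⊔ Ideal.span {𝓤.D ^ L} := by
      rw [hcop]; trivial
    obtain ⟨n, hn, u', hu', hnu⟩ := Submodule.mem_sup.mp h1
    obtain ⟨u, rfl⟩ := Ideal.mem_span_singleton'.mp hu'
    have h2 : p = u * a + (n * p + u * p') := by
      have : p = (n + u * 𝓤.D ^ L) * p := by rw [hnu, one_mul]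
      conv_lhs => rw [this]
      rw [add_mul, mul_assoc, heq]
      ring
    rw [h2]
    exact Submodule.add_mem_sup (Ideal.mul_mem_left _ _ ha)
      (Submodule.add_mem _ (Ideal.mul_mem_right _ _ hn) (Ideal.mul_mem_left _ _ hp'n))
  have hiInf : q𝔞 p ∈ (⨅ i : ℕ, 𝔫1 ^ i • ⊤ :
      Submodule (MvPolynomial (Ix N d) k ⧸ 𝔞) (MvPolynomial (Ix N d) k ⧸ 𝔞)) := by
    rw [Submodule.mem_iInf]
    intro M
    rw [smul_eq_mul, Ideal.mul_top]
    change _ ∈ ((nn f).map q𝔞) ^ M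
    rw [← Ideal.map_pow]
    obtain ⟨a, ha, b, hb', hab⟩ := Submodule.mem_sup.mp (hmem M)
    rw [← hab, map_add, Ideal.Quotient.eq_zero_iff_mem.mpr ha, zero_add]
    exact Ideal.mem_map_of_mem _ hb'
  obtain ⟨r, hr⟩ := (Ideal.mem_iInf_smul_pow_eq_bot_iff 𝔫1 (q𝔞 p)).mp hiInf
  obtain ⟨n', hn', hn2⟩ := (Ideal.mem_map_iff_of_surjective q𝔞
    Ideal.Quotient.mk_surjective).mp r.2
  refine ⟨1 - n', ?_, ?_⟩
  · rw [map_sub, map_one, (mem_nn f n').mp hn', sub_zero]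
    exact one_ne_zero
  · rw [← Ideal.Quotient.eq_zero_iff_mem, map_mul, map_sub, map_one]
    change (1 - q𝔞 n') * q𝔞 p = 0
    rw [hn2, sub_mul, one_mul]
    rw [smul_eq_mul] at hr
    rw [hr, sub_self]

end UD

end

end Pool.Agent.N141.Sing
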