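import Pool.Agent.N141.Sing.Easy2

/-!
At a map with trivial automorphism group the local ring is regular.
-/

open MvPolynomial

namespace Pool.Agent.N141.Sing

open Pool.Agent.Helper819 Pool.Agent.Helper819.Apolar Pool.Agent.Helper819.Dyn

noncomputable section

set_option linter.unusedSectionVars false

section gen

variable {k : Type} [Field k] {σ : Type}

theorem nn_eq_span (f : σ → k) :
    nn f = Ideal.span (Set.range fun q : σ => (X q - C (f q) : MvPolynomial σ k)) := by
  apply le_antisymm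
  · have key : ∀ R : MvPolynomial σ k, R - C (eval f R) ∈
        Ideal.span (Set.range fun q : σ => (X q - C (f q) : MvPolynomial σ k)) := by
      intro R
      induction R using MvPolynomial.induction_on with
      | C a => rw [eval_C, sub_self]; exact Ideal.zero_mem _
      | add p q hp hq =>
        have : p + q - C (eval f (p + q)) = (p - C (eval f p)) + (q - C (eval f q)) := by
          rw [map_add, C_add]; ring
        rw [this]
        exact Ideal.add_mem _ hp hq
      | mul_X p i hp =>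
        have : p * X i - C (eval f (p * X i)) = p * (X i - C (f i)) +
            C (f i) * (p - C (eval f p)) := by
          rw [map_mul, eval_X, C_mul]; ring
        rw [this]
        exact Ideal.add_mem _ (Ideal.mul_mem_left _ _ (Ideal.subset_span ⟨i, rfl⟩))
          (Ideal.mul_mem_left _ _ hp)
    intro R hR
    have := key R
    rwa [(mem_nn f R).mp hR, C_0, sub_zero] at this
  · rw [Ideal.span_le]
    rintro _ ⟨q, rfl⟩
    rw [SetLike.mem_coe, mem_nn, map_sub, eval_X, eval_C, sub_self]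

theorem dim_BB [IsAlgClosed k] [Fintype σ] (f : σ → k) :
    (IsLocalRing.maximalIdeal (BB f)).height = Fintype.card σ := by
  have h1 := IsLocalization.AtPrime.ringKrullDim_eq_height (nn f) (BB f)
  rw [height_nn, ← IsLocalRing.maximalIdeal_height_eq_ringKrullDim] at h1
  exact_mod_cast h1

end gen

variable {k : Type} [Field k] [IsAlgClosed k] [CharZero k] {N d : ℕ}

namespace Slice

variable {f : Ix N d → k} (𝓢 : Slice f)

/-- the linear forms of the slice -/
def lam (i : Fin 𝓢.s) : MvPolynomial (Ix N d) k := ∑ p, C (𝓢.co i p) * (X p - C (f p))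

/-- the remaining linear forms -/
def yy (x : Fin (N + 1) × Fin (N + 1)) : MvPolynomial (Ix N d) k :=
  ∑ p, C ((𝓢.equiv.symm (Pi.single p 1)).1 x.1 x.2) * (X p - C (f p))

theorem X_eq (q : Ix N d) : (X q - C (f q) : MvPolynomial (Ix N d) k) =
    ∑ i, C (𝓢.e i q) * 𝓢.lam i + ∑ x : Fin (N + 1) × Fin (N + 1),
      C (xi (Matrix.single x.1 x.2 1) f q) * 𝓢.yy x := by
  have hunit : ∀ p : Ix N d, (if p = q then 1 else 0 : k) =
      ∑ i, 𝓢.e i q * 𝓢.co i p + ∑ x : Fin (N + 1) × Fin (N + 1),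
        xi (Matrix.single x.1 x.2 1) f q * (𝓢.equiv.symm (Pi.single p 1)).1 x.1 x.2 := by
    intro p
    have h1 := 𝓢.Φ_apply (𝓢.equiv.symm (Pi.single p 1)).1 (𝓢.equiv.symm (Pi.single p 1)).2
    have h2 : 𝓢.Φ ((𝓢.equiv.symm (Pi.single p 1)).1, (𝓢.equiv.symm (Pi.single p 1)).2) =
        Pi.single p 1 := 𝓢.equiv.apply_symm_apply _
    rw [h2] at h1
    have h3 := congrFun h1 q
    rw [Pi.single_apply] at h3
    have h4 : (if p = q then 1 else 0 : k) = if q = p then 1 else 0 := by
      simp only [eq_comm]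
    rw [h4, h3, Pi.add_apply, add_comm]
    congr 1
    · rw [Finset.sum_apply]
      refine Finset.sum_congr rfl fun i _ => ?_
      rw [Pi.smul_apply, smul_eq_mul, mul_comm]
      rfl
    · set Y := (𝓢.equiv.symm (Pi.single p 1)).1 with hY
      have h5 : Y = ∑ i, ∑ j, Y i j • Matrix.single i j (1 : k) := by
        conv_lhs => rw [Matrix.matrix_eq_sum_single Y]
        refine Finset.sum_congr rfl fun i _ => Finset.sum_congr rfl fun j _ => ?_
        rw [Matrix.smul_single, smul_eq_mul, mul_one]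
      have h6 : xi Y f = ∑ i, ∑ j, Y i j • xi (Matrix.single i j (1 : k)) f := by
        change xiL f Y = ∑ i, ∑ j, Y i j • xiL f (Matrix.single i j (1 : k))
        conv_lhs => rw [h5]
        rw [map_sum]
        refine Finset.sum_congr rfl fun i _ => ?_
        rw [map_sum]
        refine Finset.sum_congr rfl fun j _ => ?_
        rw [map_smul]
      rw [h6, Finset.sum_apply, Fintype.sum_prod_type]
      refine Finset.sum_congr rfl fun i _ => ?_
      rw [Finset.sum_apply]
      refine Finset.sum_congr rfl fun j _ => ?_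
      rw [Pi.smul_apply, smul_eq_mul, mul_comm]
  have h1 : (X q - C (f q) : MvPolynomial (Ix N d) k) =
      ∑ p, C (if p = q then 1 else 0 : k) * (X p - C (f p)) := by
    rw [Finset.sum_eq_single q]
    · rw [if_pos rfl, C_1, one_mul]
    · intro p _ hp
      rw [if_neg hp, C_0, zero_mul]
    · simp
  rw [h1]
  simp_rw [hunit]
  unfold lam yy
  simp_rw [C_add, map_sum, add_mul, Finset.sum_mul, Finset.mul_sum, C_mul, ← mul_assoc]
  rw [Finset.sum_add_distrib]
  congr 1
  · exact Finset.sum_comm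
  · exact Finset.sum_comm

theorem dd_lam (i : Fin 𝓢.s) (v : Ix N d → k) : dd (𝓢.lam i) f v = 𝓢.ell i v := by
  rw [𝓢.ell_eq]
  unfold dd lam
  refine Finset.sum_congr rfl fun p _ => ?_
  rw [mul_comm]
  congr 1
  rw [map_sum, map_sum, Finset.sum_eq_single p]
  · rw [Derivation.leibniz, pderiv_C, smul_zero, add_zero, map_sub, pderiv_X_self, pderiv_C,
      sub_zero, smul_eq_mul, mul_one, eval_C]
  · intro q _ hq
    rw [Derivation.leibniz, pderiv_C, smul_zero, add_zero, map_sub, pderiv_X_of_ne hq, pderiv_C,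
      sub_zero, smul_zero, map_zero]
  · simp

theorem eval_lam (i : Fin 𝓢.s) : eval f (𝓢.lam i) = 0 := by
  unfold lam
  rw [map_sum]
  apply Finset.sum_eq_zero
  intro p _
  rw [map_mul, map_sub, eval_X, eval_C, eval_C, sub_self, mul_zero]

end Slice

namespace UD

variable {f : Ix N d → k} {𝓢 : Slice f} (𝓤 : UD 𝓢)

theorem hDm : IsSemi (𝓤.m * 𝓤.r) (𝓤.D ^ 𝓤.m) := by
  rw [mul_comm]
  exact 𝓤.hD.pow _

theorem hDmf : eval f (𝓤.D ^ 𝓤.m) ≠ 0 := by
  rw [map_pow]
  exact pow_ne_zero _ 𝓤.hDf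

/-- the generators -/
def u (i : Fin 𝓢.s) : LL f := mkL f (𝓤.m * 𝓤.r) (𝓤.U i) (𝓤.D ^ 𝓤.m) (𝓤.hU i) 𝓤.hDm 𝓤.hDmf

theorem u_spec (i : Fin 𝓢.s) :
    (𝓤.u i : BB f) * algebraMap _ _ (𝓤.D ^ 𝓤.m) = algebraMap _ _ (𝓤.U i) :=
  mkL_spec f _ _ _ _ _ _

theorem u_max (i : Fin 𝓢.s) : 𝓤.u i ∈ IsLocalRing.maximalIdeal (LL f) := by
  rw [mem_maxL_iff, evL_apply, evB_eq_zero_iff f 𝓤.hDmf (𝓤.u_spec i)]
  exact 𝓤.hU0 i

theorem map_U_le : (Ideal.span (Set.range 𝓤.U)).map (algebraMap _ (BB f)) ≤
    (Ideal.span (Set.range 𝓤.u)).map (algebraMap (LL f) (BB f)) := by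
  rw [Ideal.map_span, Ideal.span_le]
  rintro _ ⟨_, ⟨i, rfl⟩, rfl⟩
  rw [SetLike.mem_coe, ← 𝓤.u_spec]
  apply Ideal.mul_mem_right
  have h1 : 𝓤.u i ∈ Ideal.span (Set.range 𝓤.u) := Ideal.subset_span ⟨i, rfl⟩
  exact Ideal.mem_map_of_mem (algebraMap (LL f) (BB f)) h1

theorem gens (hd : 2 ≤ d) (hf : NZ (tup f)) :
    IsLocalRing.maximalIdeal (LL f) = Ideal.span (Set.range 𝓤.u) := by
  apply le_antisymm
  · intro x hx
    apply contract hd hf
    obtain ⟨w, P, Q, hP, hQ, hQf, hPQ⟩ := LL_rep f x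
    have hP0 : eval f P = 0 := by
      rw [← evB_eq_zero_iff f hQf hPQ]
      exact (mem_maxL_iff f x).mp hx
    obtain ⟨a, ha, haP⟩ := 𝓤.krull_step w P Q hP hQ hQf hP0
    have h1 := 𝓤.map_U_le (Ideal.mem_map_of_mem (algebraMap _ (BB f)) haP)
    rw [map_mul, ← hPQ] at h1
    have hu : IsUnit (algebraMap _ (BB f) (a * Q)) := alg_isUnit f (by
      rw [map_mul]
      exact mul_ne_zero ha hQf)
    have h2 : algebraMap _ (BB f) (a * Q) * (x : BB f) ∈
        (Ideal.span (Set.range 𝓤.u)).map (algebraMap (LL f) (BB f)) := by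
      rw [map_mul]
      have h3 : algebraMap _ (BB f) a * algebraMap _ (BB f) Q * (x : BB f) =
          algebraMap _ (BB f) a * ((x : BB f) * algebraMap _ (BB f) Q) := by ring
      rw [h3]
      exact h1
    exact (Ideal.unit_mul_mem_iff_mem _ hu).mp h2
  · rw [Ideal.span_le]
    rintro _ ⟨i, rfl⟩
    exact 𝓤.u_max i

include 𝓤 in
theorem max_le : IsLocalRing.maximalIdeal (BB f) ≤
    (IsLocalRing.maximalIdeal (LL f)).map (algebraMap (LL f) (BB f)) ⊔
      Ideal.span (Set.range fun x => algebraMap _ (BB f) (𝓢.yy x)) := by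
  have hinf : Infinite k := inferInstance
  apply Submodule.le_of_le_smul_of_le_jacobson_bot (I := IsLocalRing.maximalIdeal (BB f))
    (IsNoetherian.noetherian _) (IsLocalRing.maximalIdeal_le_jacobson _)
  have hmax : IsLocalRing.maximalIdeal (BB f) = Ideal.span (algebraMap _ (BB f) ''
      (Set.range fun q : Ix N d => (X q - C (f q) : MvPolynomial (Ix N d) k))) := by
    have h2 : (nn f).map (algebraMap _ (BB f)) = (Ideal.span (Set.range fun q : Ix N d =>
      (X q - C (f q) : MvPolynomial (Ix N d) k))).map (algebraMap _ (BB f)) :=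
        congrArg (Ideal.map _) (nn_eq_span f)
    rw [← Localization.AtPrime.map_eq_maximalIdeal, h2, Ideal.map_span]
  refine le_trans (le_of_eq hmax) ?_
  rw [Ideal.span_le]
  rintro _ ⟨_, ⟨q, rfl⟩, rfl⟩
  rw [SetLike.mem_coe]
  change algebraMap _ (BB f) (X q - C (f q)) ∈ _
  rw [𝓢.X_eq q, map_add, map_sum, map_sum]
  apply Submodule.add_mem
  · refine Submodule.sum_mem _ fun i _ => ?_
    rw [map_mul]
    apply Ideal.mul_mem_left
    -- the form `lam i`
    have hord : Gr.Ord 2 (C (eval f 𝓤.D ^ 𝓤.m)⁻¹ * 𝓤.U i - 𝓢.lam i) f := by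
      intro j hj
      apply MvPolynomial.funext
      intro v
      rw [Gr.eval_lf, map_zero]
      interval_cases j
      · rw [Gr.tayl_coeff_zero, Gr.aeval_eq_eval_self, map_sub, map_mul, 𝓤.hU0, 𝓢.eval_lam]
        ring
      · rw [tayl_one_eq_dd, ← ddl_apply]
        have h1 : dd (C (eval f 𝓤.D ^ 𝓤.m)⁻¹ * 𝓤.U i - 𝓢.lam i) f v =
            dd (C (eval f 𝓤.D ^ 𝓤.m)⁻¹ * 𝓤.U i) f v - dd (𝓢.lam i) f v := by
          unfold dd
          rw [← Finset.sum_sub_distrib]
          refine Finset.sum_congr rfl fun p _ => ?_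
          rw [map_sub, map_sub]
          ring
        rw [ddl_apply, h1, dd_mul_left _ _ _ _ (𝓤.hU0 i), 𝓤.hUd, 𝓢.dd_lam, eval_C, ← mul_assoc,
          inv_mul_cancel₀ (pow_ne_zero _ 𝓤.hDf), one_mul, sub_self]
    have h2 := ord_mem_pow hord
    have h3 : 𝓢.lam i = C (eval f 𝓤.D ^ 𝓤.m)⁻¹ * 𝓤.U i -
        (C (eval f 𝓤.D ^ 𝓤.m)⁻¹ * 𝓤.U i - 𝓢.lam i) := by ring
    rw [h3, map_sub]
    apply Submodule.sub_mem
    · rw [map_mul, ← 𝓤.u_spec]
      apply Submodule.mem_sup_left
      apply Submodule.mem_sup_left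
      apply Ideal.mul_mem_left
      apply Ideal.mul_mem_right
      exact Ideal.mem_map_of_mem (algebraMap (LL f) (BB f)) (𝓤.u_max i)
    · apply Submodule.mem_sup_right
      have h4 := Ideal.mem_map_of_mem (algebraMap _ (BB f)) h2
      rw [Ideal.map_pow, Localization.AtPrime.map_eq_maximalIdeal, pow_two] at h4
      exact h4
  · refine Submodule.sum_mem _ fun x _ => ?_
    rw [map_mul]
    apply Ideal.mul_mem_left
    apply Submodule.mem_sup_left
    apply Submodule.mem_sup_right
    exact Ideal.subset_span ⟨x, rfl⟩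

end UD

theorem maxB_under (f : Ix N d → k) : IsLocalRing.maximalIdeal (LL f) =
    (IsLocalRing.maximalIdeal (BB f)).under (LL f) := by
  ext x
  rw [mem_maxL_iff, Ideal.under_def, Ideal.mem_comap]
  exact (mem_max_iff f (x : BB f)).symm

theorem lower_general {R S ι : Type} [CommRing R] [IsLocalRing R] [IsNoetherianRing R] [CommRing S]
    [IsLocalRing S] [IsNoetherianRing S] [Algebra R S] [Fintype ι]
    (hunder : IsLocalRing.maximalIdeal R = (IsLocalRing.maximalIdeal S).under R) (y : ι → S)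
    (hy : IsLocalRing.maximalIdeal S ≤
      (IsLocalRing.maximalIdeal R).map (algebraMap R S) ⊔ Ideal.span (Set.range y))
    (hy' : ∀ x, y x ∈ IsLocalRing.maximalIdeal S) {s : ℕ}
    (hs : (IsLocalRing.maximalIdeal S).height = (s + Fintype.card ι : ℕ)) :
    (s : WithBot ℕ∞) ≤ ringKrullDim R := by
  have hlo : (IsLocalRing.maximalIdeal S).LiesOver (IsLocalRing.maximalIdeal R) := ⟨hunder⟩
  have h1 := Ideal.height_le_height_add_of_liesOver (IsLocalRing.maximalIdeal R)
    (IsLocalRing.maximalIdeal S)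
  rw [hs] at h1
  set I := (IsLocalRing.maximalIdeal R).map (algebraMap R S) with hI
  set P' := (IsLocalRing.maximalIdeal S).map (Ideal.Quotient.mk I) with hP'
  have hIle : I ≤ IsLocalRing.maximalIdeal S := by
    rw [hI, Ideal.map_le_iff_le_comap]
    exact le_of_eq hunder
  have hne : P' ≠ ⊤ := by
    intro h
    have h2 := congrArg (Ideal.comap (Ideal.Quotient.mk I)) h
    rw [Ideal.comap_map_of_surjective _ Ideal.Quotient.mk_surjective, Ideal.comap_top] at h2
    have h3 : Ideal.comap (Ideal.Quotient.mk I) ⊥ = I := by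
      rw [← RingHom.ker_eq_comap_bot, Ideal.mk_ker]
    rw [h3, sup_eq_left.mpr hIle] at h2
    exact (IsLocalRing.maximalIdeal.isMaximal S).ne_top h2
  have hspan : P' = Ideal.span (Set.range fun x => Ideal.Quotient.mk I (y x)) := by
    apply le_antisymm
    · have h2 := Ideal.map_mono (f := Ideal.Quotient.mk I) hy
      rw [Ideal.map_sup] at h2
      refine h2.trans (sup_le ?_ ?_)
      · rw [Ideal.map_quotient_self]
        exact bot_le
      · rw [Ideal.map_span, ← Set.range_comp]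
        exact le_rfl
    · rw [Ideal.span_le]
      rintro _ ⟨x, rfl⟩
      exact Ideal.mem_map_of_mem _ (hy' x)
  have h2 : P'.height ≤ (Fintype.card ι : ℕ) := by
    refine (Ideal.height_le_spanFinrank P' hne).trans ?_
    have h3 := Submodule.spanFinrank_span_le_ncard_of_finite (R := S ⧸ I)
      (Set.finite_range fun x => Ideal.Quotient.mk I (y x))
    have h4 : (Set.range fun x => Ideal.Quotient.mk I (y x)).ncard ≤ Fintype.card ι := by
      rw [← Set.image_univ]
      refine (Set.ncard_image_le Set.finite_univ).trans ?_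
      rw [Set.ncard_univ, Nat.card_eq_fintype_card]
    rw [hspan]
    exact_mod_cast h3.trans h4
  have h3 := h1.trans (add_le_add le_rfl h2)
  rw [Nat.cast_add] at h3
  have h4 : (s : ℕ∞) ≤ (IsLocalRing.maximalIdeal R).height := by
    exact (ENat.add_le_add_iff_right (ENat.natCast_ne_top _)).mp h3
  rw [← IsLocalRing.maximalIdeal_height_eq_ringKrullDim]
  exact_mod_cast h4

theorem lower_general' {R S ι : Type} [CommRing R] [IsLocalRing R] [CommRing S]
    [IsLocalRing S] [IsNoetherianRing S] [Algebra R S] [Fintype ι]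
    (hunder : IsLocalRing.maximalIdeal R = (IsLocalRing.maximalIdeal S).under R) (y : ι → S)
    (hy : IsLocalRing.maximalIdeal S ≤
      (IsLocalRing.maximalIdeal R).map (algebraMap R S) ⊔ Ideal.span (Set.range y))
    (s : ℕ) (hy' : ∀ x, y x ∈ IsLocalRing.maximalIdeal S)
    (hs : (IsLocalRing.maximalIdeal S).height = (s + Fintype.card ι : ℕ))
    (hR : IsNoetherianRing R) :
    (s : WithBot ℕ∞) ≤ ringKrullDim R := lower_general hunder y hy hy' hs

theorem yy_mem {f : Ix N d → k} (𝓢 : Slice f) (x : Fin (N + 1) × Fin (N + 1)) :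
    algebraMap _ (BB f) (𝓢.yy x) ∈ IsLocalRing.maximalIdeal (BB f) := by
  rw [mem_max_iff, evB_alg]
  unfold Slice.yy
  rw [map_sum]
  apply Finset.sum_eq_zero
  intro p _
  rw [map_mul, map_sub, eval_X, eval_C, eval_C, sub_self, mul_zero]

theorem hsum {f : Ix N d → k} (𝓢 : Slice f) : (IsLocalRing.maximalIdeal (BB f)).height =
    (𝓢.s + Fintype.card (Fin (N + 1) × Fin (N + 1)) : ℕ) := by
  rw [dim_BB, ← 𝓢.hs, Fintype.card_prod, Fintype.card_fin]

theorem lower (hd : 2 ≤ d) {f : Ix N d → k} (hf : NZ (tup f)) {𝓢 : Slice f} (𝓤 : UD 𝓢) :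
    (𝓢.s : WithBot ℕ∞) ≤ ringKrullDim (LL f) := by
  have h1 := lower_general' (R := LL f) (S := BB f) (maxB_under f)
    (fun x => algebraMap _ (BB f) (𝓢.yy x)) 𝓤.max_le
  have h2 := yy_mem 𝓢
  have h3 := h1 𝓢.s h2
  have h4 := hsum 𝓢
  have h5 := h3 h4
  have h6 := noeth hd hf
  have h7 := h5 h6
  exact h7

theorem regular_of {R : Type} [CommRing R] [IsLocalRing R] (hno : IsNoetherianRing R) {s : ℕ}
    (u : Fin s → R) (hu : IsLocalRing.maximalIdeal R = Ideal.span (Set.range u))
    (hdim : (s : WithBot ℕ∞) ≤ ringKrullDim R) : IsRegularLocalRing R := by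
  apply IsRegularLocalRing.of_spanFinrank_maximalIdeal_le
  refine le_trans ?_ hdim
  have h3 := Submodule.spanFinrank_span_le_ncard_of_finite (R := R) (Set.finite_range u)
  have h4 : (Set.range u).ncard ≤ s := by
    rw [← Set.image_univ]
    refine (Set.ncard_image_le Set.finite_univ).trans ?_
    rw [Set.ncard_univ, Nat.card_eq_fintype_card, Fintype.card_fin]
  rw [hu]
  exact_mod_cast h3.trans h4

theorem easy (hd : 2 ≤ d) {f : Ix N d → k} (hf : NZ (tup f))
    (hstab : ∀ A : Matrix (Fin (N + 1)) (Fin (N + 1)) k, A.det ≠ 0 → actT A f = f →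
      ∃ a : k, A = a • 1) : IsRegularLocalRing (LL f) := by
  obtain ⟨𝓢⟩ := exists_slice hd hf
  obtain ⟨𝓤⟩ := exists_UD hd hf 𝓢 hstab
  exact regular_of (noeth hd hf) 𝓤.u (𝓤.gens hd hf) (lower hd hf 𝓤)

/-- The local ring of invariants is regular if and only if the stabiliser consists of scalars. -/
theorem regular_iff (hN : 2 ≤ N) (hd : 2 ≤ d) {f : Ix N d → k} (hf : NZ (tup f)) :
    IsRegularLocalRing (LL f) ↔ ∀ A : Matrix (Fin (N + 1)) (Fin (N + 1)) k, A.det ≠ 0 →
      actT A f = f → ∃ a : k, A = a • 1 :=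
  ⟨fun h A hA hAf => hard hN hd hf h A hA hAf, fun h => easy hd hf h⟩

end

end Pool.Agent.N141.Sing
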