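import Pool.Agent.N141.Sing.Comb

/-!
Equivariance of the infinitesimal action and the action of diagonal matrices.
-/

open MvPolynomial

namespace Pool.Agent.N141.Sing

open Pool.Agent.Helper819 Pool.Agent.Helper819.Apolar Pool.Agent.Helper819.Dyn

noncomputable section

set_option linter.unusedSectionVars false

section

variable {K : Type} [Field K] {N d : ℕ}

theorem map_one_eps {R S : Type} [CommRing R] [CommRing S] [Algebra R S] (e : S)
    (A B B' : Matrix (Fin (N + 1)) (Fin (N + 1)) R) (hBB' : B * B' = 1) :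
    oneEps e A * B.map (algebraMap R S) = B.map (algebraMap R S) * oneEps e (B' * A * B) := by
  unfold oneEps
  have h1 : B.map (algebraMap R S) * B'.map (algebraMap R S) = 1 := by
    rw [← Matrix.map_mul, hBB']
    simp
  have h2 : (B' * A * B).map (algebraMap R S) =
      B'.map (algebraMap R S) * A.map (algebraMap R S) * B.map (algebraMap R S) := by
    rw [Matrix.map_mul, Matrix.map_mul]
  rw [h2, add_mul, mul_add, one_mul, mul_one, Matrix.smul_mul, Matrix.mul_smul]
  congr 2
  rw [← mul_assoc, ← mul_assoc, h1, one_mul]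

theorem snd_map_eps (a b : K) : ((algebraMap K (DualNumber K) a +
    DualNumber.eps * algebraMap K (DualNumber K) b : DualNumber K)).snd = b := snd_form a b

/-- equivariance of the infinitesimal action -/
theorem xi_equiv (A B B' : Matrix (Fin (N + 1)) (Fin (N + 1)) K) (hBB' : B * B' = 1)
    (c : Ix N d → K) : actT B (xi A c) = xi (B' * A * B) (actT B c) := by
  have he := DualNumber.eps_mul_eps (R := K)
  have h1 := actT_actT (oneEps (DualNumber.eps : DualNumber K) A)
    (B.map (algebraMap K (DualNumber K))) (fun p => algebraMap K (DualNumber K) (c p))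
  rw [map_one_eps _ A B B' hBB', ← actT_actT] at h1
  have h2 : actT (oneEps (DualNumber.eps : DualNumber K) A)
      (fun p => algebraMap K (DualNumber K) (c p)) =
      (fun p => algebraMap K (DualNumber K) (c p)) +
        (DualNumber.eps : DualNumber K) • (fun p => algebraMap K (DualNumber K) (xi A c p)) := by
    funext p
    exact actT_eps _ he A c p
  have h3 : ∀ v : Ix N d → K, actT (B.map (algebraMap K (DualNumber K)))
      (fun p => algebraMap K (DualNumber K) (v p)) =
      fun p => algebraMap K (DualNumber K) (actT B v p) := by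
    intro v
    funext p
    exact (map_actT (algebraMap K (DualNumber K)) B v p).symm
  rw [h2, actT_add, actT_smul, h3, h3] at h1
  funext p
  have h4 := congrFun h1 p
  rw [actT_eps _ he] at h4
  have h5 := congrArg TrivSqZeroExt.snd h4
  have h6 : ((fun p => algebraMap K (DualNumber K) (actT B c p)) +
      (DualNumber.eps : DualNumber K) • fun p => algebraMap K (DualNumber K) (actT B (xi A c) p)) p =
      algebraMap K (DualNumber K) (actT B c p) +
        DualNumber.eps * algebraMap K (DualNumber K) (actT B (xi A c) p) := rfl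
  rw [h6, snd_form, snd_form] at h5
  exact h5

/-- The factor by which a diagonal matrix scales a coefficient. -/
def mu (l : Fin (N + 1) → K) (p : Ix N d) : K :=
  (∏ j ∈ Finset.univ.erase p.1, l j) * ∏ i, l i ^ p.2.1 i

theorem actT_diagonal (l : Fin (N + 1) → K) (c : Ix N d → K) (p : Ix N d) :
    actT (Matrix.diagonal l) c p = mu l p * c p := by
  unfold actT cf act
  rw [Matrix.adjugate_diagonal, Finset.sum_eq_single p.1]
  · rw [Matrix.diagonal_apply_eq, coeff_C_mul]
    have h1 : (fun l' => ∑ m, C (Matrix.diagonal l l' m) * X m :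
        Fin (N + 1) → MvPolynomial (Fin (N + 1)) K) = fun i => C (l i) * X i := by
      funext i
      rw [Finset.sum_eq_single i]
      · rw [Matrix.diagonal_apply_eq]
      · intro b _ hb
        rw [Matrix.diagonal_apply_ne' _ hb, map_zero, zero_mul]
      · simp
    rw [h1]
    unfold tup
    rw [map_sum]
    have h2 : ∀ m : Ex N d, bind₁ (fun i => C (l i) * X i) (monomial m.1 (c (p.1, m))) =
        monomial m.1 ((∏ i, l i ^ m.1 i) * c (p.1, m)) := by
      intro m
      rw [bind₁_monomial]
      simp_rw [mul_pow]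
      rw [Finset.prod_mul_distrib]
      have h3 : ∏ i ∈ m.1.support, (C (l i) : MvPolynomial (Fin (N + 1)) K) ^ m.1 i =
          C (∏ i, l i ^ m.1 i) := by
        rw [map_prod, Finset.prod_subset (Finset.subset_univ _)]
        · exact Finset.prod_congr rfl fun i _ => (C_pow _ _).symm
        · intro i _ hi
          rw [Finsupp.notMem_support_iff.mp hi, pow_zero]
      rw [h3, ← mul_assoc, ← C_mul, mul_comm (c (p.1, m)), monomial_eq, Finsupp.prod]
    simp_rw [h2]
    rw [coeff_sum, Finset.sum_eq_single p.2]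
    · rw [coeff_monomial, if_pos rfl]
      unfold mu
      ring
    · intro b _ hb
      rw [coeff_monomial, if_neg]
      intro h
      exact hb (Subtype.ext h)
    · simp
  · intro j _ hj
    rw [Matrix.diagonal_apply_ne' _ hj, map_zero, zero_mul]
  · simp

theorem mu_eq_one_iff (l : Fin (N + 1) → K) (hl : ∀ i, l i ≠ 0) (p : Ix N d) :
    mu l p = 1 ↔ l p.1 = (∏ j, l j) * ∏ i, l i ^ p.2.1 i := by
  have h1 : ∏ j, l j = l p.1 * ∏ j ∈ Finset.univ.erase p.1, l j :=
    (Finset.mul_prod_erase _ _ (Finset.mem_univ _)).symm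
  unfold mu
  rw [h1, mul_assoc]
  constructor
  · intro h
    rw [h, mul_one]
  · intro h
    have h2 : l p.1 * ((∏ j ∈ Finset.univ.erase p.1, l j) * ∏ i, l i ^ p.2.1 i) = l p.1 * 1 := by
      rw [← h, mul_one]
    exact mul_left_cancel₀ (hl p.1) h2

theorem diagonal_mul_inv (l : Fin (N + 1) → K) (hl : ∀ i, l i ≠ 0) :
    Matrix.diagonal l * Matrix.diagonal (fun i => (l i)⁻¹) = 1 := by
  rw [Matrix.diagonal_mul_diagonal, ← Matrix.diagonal_one]
  congr 1
  funext i
  exact mul_inv_cancel₀ (hl i)

theorem xi_single_fixed (l : Fin (N + 1) → K) (hl : ∀ i, l i ≠ 0) {c : Ix N d → K}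
    (hc : actT (Matrix.diagonal l) c = c) {i j : Fin (N + 1)} (hij : l i = l j) :
    actT (Matrix.diagonal l) (xi (Matrix.single i j 1) c) = xi (Matrix.single i j 1) c := by
  rw [xi_equiv _ _ _ (diagonal_mul_inv l hl), hc]
  congr 1
  ext a b
  rw [Matrix.mul_diagonal, Matrix.diagonal_mul]
  by_cases h : i = a ∧ j = b
  · obtain ⟨rfl, rfl⟩ := h
    rw [Matrix.single_apply_same, mul_one, hij, inv_mul_cancel₀ (hl j)]
  · rw [Matrix.single_apply, if_neg h]
    ring

/-- vectors supported where the diagonal matrix acts trivially, together with the tangent space of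
the orbit -/
def WW (l : Fin (N + 1) → K) (c : Ix N d → K) : Submodule K (Ix N d → K) :=
  Submodule.span K (Set.range fun p : {p : Ix N d // mu l p = 1} =>
    (Pi.single p.1 1 : Ix N d → K)) ⊔
  Submodule.span K (Set.range fun q : {q : Fin (N + 1) × Fin (N + 1) // l q.1 ≠ l q.2} =>
    xi (Matrix.single q.1.1 q.1.2 1) c)

theorem mem_WW_of_supp (l : Fin (N + 1) → K) (c v : Ix N d → K)
    (hv : ∀ p, mu l p ≠ 1 → v p = 0) : v ∈ WW l c := by
  apply Submodule.mem_sup_left
  have h1 : v = ∑ p, v p • (Pi.single p 1 : Ix N d → K) := by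
    funext q
    rw [Finset.sum_apply, Finset.sum_eq_single q]
    · simp
    · intro b _ hb
      simp [hb.symm]
    · simp
  rw [h1]
  refine Submodule.sum_mem _ fun p _ => ?_
  by_cases hp : mu l p = 1
  · exact Submodule.smul_mem _ _ (Submodule.subset_span ⟨⟨p, hp⟩, rfl⟩)
  · rw [hv p hp, zero_smul]
    exact Submodule.zero_mem _

theorem mem_WW_of_fixed (l : Fin (N + 1) → K) (c v : Ix N d → K)
    (hv : actT (Matrix.diagonal l) v = v) : v ∈ WW l c := by
  apply mem_WW_of_supp
  intro p hp
  have h1 := congrFun hv p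
  rw [actT_diagonal] at h1
  have h2 : (mu l p - 1) * v p = 0 := by rw [sub_mul, one_mul, h1, sub_self]
  exact (mul_eq_zero.mp h2).resolve_left (sub_ne_zero.mpr hp)

theorem xi_mem_WW (l : Fin (N + 1) → K) (hl : ∀ i, l i ≠ 0) {c : Ix N d → K}
    (hc : actT (Matrix.diagonal l) c = c) (Y : Matrix (Fin (N + 1)) (Fin (N + 1)) K) :
    xi Y c ∈ WW l c := by
  have h1 : Y = ∑ i, ∑ j, Y i j • Matrix.single i j (1 : K) := by
    conv_lhs => rw [Matrix.matrix_eq_sum_single Y]
    refine Finset.sum_congr rfl fun i _ => Finset.sum_congr rfl fun j _ => ?_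
    rw [Matrix.smul_single, smul_eq_mul, mul_one]
  have h2 : xi Y c = ∑ i, ∑ j, Y i j • xi (Matrix.single i j (1 : K)) c := by
    change xiL c Y = ∑ i, ∑ j, Y i j • xiL c (Matrix.single i j (1 : K))
    conv_lhs => rw [h1]
    rw [map_sum]
    refine Finset.sum_congr rfl fun i _ => ?_
    rw [map_sum]
    refine Finset.sum_congr rfl fun j _ => ?_
    rw [map_smul]
  rw [h2]
  refine Submodule.sum_mem _ fun i _ => Submodule.sum_mem _ fun j _ => Submodule.smul_mem _ _ ?_
  by_cases hij : l i = l j
  · exact mem_WW_of_fixed l c _ (xi_single_fixed l hl hc hij)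
  · exact Submodule.mem_sup_right (Submodule.subset_span ⟨⟨(i, j), hij⟩, rfl⟩)

theorem finrank_WW (hN : 2 ≤ N) (hd : 2 ≤ d) (l : Fin (N + 1) → K) (hl : ∀ i, l i ≠ 0)
    (hne : ∃ i j, l i ≠ l j) (c : Ix N d → K) :
    Module.finrank K (WW l c) + 2 ≤ Fintype.card (Ix N d) := by
  classical
  have h1 : Module.finrank K (WW l c) ≤ Fintype.card {p : Ix N d // mu l p = 1} +
      Fintype.card {q : Fin (N + 1) × Fin (N + 1) // l q.1 ≠ l q.2} := by
    unfold WW
    refine (Submodule.finrank_add_le_finrank_add_finrank _ _).trans ?_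
    exact add_le_add (finrank_range_le_card _) (finrank_range_le_card _)
  have h2 := comb l hne (le_card_Ex hN hd) (fun e : Ex N d => (∏ j, l j) * ∏ i, l i ^ e.1 i)
  have h3 : Fintype.card {p : Ix N d // mu l p = 1} =
      Fintype.card {p : Fin (N + 1) × Ex N d // l p.1 = (∏ j, l j) * ∏ i, l i ^ p.2.1 i} :=
    Fintype.card_congr (Equiv.subtypeEquivRight fun p => mu_eq_one_iff l hl p)
  rw [← h3] at h2
  exact le_trans (Nat.add_le_add_right h1 2) h2

theorem det_diag_ne (A g : Matrix (Fin (N + 1)) (Fin (N + 1)) K) (l : Fin (N + 1) → K)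
    (hA : A.det ≠ 0) (hg : g.det ≠ 0) (h : A * g = g * Matrix.diagonal l) (i : Fin (N + 1)) :
    l i ≠ 0 := by
  have h1 := congrArg Matrix.det h
  rw [Matrix.det_mul, Matrix.det_mul, Matrix.det_diagonal, mul_comm] at h1
  have h2 : ∏ i, l i ≠ 0 := by
    rw [← mul_left_cancel₀ hg h1]
    exact hA
  exact Finset.prod_ne_zero_iff.mp h2 i (Finset.mem_univ _)

theorem diag_nonconst (A g : Matrix (Fin (N + 1)) (Fin (N + 1)) K) (l : Fin (N + 1) → K)
    (hg : g.det ≠ 0) (h : A * g = g * Matrix.diagonal l) (hns : ∀ a : K, A ≠ a • 1) :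
    ∃ i j, l i ≠ l j := by
  by_contra hcon
  push Not at hcon
  apply hns (l 0)
  have h1 : Matrix.diagonal l = l 0 • (1 : Matrix (Fin (N + 1)) (Fin (N + 1)) K) := by
    rw [Matrix.smul_one_eq_diagonal]
    congr 1
    funext i
    exact hcon i 0
  have hgu := isUnit_iff_ne_zero.mpr hg
  calc A = A * g * g⁻¹ := by rw [mul_assoc, Matrix.mul_nonsing_inv _ hgu, mul_one]
    _ = l 0 • 1 := by
      rw [h, h1, Matrix.mul_smul, mul_one, Matrix.smul_mul, Matrix.mul_nonsing_inv _ hgu]

theorem diag_fix {A g : Matrix (Fin (N + 1)) (Fin (N + 1)) K} {l : Fin (N + 1) → K}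
    (h : A * g = g * Matrix.diagonal l) {c : Ix N d → K} (hAc : actT A c = c) :
    actT (Matrix.diagonal l) (actT g c) = actT g c := by
  rw [actT_actT, ← h, ← actT_actT, hAc]

variable [IsAlgClosed K] [CharZero K]

theorem lemWa (hN : 2 ≤ N) (hd : 2 ≤ d) {c : Ix N d → K} (hc : NZ (tup c))
    (A : Matrix (Fin (N + 1)) (Fin (N + 1)) K) (hA : A.det ≠ 0) (hAc : actT A c = c)
    (hns : ∀ a : K, A ≠ a • 1) (h : ∀ v, ∃ Y, actT A v - v = xi Y c) : False := by
  classical
  obtain ⟨g, l, hg, hgl⟩ := exists_diag hd hc A hA hAc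
  have hl := det_diag_ne A g l hA hg hgl
  have hne := diag_nonconst A g l hg hgl hns
  have hfix := diag_fix hgl hAc
  have hgu := isUnit_iff_ne_zero.mpr hg
  have hW := finrank_WW hN hd l hl hne (actT g c)
  have htop : WW l (actT g c) = ⊤ := by
    rw [eq_top_iff]
    intro v _
    let s : Ix N d → K := fun p => if mu l p = 1 then 0 else v p / (mu l p - 1)
    obtain ⟨Y, hY⟩ := h (actT g⁻¹ s)
    have h1 : actT (Matrix.diagonal l) s - s = xi (g⁻¹ * Y * g) (actT g c) := by
      rw [← xi_equiv Y g g⁻¹ (Matrix.mul_nonsing_inv _ hgu), ← hY]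
      change _ = actL g (actT A (actT g⁻¹ s) - actT g⁻¹ s)
      rw [map_sub]
      change _ = actT g (actT A (actT g⁻¹ s)) - actT g (actT g⁻¹ s)
      rw [actT_actT, actT_actT, actT_actT, Matrix.nonsing_inv_mul _ hgu, actT_one, hgl,
        ← mul_assoc, Matrix.nonsing_inv_mul _ hgu, one_mul]
    have h2 : actT (Matrix.diagonal l) s - s ∈ WW l (actT g c) := by
      rw [h1]
      exact xi_mem_WW l hl hfix _
    have h3 : v - (actT (Matrix.diagonal l) s - s) ∈ WW l (actT g c) := by
      apply mem_WW_of_supp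
      intro p hp
      rw [Pi.sub_apply, Pi.sub_apply, actT_diagonal]
      simp only [s, if_neg hp]
      have : mu l p - 1 ≠ 0 := sub_ne_zero.mpr hp
      field_simp
      ring
    have h4 := Submodule.add_mem _ h3 h2
    rwa [sub_add_cancel] at h4
  rw [htop, finrank_top, Module.finrank_fintype_fun_eq_card] at hW
  omega

theorem lemWb (hN : 2 ≤ N) (hd : 2 ≤ d) {c : Ix N d → K} (hc : NZ (tup c))
    (A : Matrix (Fin (N + 1)) (Fin (N + 1)) K) (hA : A.det ≠ 0) (hAc : actT A c = c)
    (hns : ∀ a : K, A ≠ a • 1) :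
    ∃ W : Submodule K (Ix N d → K), Module.finrank K W + 2 ≤ Fintype.card (Ix N d) ∧
      ∀ φ : K →+* DualNumber K, (∀ a, (φ a).fst = a) → (fun p => (φ (c p)).snd) ∈ W := by
  classical
  obtain ⟨g, l, hg, hgl⟩ := exists_diag hd hc A hA hAc
  have hl := det_diag_ne A g l hA hg hgl
  have hne := diag_nonconst A g l hg hgl hns
  have hfix := diag_fix hgl hAc
  have hgu := isUnit_iff_ne_zero.mpr hg
  have hW := finrank_WW hN hd l hl hne (actT g c)
  refine ⟨(WW l (actT g c)).map (actL g⁻¹), ?_, ?_⟩
  · exact le_trans (Nat.add_le_add_right (Submodule.finrank_map_le _ _) 2) hW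
  · intro φ hφ
    have hform : ∀ a, φ a = algebraMap K (DualNumber K) a +
        DualNumber.eps * algebraMap K (DualNumber K) (φ a).snd := by
      intro a
      apply TrivSqZeroExt.ext
      · rw [fst_form, hφ]
      · rw [snd_form]
    set c' := actT g c with hc'
    have hcc' : c = actT g⁻¹ c' := by
      rw [hc', actT_actT, Matrix.mul_nonsing_inv _ hgu, actT_one]
    let Z : Matrix (Fin (N + 1)) (Fin (N + 1)) K := (g⁻¹.map fun a => (φ a).snd) * g
    let e : Ix N d → K := fun p => (φ (c' p)).snd
    have h1 : g⁻¹.map φ = oneEps (DualNumber.eps : DualNumber K) Z *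
        g⁻¹.map (algebraMap K (DualNumber K)) := by
      unfold oneEps
      rw [add_mul, one_mul, Matrix.smul_mul, ← Matrix.map_mul]
      have h2 : Z * g⁻¹ = g⁻¹.map fun a => (φ a).snd := by
        change (g⁻¹.map fun a => (φ a).snd) * g * g⁻¹ = _
        rw [mul_assoc, Matrix.mul_nonsing_inv _ hgu, mul_one]
      rw [h2]
      ext1 i j
      rw [Matrix.add_apply, Matrix.smul_apply, Matrix.map_apply, Matrix.map_apply,
        Matrix.map_apply, Matrix.map_apply, smul_eq_mul]
      exact hform _
    have h2 : (fun q => φ (c' q)) = fun q => algebraMap K (DualNumber K) (c' q) +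
        DualNumber.eps * algebraMap K (DualNumber K) (e q) := by
      funext q
      exact hform _
    have h3 : (fun p => (φ (c p)).snd) = actT g⁻¹ (xi Z c' + e) := by
      funext p
      have h4 : φ (c p) = algebraMap K (DualNumber K) (actT g⁻¹ c' p) +
          DualNumber.eps * algebraMap K (DualNumber K) (actT g⁻¹ (xi Z c' + e) p) := by
        conv_lhs => rw [hcc']
        rw [map_actT, h1, h2, ← actT_actT]
        have h5 : actT (oneEps (DualNumber.eps : DualNumber K) Z)
            (fun q => algebraMap K (DualNumber K) (c' q) +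
              DualNumber.eps * algebraMap K (DualNumber K) (e q)) =
            (fun q => algebraMap K (DualNumber K) (c' q)) + (DualNumber.eps : DualNumber K) •
              fun q => algebraMap K (DualNumber K) ((xi Z c' + e) q) := by
          funext q
          rw [actT_eps' _ DualNumber.eps_mul_eps]
          rfl
        rw [h5, actT_add, actT_smul, Pi.add_apply, Pi.smul_apply, smul_eq_mul, ← map_actT,
          ← map_actT]
      rw [h4, snd_form]
    rw [h3]
    refine ⟨xi Z c' + e, ?_, rfl⟩
    refine Submodule.add_mem _ (xi_mem_WW l hl hfix Z) ?_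
    apply mem_WW_of_supp
    intro p hp
    have h4 : c' p = 0 := by
      have h5 := congrFun hfix p
      rw [actT_diagonal] at h5
      have h6 : (mu l p - 1) * c' p = 0 := by rw [sub_mul, one_mul, h5, sub_self]
      exact (mul_eq_zero.mp h6).resolve_left (sub_ne_zero.mpr hp)
    change (φ (c' p)).snd = 0
    rw [h4, map_zero]
    rfl

end

end

end Pool.Agent.N141.Sing
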