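import Pool.Agent.N141.Sing.Descend

/-!
If the local ring is regular then the automorphism group is trivial.
-/

open MvPolynomial

namespace Pool.Agent.N141.Sing

open Pool.Agent.Helper819 Pool.Agent.Helper819.Apolar Pool.Agent.Helper819.Dyn

noncomputable section

set_option linter.unusedSectionVars false

/-- generators of the maximal ideal -/
theorem exists_gens {R : Type} [CommRing R] [IsNoetherianRing R] (I : Ideal R) {s : ℕ}
    (hs : I.spanFinrank ≤ s) : ∃ u : Fin s → R, Ideal.span (Set.range u) = I := by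
  classical
  obtain ⟨t, ht, htI⟩ := Submodule.FG.exists_span_finset_card_eq_spanFinrank
    (IsNoetherian.noetherian I)
  have hts : t.card ≤ s := by rw [ht]; exact hs
  refine ⟨fun i => if h : i.1 < t.card then (t.equivFin.symm ⟨i.1, h⟩ : R) else 0, ?_⟩
  apply le_antisymm
  · rw [Ideal.span_le]
    rintro _ ⟨i, rfl⟩
    dsimp only
    split_ifs with h
    · have h1 : (t.equivFin.symm ⟨i.1, h⟩ : R) ∈ Submodule.span R (t : Set R) :=
        Submodule.subset_span (Subtype.property _)
      rw [htI] at h1
      exact h1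
    · exact I.zero_mem
  · rw [← htI]
    refine Submodule.span_le.mpr ?_
    intro x hx
    apply Ideal.subset_span
    obtain ⟨j, hj⟩ := t.equivFin.symm.surjective ⟨x, hx⟩
    refine ⟨⟨j.1, lt_of_lt_of_le j.2 hts⟩, ?_⟩
    dsimp only
    rw [dif_pos j.2]
    change ((t.equivFin.symm j : t) : R) = x
    rw [hj]

section kills

variable {k : Type} [Field k] {N d : ℕ}

theorem kills (f : Ix N d → k) {K : Type} [Field K] [Algebra k K] {c : Ix N d → K}
    (hc : ∀ P : MvPolynomial (Ix N d) k, aeval c P = 0 → eval f P = 0) (v : Ix N d → K) {s : ℕ}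
    (u : Fin s → LL f) (hu : Ideal.span (Set.range u) = IsLocalRing.maximalIdeal (LL f))
    (P : Fin s → MvPolynomial (Ix N d) k) (Q : MvPolynomial (Ix N d) k) (hQf : eval f Q ≠ 0)
    (hPQ : ∀ i, (u i : BB f) * algebraMap _ _ Q = algebraMap _ _ (P i))
    (hv : ∀ i, aeval c Q * (∑ p, v p * aeval c (pderiv p (P i))) =
      aeval c (P i) * (∑ p, v p * aeval c (pderiv p Q)))
    (P' Q' : MvPolynomial (Ix N d) k) (hQf' : eval f Q' ≠ 0) (x : LL f)
    (hx : (x : BB f) * algebraMap _ _ Q' = algebraMap _ _ P') :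
    aeval c Q' * (∑ p, v p * aeval c (pderiv p P')) =
      aeval c P' * (∑ p, v p * aeval c (pderiv p Q')) := by
  classical
  let ψ0 : MvPolynomial (Ix N d) k →+* DualNumber K :=
    (aeval (fun p => algebraMap K (DualNumber K) (c p) +
      DualNumber.eps * algebraMap K (DualNumber K) (v p)) :
        MvPolynomial (Ix N d) k →ₐ[k] DualNumber K).toRingHom
  have hψ0 : ∀ P : MvPolynomial (Ix N d) k, ψ0 P = algebraMap K (DualNumber K) (aeval c P) +
      DualNumber.eps * algebraMap K (DualNumber K) (∑ p, v p * aeval c (pderiv p P)) :=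
    fun P => aeval_dual c v P
  have hunit : ∀ y : (nn f).primeCompl, IsUnit (ψ0 y) := by
    rintro ⟨y, hy⟩
    rw [TrivSqZeroExt.isUnit_iff_isUnit_fst, hψ0, fst_form, isUnit_iff_ne_zero]
    intro h0
    exact hy (hc y h0)
  let ψ : BB f →+* DualNumber K := IsLocalization.lift hunit
  have hψ : ∀ P : MvPolynomial (Ix N d) k, ψ (algebraMap _ _ P) = algebraMap K (DualNumber K) (aeval c P) +
      DualNumber.eps * algebraMap K (DualNumber K) (∑ p, v p * aeval c (pderiv p P)) := by
    intro P
    rw [← hψ0]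
    exact IsLocalization.lift_eq hunit P
  let φ : BB f →+* K := (TrivSqZeroExt.fstHom K K K).toRingHom.comp ψ
  have hφ : ∀ x, φ x = (ψ x).fst := fun x => rfl
  have hφP : ∀ P : MvPolynomial (Ix N d) k, φ (algebraMap _ _ P) = aeval c P := by
    intro P
    rw [hφ, hψ, fst_form]
  let δ : BB f → K := fun x => (ψ x).snd
  have hδP : ∀ P : MvPolynomial (Ix N d) k, δ (algebraMap _ _ P) = ∑ p, v p * aeval c (pderiv p P) := by
    intro P
    change (ψ (algebraMap _ _ P)).snd = _
    rw [hψ, snd_form]
  have hδadd : ∀ x y, δ (x + y) = δ x + δ y := by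
    intro x y
    change (ψ (x + y)).snd = _
    rw [map_add]
    rfl
  have hδ0 : δ 0 = 0 := by
    change (ψ 0).snd = _
    rw [map_zero]
    rfl
  have hδsum : ∀ (y : Fin s → BB f), δ (∑ i, y i) = ∑ i, δ (y i) := by
    intro y
    have : ∀ t : Finset (Fin s), δ (∑ i ∈ t, y i) = ∑ i ∈ t, δ (y i) := by
      intro t
      induction t using Finset.induction_on with
      | empty => simpa using hδ0
      | insert a t ha ih => rw [Finset.sum_insert ha, Finset.sum_insert ha, hδadd, ih]
    exact this _
  have hδmul : ∀ x y, δ (x * y) = φ x * δ y + δ x * φ y := by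
    intro x y
    change (ψ (x * y)).snd = _
    rw [map_mul, DualNumber.snd_mul]
    rfl
  have hδu : ∀ i, δ (u i : BB f) = 0 := by
    intro i
    have h1 := congrArg δ (hPQ i)
    have h2 := congrArg φ (hPQ i)
    rw [hδmul, hφP, hδP, hδP] at h1
    rw [map_mul, hφP, hφP] at h2
    have hQc : aeval c Q ≠ 0 := fun h => hQf (hc Q h)
    have h3 : δ (u i : BB f) * (aeval c Q * aeval c Q) = 0 := by
      linear_combination (aeval c Q) * h1 + hv i - (∑ p, v p * aeval c (pderiv p Q)) * h2
    exact (mul_eq_zero.mp h3).resolve_right (mul_ne_zero hQc hQc)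
  -- Nakayama
  let _ : Module (BB f) K := Module.compHom K φ
  have hsmul : ∀ (b : BB f) (y : K), b • y = φ b * y := fun b y => rfl
  let W : Submodule (BB f) K := Submodule.span (BB f) (Set.range fun x : LL f => δ (x : BB f))
  have hWfg : W.FG := by
    have h1 : IsNoetherian (BB f) (Submodule.span (BB f) (Set.range v)) :=
      isNoetherian_span_of_finite _ (Set.finite_range v)
    apply isNoetherian_submodule.mp h1
    refine Submodule.span_le.mpr ?_
    rintro _ ⟨x, rfl⟩
    change δ (x : BB f) ∈ Submodule.span (BB f) (Set.range v)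
    have hpoly : ∀ P : MvPolynomial (Ix N d) k, δ (algebraMap _ _ P) ∈
        Submodule.span (BB f) (Set.range v) := by
      intro P
      rw [hδP]
      refine Submodule.sum_mem _ fun p _ => ?_
      have h2 : v p * aeval c (pderiv p P) = (algebraMap _ (BB f) (pderiv p P)) • v p := by
        rw [hsmul, hφP, mul_comm]
      rw [h2]
      exact Submodule.smul_mem _ _ (Submodule.subset_span ⟨p, rfl⟩)
    obtain ⟨P1, Q1, hQ1, h⟩ := exists_rep f (x : BB f)
    obtain ⟨i1, hi1⟩ := (alg_isUnit f hQ1).exists_right_inv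
    have h2 := congrArg δ h
    rw [hδmul] at h2
    have h3 : φ (algebraMap _ _ Q1) * φ i1 = 1 := by
      rw [← map_mul, hi1, map_one]
    have h4 : δ (x : BB f) = i1 • (δ (algebraMap _ _ P1)) -
        (i1 * (x : BB f)) • δ (algebraMap _ _ Q1) := by
      rw [hsmul, hsmul, map_mul]
      linear_combination (-(δ (x : BB f))) * h3 + φ i1 * h2
    rw [h4]
    exact Submodule.sub_mem _ (Submodule.smul_mem _ _ (hpoly _)) (Submodule.smul_mem _ _ (hpoly _))
  have hWle : W ≤ IsLocalRing.maximalIdeal (BB f) • W := by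
    refine Submodule.span_le.mpr ?_
    rintro _ ⟨x, rfl⟩
    change δ (x : BB f) ∈ IsLocalRing.maximalIdeal (BB f) • W
    have h1 : x - algebraMap k (LL f) (evL f x) ∈ IsLocalRing.maximalIdeal (LL f) := by
      rw [mem_maxL_iff, (RingHom.map_sub (evL f) x _ : _), sub_eq_zero]
      have h2 : ((algebraMap k (LL f) (evL f x) : LL f) : BB f) =
          algebraMap (MvPolynomial (Ix N d) k) (BB f) (C (evL f x)) := by
        exact (IsScalarTower.algebraMap_apply k (MvPolynomial (Ix N d) k) (BB f) _)
      rw [evL_apply f (algebraMap k (LL f) (evL f x)), h2, evB_alg, eval_C]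
    rw [← hu, Ideal.span, Submodule.mem_span_range_iff_exists_fun] at h1
    obtain ⟨a, ha⟩ := h1
    have h2 : (x : BB f) = algebraMap (MvPolynomial (Ix N d) k) (BB f) (C (evL f x)) + ∑ i, (a i : BB f) * (u i : BB f) := by
      have h3 : ((∑ i, a i • u i : LL f) : BB f) =
          ((x - algebraMap k (LL f) (evL f x) : LL f) : BB f) := by rw [ha]
      rw [AddSubmonoidClass.coe_finsetSum] at h3
      have h4 : ((algebraMap k (LL f) (evL f x) : LL f) : BB f) =
          algebraMap (MvPolynomial (Ix N d) k) (BB f) (C (evL f x)) := by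
        exact (IsScalarTower.algebraMap_apply k (MvPolynomial (Ix N d) k) (BB f) _)
      have h5 : ((x - algebraMap k (LL f) (evL f x) : LL f) : BB f) =
          (x : BB f) - ((algebraMap k (LL f) (evL f x) : LL f) : BB f) := rfl
      rw [h5, h4] at h3
      have h6 : ∑ i, (a i : BB f) * (u i : BB f) = ∑ i, ((a i • u i : LL f) : BB f) :=
        Finset.sum_congr rfl fun i _ => rfl
      rw [h6, h3]
      ring
    have h3 : δ (x : BB f) = ∑ i, (u i : BB f) • δ (a i : BB f) := by
      rw [h2, hδadd, hδP, hδsum]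
      have h4 : ∑ p, v p * aeval c (pderiv p (C (evL f x) : MvPolynomial (Ix N d) k)) = 0 := by
        apply Finset.sum_eq_zero
        intro p _
        rw [pderiv_C, map_zero, mul_zero]
      rw [h4, zero_add]
      refine Finset.sum_congr rfl fun i _ => ?_
      rw [hδmul, hδu, mul_zero, zero_add, hsmul, mul_comm]
    rw [h3]
    refine Submodule.sum_mem _ fun i _ => ?_
    apply Submodule.smul_mem_smul
    · rw [mem_max_iff]
      have h4 : u i ∈ IsLocalRing.maximalIdeal (LL f) := by
        rw [← hu]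
        exact Ideal.subset_span ⟨i, rfl⟩
      rw [mem_maxL_iff] at h4
      exact h4
    · exact Submodule.subset_span ⟨a i, rfl⟩
  have hW : W = ⊥ := Submodule.eq_bot_of_le_smul_of_le_jacobson_bot
    (IsLocalRing.maximalIdeal (BB f)) W hWfg hWle (IsLocalRing.maximalIdeal_le_jacobson _)
  have hδx : δ (x : BB f) = 0 := by
    have h1 : δ (x : BB f) ∈ W := Submodule.subset_span ⟨x, rfl⟩
    rw [hW] at h1
    exact h1
  have h1 := congrArg δ hx
  have h2 := congrArg φ hx
  rw [hδmul, hφP, hδP, hδP, hδx, zero_mul, add_zero] at h1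
  rw [map_mul, hφP, hφP] at h2
  rw [← h1, ← h2]
  ring

end kills

end

end Pool.Agent.N141.Sing
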