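import Pool.Agent.N141.Sing.Hard

/-!
If the local ring is regular then the automorphism group is trivial.
-/

open MvPolynomial

namespace Pool.Agent.N141.Sing

open Pool.Agent.Helper819 Pool.Agent.Helper819.Apolar Pool.Agent.Helper819.Dyn

noncomputable section

set_option linter.unusedSectionVars false

section dd

variable {k : Type} [Field k] {N d : ℕ}

/-- the directional derivative as a linear map in the vector -/
def ddl (P : MvPolynomial (Ix N d) k) (c : Ix N d → k) : (Ix N d → k) →ₗ[k] k :=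
  Fintype.linearCombination k (fun p => eval c (pderiv p P))

theorem ddl_apply (P : MvPolynomial (Ix N d) k) (c v : Ix N d → k) : ddl P c v = dd P c v := by
  unfold ddl dd
  exact Fintype.linearCombination_apply k _ v

theorem dd_map {K : Type} [Field K] [Algebra k K] (q : MvPolynomial (Ix N d) k)
    (c v : Ix N d → K) :
    dd (map (algebraMap k K) q) c v = ∑ p, v p * aeval c (pderiv p q) := by
  unfold dd
  refine Finset.sum_congr rfl fun p _ => ?_
  rw [pderiv_map, eval_map, aeval_def]

/-- the Jacobian matrix of the fractions `P i / Q` along the vectors `e j` -/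
def JM {s : ℕ} (P : Fin s → MvPolynomial (Ix N d) k) (Q : MvPolynomial (Ix N d) k)
    (e : Fin s → Ix N d → k) : Matrix (Fin s) (Fin s) (MvPolynomial (Ix N d) k) :=
  Matrix.of fun i j => Q * (∑ p, C (e j p) * pderiv p (P i)) -
    P i * (∑ p, C (e j p) * pderiv p Q)

theorem JM_mulVec {K : Type} [Field K] [Algebra k K] {s : ℕ}
    (P : Fin s → MvPolynomial (Ix N d) k) (Q : MvPolynomial (Ix N d) k)
    (e : Fin s → Ix N d → k) (c : Ix N d → K) (y : Fin s → K) (i : Fin s) :
    (((aeval c : MvPolynomial (Ix N d) k →ₐ[k] K).toRingHom.mapMatrix (JM P Q e)).mulVec y) i =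
      aeval c Q * (∑ p, (∑ j, y j • fun p => algebraMap k K (e j p)) p * aeval c (pderiv p (P i))) -
      aeval c (P i) *
        (∑ p, (∑ j, y j • fun p => algebraMap k K (e j p)) p * aeval c (pderiv p Q)) := by
  have h1 : (((aeval c : MvPolynomial (Ix N d) k →ₐ[k] K).toRingHom.mapMatrix
      (JM P Q e)).mulVec y) i = ∑ j, aeval c (JM P Q e i j) * y j := rfl
  have h2 : ∀ (R : MvPolynomial (Ix N d) k), ∑ p, (∑ j, y j • fun p => algebraMap k K (e j p)) p *
      aeval c (pderiv p R) = ∑ j, y j * aeval c (∑ p, C (e j p) * pderiv p R) := by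
    intro R
    simp only [Finset.sum_apply, Pi.smul_apply, smul_eq_mul, Finset.sum_mul]
    rw [Finset.sum_comm]
    refine Finset.sum_congr rfl fun j _ => ?_
    rw [map_sum, Finset.mul_sum]
    refine Finset.sum_congr rfl fun p _ => ?_
    rw [map_mul, algHom_C, mul_assoc]
  rw [h1, h2, h2, Finset.mul_sum, Finset.mul_sum, ← Finset.sum_sub_distrib]
  refine Finset.sum_congr rfl fun j _ => ?_
  unfold JM
  rw [Matrix.of_apply, map_sub, map_mul, map_mul]
  ring

end dd

variable {k : Type} [Field k] [IsAlgClosed k] [CharZero k] {N d : ℕ}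

/-- the Jacobian vanishes at a map with a nontrivial automorphism -/
theorem jac_zero (hN : 2 ≤ N) (hd : 2 ≤ d) {f : Ix N d → k} (hf : NZ (tup f)) (𝓢 : Slice f)
    {w : ℕ} (P : Fin 𝓢.s → MvPolynomial (Ix N d) k) (Q : MvPolynomial (Ix N d) k)
    (hP : ∀ i, IsSemi w (P i)) (hQ : IsSemi w Q) (hQf : eval f Q ≠ 0)
    (hPf : ∀ i, eval f (P i) = 0)
    (A : Matrix (Fin (N + 1)) (Fin (N + 1)) k) (hA : A.det ≠ 0) (hAf : actT A f = f)
    (hns : ∀ a : k, A ≠ a • 1) : eval f (JM P Q 𝓢.e).det = 0 := by
  have hinf : Infinite k := inferInstance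
  by_contra hne
  apply lemWa hN hd hf A hA hAf hns
  intro v
  obtain ⟨Y, hY⟩ := 𝓢.decomp (actT A v - v)
  set b : Fin 𝓢.s → k := fun j => 𝓢.ell j (actT A v - v) with hb
  have hdetw : A.det ^ w = 1 := by
    have h1 := hQ A f
    rw [hAf] at h1
    have h2 : (A.det ^ w - 1) * eval f Q = 0 := by rw [sub_mul, one_mul, ← h1, sub_self]
    exact sub_eq_zero.mp ((mul_eq_zero.mp h2).resolve_right hQf)
  have hb0 : b = 0 := by
    apply Matrix.eq_zero_of_mulVec_eq_zero (M := (aeval f :
      MvPolynomial (Ix N d) k →ₐ[k] k).toRingHom.mapMatrix (JM P Q 𝓢.e))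
    · rw [← RingHom.map_det]
      change aeval f (JM P Q 𝓢.e).det ≠ 0
      rwa [Gr.aeval_eq_eval_self]
    · funext i
      rw [JM_mulVec]
      simp only [Gr.aeval_eq_eval_self, Algebra.algebraMap_self, RingHom.id_apply, hPf, zero_mul,
        sub_zero, Pi.zero_apply]
      have h1 : (∑ j, b j • fun p => 𝓢.e j p) = actT A v - v - xi Y f := by
        rw [hY]
        change ∑ j, b j • 𝓢.e j = xi Y f + ∑ j, b j • 𝓢.e j - xi Y f
        rw [add_sub_cancel_left]
      rw [h1]
      have h2 : dd (P i) f (actT A v - v - xi Y f) = 0 := by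
        rw [← ddl_apply, map_sub, map_sub, ddl_apply, ddl_apply, ddl_apply, semi_lie (hP i), hPf]
        have h3 := semi_equiv (hP i) A f v
        rw [hAf, hdetw, one_mul] at h3
        rw [h3]
        ring
      have h3 : ∑ p, (actT A v - v - xi Y f) p * eval f (pderiv p (P i)) = 0 := h2
      rw [h3, mul_zero]
  refine ⟨Y, ?_⟩
  rw [hY]
  have h1 : ∀ j, 𝓢.ell j (actT A v - v) = 0 := fun j => congrFun hb0 j
  simp only [h1, zero_smul, Finset.sum_const_zero, add_zero]

/-- A point at which a vector not tangent to the orbit kills all invariants has a nontrivial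
automorphism. -/
theorem exists_aut (hd : 2 ≤ d) {f : Ix N d → k} {r : ℕ} {D : MvPolynomial (Ix N d) k}
    (hDs : IsSemi r D) (hDf : eval f D ≠ 0)
    {K : Type} [Field K] [Algebra k K] [IsAlgClosed K] [CharZero K]
    (hDK : ∀ c : Ix N d → K, aeval c D ≠ 0 → NZ (tup c))
    (c : Ix N d → K) (hDc : aeval c D ≠ 0) (v : Ix N d → K)
    (hvxi : ∀ Y, v ≠ xi Y c)
    (hkill : ∀ (w : ℕ) (P' Q' : MvPolynomial (Ix N d) k), IsSemi w P' → IsSemi w Q' →
      eval f Q' ≠ 0 → aeval c Q' * (∑ p, v p * aeval c (pderiv p P')) =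
        aeval c P' * (∑ p, v p * aeval c (pderiv p Q'))) :
    ∃ A' : Matrix (Fin (N + 1)) (Fin (N + 1)) K, A'.det ≠ 0 ∧ actT A' c = c ∧
      ∀ a : K, A' ≠ a • 1 := by
  have hinf : Infinite k := inferInstance
  by_contra hcon
  push Not at hcon
  have hDKe : ∀ c' : Ix N d → K, eval c' (map (algebraMap k K) D) = aeval c' D := by
    intro c'
    rw [eval_map, aeval_def]
  have hDKs : IsSemi r (map (algebraMap k K) D) := by
    intro B c'
    rw [hDKe, hDKe]
    exact aeval_act hDs B c'
  have hvr : v ∉ LinearMap.range (xiL c) := by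
    rintro ⟨Y, hY⟩
    exact hvxi Y hY.symm
  obtain ⟨g, hg1, hg2⟩ := Submodule.exists_dual_map_eq_bot_of_notMem hvr inferInstance
  have hgx : ∀ Y, g (xi Y c) = 0 := by
    intro Y
    have h1 : g (xi Y c) ∈ (LinearMap.range (xiL c)).map g := ⟨xi Y c, ⟨Y, rfl⟩, rfl⟩
    rw [hg2] at h1
    exact h1
  have hgs : ∀ x : Ix N d → K, g x = ∑ p, g (Pi.single p 1) * x p := by
    intro x
    conv_lhs => rw [← LinearMap.sum_single_apply (fun _ => K) x]
    rw [map_sum]
    refine Finset.sum_congr rfl fun p _ => ?_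
    have : (Pi.single p (x p) : Ix N d → K) = x p • Pi.single p 1 := by
      rw [← Pi.single_smul, smul_eq_mul, mul_one]
    rw [this, map_smul, smul_eq_mul, mul_comm]
  obtain ⟨m, q, hq, hqc, hqd⟩ := lemA hd hDKs (fun c' hc' => hDK c' (by rwa [hDKe] at hc'))
    (f := c) (by rw [hDKe]; exact hDc) (fun B hB hBc => hcon B hB hBc)
    (fun p => g (Pi.single p 1)) (fun Y => by rw [← hgs]; exact hgx Y)
  have hDm : IsSemi (m * r) (D ^ m) := by
    rw [mul_comm]
    exact hDs.pow m
  have hDmf : eval f (D ^ m) ≠ 0 := by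
    rw [map_pow]
    exact pow_ne_zero _ hDf
  let Θ : MvPolynomial (Ix N d) K →ₗ[K] K :=
    { toFun := fun q => aeval c (D ^ m) * dd q c v -
        eval c q * (∑ p, v p * aeval c (pderiv p (D ^ m)))
      map_add' := by
        intro x z
        have : dd (x + z) c v = dd x c v + dd z c v := by
          unfold dd
          rw [← Finset.sum_add_distrib]
          refine Finset.sum_congr rfl fun p _ => ?_
          rw [map_add, map_add, mul_add]
        rw [this, map_add]
        ring
      map_smul' := by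
        intro a x
        have : dd (a • x) c v = a * dd x c v := by
          unfold dd
          rw [Finset.mul_sum]
          refine Finset.sum_congr rfl fun p _ => ?_
          rw [Derivation.map_smul, smul_eval]
          ring
        rw [this, smul_eval, RingHom.id_apply, smul_eq_mul]
        ring }
  have hΘ : Θ q = 0 := by
    have h1 : Submodule.span K {P | ∃ q' : MvPolynomial (Ix N d) k, IsSemi (m * r) q' ∧
        P = map (algebraMap k K) q'} ≤ LinearMap.ker Θ := by
      rw [Submodule.span_le]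
      rintro _ ⟨q', hq', rfl⟩
      rw [SetLike.mem_coe, LinearMap.mem_ker]
      change aeval c (D ^ m) * dd (map (algebraMap k K) q') c v -
        eval c (map (algebraMap k K) q') * (∑ p, v p * aeval c (pderiv p (D ^ m))) = 0
      have h2 := hkill (m * r) q' (D ^ m) hq' hDm hDmf
      rw [dd_map, eval_map]
      rw [aeval_def c q'] at h2
      rw [h2, sub_self]
    exact LinearMap.mem_ker.mp (h1 (semi_descend (k := k) hq))
  have hΘ' : aeval c (D ^ m) * dd q c v -
        eval c q * (∑ p, v p * aeval c (pderiv p (D ^ m))) = 0 := hΘ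
  rw [hqc, zero_mul, sub_zero, hqd, ← hgs, hDKe, map_pow] at hΘ'
  have h1 : aeval c D ^ m ≠ 0 := pow_ne_zero _ hDc
  exact mul_ne_zero h1 (mul_ne_zero h1 hg1) hΘ'

end

end Pool.Agent.N141.Sing
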