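import Pool.Agent.N141.Sing.Hard2

/-!
If the local ring is regular then the automorphism group is trivial.
-/

open MvPolynomial

namespace Pool.Agent.N141.Sing

open Pool.Agent.Helper819 Pool.Agent.Helper819.Apolar Pool.Agent.Helper819.Dyn

noncomputable section

set_option linter.unusedSectionVars false

theorem exists_gens' {R : Type} [CommRing R] [IsLocalRing R] (h : IsRegularLocalRing R) {s : ℕ}
    (hdim : ringKrullDim R ≤ s) :
    ∃ u : Fin s → R, Ideal.span (Set.range u) = IsLocalRing.maximalIdeal R := by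
  have h1 := h.spanFinrank_maximalIdeal
  rw [← h1] at hdim
  have hrank : (IsLocalRing.maximalIdeal R).spanFinrank ≤ s := by exact_mod_cast hdim
  have : IsNoetherianRing R := h.toIsNoetherian
  exact exists_gens (IsLocalRing.maximalIdeal R) hrank

variable {k : Type} [Field k] [IsAlgClosed k] [CharZero k] {N d : ℕ}

theorem hard_gens {f : Ix N d → k} (𝓢 : Slice f) (hreg : IsRegularLocalRing (LL f)) :
    ∃ u : Fin 𝓢.s → LL f, Ideal.span (Set.range u) = IsLocalRing.maximalIdeal (LL f) :=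
  exists_gens' hreg (dim_le 𝓢)

/-- If the local ring is regular then all automorphisms are trivial. -/
theorem hard (hN : 2 ≤ N) (hd : 2 ≤ d) {f : Ix N d → k} (hf : NZ (tup f))
    (hreg : IsRegularLocalRing (LL f)) (A : Matrix (Fin (N + 1)) (Fin (N + 1)) k)
    (hA : A.det ≠ 0) (hAf : actT A f = f) : ∃ a : k, A = a • 1 := by
  have hinf : Infinite k := inferInstance
  by_contra hns
  push Not at hns
  obtain ⟨D, r, hDs, hDiff, hDK⟩ := exists_D (k := k) (N := N) (d := d) (by omega)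
  obtain ⟨𝓢⟩ := exists_slice hd hf
  have hDf : eval f D ≠ 0 := (hDiff f).mpr hf
  obtain ⟨u, hu⟩ := hard_gens 𝓢 hreg
  obtain ⟨w, P, Q, hP, hQ, hQf, hPQ⟩ := common_den f u
  have hPf : ∀ i, eval f (P i) = 0 := by
    intro i
    rw [← evB_eq_zero_iff f hQf (hPQ i)]
    have h1 : u i ∈ IsLocalRing.maximalIdeal (LL f) := by
      rw [← hu]
      exact Ideal.subset_span ⟨i, rfl⟩
    exact (mem_maxL_iff f _).mp h1
  have ha := jac_zero hN hd hf 𝓢 P Q hP hQ hQf hPf A hA hAf hns
  have hne : Nonempty (Ix N d) := by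
    rw [← Fintype.card_pos_iff, Fintype.card_prod]
    have := le_card_Ex hN hd
    rw [Fintype.card_fin]
    exact Nat.mul_pos (Nat.succ_pos N) (by omega)
  obtain ⟨K, i1, i2, i3, i4, c, hca, hc, hWK⟩ := exists_K f (JM P Q 𝓢.e).det ha
  have hDc : aeval c D ≠ 0 := fun h => hDf (hc D h)
  have hNZc : NZ (tup c) := hDK K c hDc
  have hdisc : aeval c 𝓢.disc ≠ 0 := fun h => 𝓢.disc_ne (hc _ h)
  -- the vector
  obtain ⟨y, hy0, hy⟩ : ∃ y : Fin 𝓢.s → K, y ≠ 0 ∧ ((aeval c :
      MvPolynomial (Ix N d) k →ₐ[k] K).toRingHom.mapMatrix (JM P Q 𝓢.e)).mulVec y = 0 := by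
    rw [Matrix.exists_mulVec_eq_zero_iff, ← RingHom.map_det]
    exact hca
  have hkill := kills f hc (∑ j, y j • fun p => algebraMap k K (𝓢.e j p)) u hu P Q hQf hPQ (by
    intro i
    have h1 := congrFun hy i
    rw [JM_mulVec, Pi.zero_apply, sub_eq_zero] at h1
    exact h1)
  obtain ⟨A', hA', hA'c, hA'ns⟩ := exists_aut hd hDs hDf (hDK K) c hDc
    (∑ j, y j • fun p => algebraMap k K (𝓢.e j p)) (by
      intro Y h
      obtain ⟨_, h2⟩ := 𝓢.inj_of_disc hdisc (-Y) y (by
        rw [h]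
        have h3 : xi (-Y) c = -xi Y c := map_neg (xiL c) Y
        rw [h3, neg_add_cancel])
      exact hy0 h2) (by
      intro w' P' Q' hP' hQ' hQf'
      exact hkill P' Q' hQf' (mkL f w' P' Q' hP' hQ' hQf') (mkL_spec f _ _ _ _ _ _))
  obtain ⟨W, hW1, hW2⟩ := lemWb hN hd hNZc A' hA' hA'c hA'ns
  have h1 := hWK W hW2
  omega

end

end Pool.Agent.N141.Sing
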