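import Pool.Agent.N141.Sing.Slice

/-!
Generic points of hypersurfaces through a given point.
-/

open MvPolynomial

namespace Pool.Agent.N141.Sing

open Pool.Agent.Helper819 Pool.Agent.Helper819.Apolar Pool.Agent.Helper819.Dyn

noncomputable section

set_option linter.unusedSectionVars false

section

variable {k : Type} [Field k] {σ : Type}

/-- a polynomial vanishing at a point has a prime factor vanishing there -/
theorem exists_prime_factor [Nonempty σ] (f : σ → k) (a : MvPolynomial σ k)
    (ha : eval f a = 0) : ∃ h : MvPolynomial σ k, Prime h ∧ eval f h = 0 ∧ h ∣ a := by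
  classical
  by_cases h0 : a = 0
  · have hne : nn f ≠ ⊥ := by
      intro hbot
      obtain ⟨p⟩ := ‹Nonempty σ›
      have h1 : (X p - C (f p) : MvPolynomial σ k) ∈ nn f := by
        rw [mem_nn, map_sub, eval_X, eval_C, sub_self]
      rw [hbot, Ideal.mem_bot] at h1
      have h2 := congrArg (pderiv p) h1
      rw [map_sub, pderiv_X_self, pderiv_C, sub_zero, map_zero] at h2
      exact one_ne_zero h2
    obtain ⟨h, hh, hp⟩ := Ideal.IsPrime.exists_mem_prime_of_ne_bot
      (inferInstance : (nn f).IsPrime) hne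
    exact ⟨h, hp, hh, by rw [h0]; exact dvd_zero h⟩
  · obtain ⟨s, hs, hsa⟩ := UniqueFactorizationMonoid.exists_prime_factors a h0
    have h1 : eval f s.prod = 0 := by
      obtain ⟨u, hu⟩ := hsa.symm
      rw [← hu, map_mul, ha, zero_mul]
    rw [map_multiset_prod, Multiset.prod_eq_zero_iff, Multiset.mem_map] at h1
    obtain ⟨h, hh, hf⟩ := h1
    exact ⟨h, hs h hh, hf, (Multiset.dvd_prod hh).trans hsa.dvd⟩

theorem exists_point_hyp [CharZero k] [Fintype σ] (h : MvPolynomial σ k) (hp : Prime h) :
    ∃ (K : Type) (_ : Field K) (_ : Algebra k K) (_ : IsAlgClosed K) (_ : CharZero K)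
      (c : σ → K), (∀ P : MvPolynomial σ k, aeval c P = 0 ↔ h ∣ P) ∧
      ∀ v : σ → K, ∑ p, v p * aeval c (pderiv p h) = 0 →
        ∃ φ : K →+* DualNumber K, (∀ a, (φ a).fst = a) ∧ ∀ p, (φ (c p)).snd = v p := by
  classical
  have hprime : (Ideal.span {h} : Ideal (MvPolynomial σ k)).IsPrime :=
    (Ideal.span_singleton_prime hp.ne_zero).mpr hp
  let R1 := MvPolynomial σ k ⧸ (Ideal.span {h} : Ideal (MvPolynomial σ k))
  let L1 := FractionRing R1
  let K := AlgebraicClosure L1
  have hchar : CharZero L1 := by
    have : Function.Injective (algebraMap k L1) := (algebraMap k L1).injective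
    exact charZero_of_injective_algebraMap this
  have hcharK : CharZero K := charZero_of_injective_algebraMap (algebraMap L1 K).injective
  let ι : R1 →ₐ[k] K := (IsScalarTower.toAlgHom k L1 K).comp (IsScalarTower.toAlgHom k R1 L1)
  have hι : Function.Injective ι := by
    change Function.Injective (algebraMap L1 K ∘ algebraMap R1 L1)
    exact (algebraMap L1 K).injective.comp (IsFractionRing.injective R1 L1)
  let mk : MvPolynomial σ k →ₐ[k] R1 := Ideal.Quotient.mkₐ k _
  have hmk : ∀ P, mk P = 0 ↔ h ∣ P := by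
    intro P
    change Ideal.Quotient.mk _ P = 0 ↔ _
    rw [Ideal.Quotient.eq_zero_iff_mem, Ideal.mem_span_singleton]
  let c : σ → K := fun p => ι (mk (X p))
  have hc : ∀ P : MvPolynomial σ k, aeval c P = ι (mk P) := by
    intro P
    have : aeval c = ι.comp mk := by
      apply algHom_ext
      intro p
      rw [aeval_X]
      rfl
    rw [this]
    rfl
  refine ⟨K, inferInstance, inferInstance, inferInstance, hcharK, c, ?_, ?_⟩
  · intro P
    rw [hc, map_eq_zero_iff _ hι, hmk]
  · intro v hv
    let ψ : MvPolynomial σ k →ₐ[k] DualNumber K := aeval (fun p => algebraMap K (DualNumber K) (c p) +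
      DualNumber.eps * algebraMap K (DualNumber K) (v p))
    have hψ : ∀ P, ψ P = algebraMap K (DualNumber K) (aeval c P) +
        DualNumber.eps * algebraMap K (DualNumber K) (∑ p, v p * aeval c (pderiv p P)) :=
      fun P => aeval_dual c v P
    have hψh : ψ h = 0 := by
      rw [hψ, hv, (hc h), (hmk h).mpr dvd_rfl, map_zero, map_zero, mul_zero, add_zero]
    have hker : ∀ a ∈ (Ideal.span {h} : Ideal (MvPolynomial σ k)), ψ a = 0 := by
      intro a ha
      obtain ⟨b, rfl⟩ := Ideal.mem_span_singleton.mp ha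
      rw [map_mul, hψh, zero_mul]
    let g0 : R1 →+* DualNumber K := Ideal.Quotient.lift _ ψ.toRingHom hker
    have hg0 : ∀ P, g0 (mk P) = ψ P := fun P => Ideal.Quotient.lift_mk _ _ _
    have hg0f : ∀ x : R1, (g0 x).fst = ι x := by
      intro x
      obtain ⟨P, rfl⟩ := Ideal.Quotient.mk_surjective x
      change (g0 (mk P)).fst = ι (mk P)
      rw [hg0, hψ, fst_form, hc]
    have hunit : ∀ y : nonZeroDivisors R1, IsUnit (g0 y) := by
      rintro ⟨y, hy⟩
      rw [TrivSqZeroExt.isUnit_iff_isUnit_fst, hg0f, isUnit_iff_ne_zero, Ne,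
        map_eq_zero_iff _ hι]
      exact nonZeroDivisors.ne_zero hy
    let g : L1 →+* DualNumber K := IsLocalization.lift (M := nonZeroDivisors R1) hunit
    have hg : ∀ a : R1, g (algebraMap R1 L1 a) = g0 a := fun a => IsLocalization.lift_eq hunit a
    have hgf : ∀ a, (g a).fst = algebraMap L1 K a := by
      have h1 : (TrivSqZeroExt.fstHom K K K).toRingHom.comp g = algebraMap L1 K := by
        apply IsLocalization.ringHom_ext (nonZeroDivisors R1)
        refine RingHom.ext fun a => ?_
        change (g (algebraMap R1 L1 a)).fst = _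
        rw [hg, hg0f]
        rfl
      intro a
      exact congrFun (congrArg DFunLike.coe h1) a
    have hsep : Algebra.IsSeparable L1 K := inferInstance
    have het : Algebra.FormallyEtale L1 K := Algebra.FormallyEtale.of_isSeparable L1 K
    obtain ⟨φ, h1, h2⟩ := ext_of_smooth g hgf
    refine ⟨φ, h1, fun p => ?_⟩
    have h3 : c p = algebraMap L1 K (algebraMap R1 L1 (mk (X p))) := rfl
    have h4 : ψ (X p) = algebraMap K (DualNumber K) (c p) +
      DualNumber.eps * algebraMap K (DualNumber K) (v p) := aeval_X _ _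
    rw [h3, h2, hg, hg0, h4, snd_form]

/-- generic point of a hypersurface through `f` on which `a` vanishes -/
theorem exists_K [CharZero k] [Fintype σ] [Nonempty σ] (f : σ → k) (a : MvPolynomial σ k)
    (ha : eval f a = 0) :
    ∃ (K : Type) (_ : Field K) (_ : Algebra k K) (_ : IsAlgClosed K) (_ : CharZero K)
      (c : σ → K), aeval c a = 0 ∧ (∀ P : MvPolynomial σ k, aeval c P = 0 → eval f P = 0) ∧
      ∀ W : Submodule K (σ → K), (∀ φ : K →+* DualNumber K, (∀ a, (φ a).fst = a) →
        (fun p => (φ (c p)).snd) ∈ W) → Fintype.card σ ≤ Module.finrank K W + 1 := by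
  obtain ⟨h, hp, hf, hdvd⟩ := exists_prime_factor f a ha
  obtain ⟨K, i1, i2, i3, i4, c, hc, hv⟩ := exists_point_hyp h hp
  refine ⟨K, i1, i2, i3, i4, c, (hc a).mpr hdvd, ?_, ?_⟩
  · intro P hP
    obtain ⟨b, rfl⟩ := (hc P).mp hP
    rw [map_mul, hf, zero_mul]
  · intro W hW
    let ℓ : (σ → K) →ₗ[K] K := Fintype.linearCombination K (fun p => aeval c (pderiv p h))
    have hℓ : ∀ v, ℓ v = ∑ p, v p * aeval c (pderiv p h) := by
      intro v
      exact Fintype.linearCombination_apply K _ v
    have hle : LinearMap.ker ℓ ≤ W := by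
      intro v hvk
      rw [LinearMap.mem_ker, hℓ] at hvk
      obtain ⟨φ, h1, h2⟩ := hv v hvk
      have h3 := hW φ h1
      have h4 : (fun p => (φ (c p)).snd) = v := funext h2
      rwa [h4] at h3
    have h1 := LinearMap.finrank_range_add_finrank_ker ℓ
    have h2 := Submodule.finrank_mono hle
    have h3 : Module.finrank K (LinearMap.range ℓ) ≤ 1 := by
      have := Submodule.finrank_le (LinearMap.range ℓ)
      rwa [Module.finrank_self] at this
    rw [Module.finrank_fintype_fun_eq_card] at h1
    omega

end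

end

end Pool.Agent.N141.Sing
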