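import Pool.Agent.N141.Sing.Equi

/-!
The local ring of invariant fractions and contraction of ideals.
-/

open MvPolynomial

namespace Pool.Agent.N141.Sing

open Pool.Agent.Helper819 Pool.Agent.Helper819.Apolar Pool.Agent.Helper819.Dyn

noncomputable section

set_option linter.unusedSectionVars false

section gen

variable {k : Type} [Field k] {σ : Type}

/-- the maximal ideal of a point -/
abbrev nn (f : σ → k) : Ideal (MvPolynomial σ k) := RingHom.ker (eval f)

instance (f : σ → k) : (nn f).IsPrime := RingHom.ker_isPrime _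

theorem mem_nn (f : σ → k) (P : MvPolynomial σ k) : P ∈ nn f ↔ eval f P = 0 := Iff.rfl

/-- the local ring of affine space at a point -/
abbrev BB (f : σ → k) : Type := Localization.AtPrime (nn f)

/-- evaluation -/
def evB (f : σ → k) : BB f →+* k :=
  IsLocalization.lift (M := (nn f).primeCompl) (g := eval f)
    (fun y => isUnit_iff_ne_zero.mpr y.2)

theorem evB_alg (f : σ → k) (P : MvPolynomial σ k) :
    evB f (algebraMap _ (BB f) P) = eval f P := IsLocalization.lift_eq _ _

theorem alg_isUnit (f : σ → k) {P : MvPolynomial σ k} (h : eval f P ≠ 0) :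
    IsUnit (algebraMap _ (BB f) P) :=
  IsLocalization.map_units (BB f) (⟨P, h⟩ : (nn f).primeCompl)

theorem alg_inj (f : σ → k) : Function.Injective (algebraMap (MvPolynomial σ k) (BB f)) :=
  IsLocalization.injective (BB f) (Ideal.primeCompl_le_nonZeroDivisors (nn f))

theorem evB_surj (f : σ → k) : Function.Surjective (evB f) := fun a =>
  ⟨algebraMap _ _ (C a), by rw [evB_alg, eval_C]⟩

theorem exists_rep (f : σ → k) (x : BB f) : ∃ P Q : MvPolynomial σ k, eval f Q ≠ 0 ∧
    x * algebraMap _ _ Q = algebraMap _ _ P := by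
  obtain ⟨⟨P, Q⟩, h⟩ := IsLocalization.surj (nn f).primeCompl x
  exact ⟨P, Q, Q.2, h⟩

theorem evB_eq_zero_iff (f : σ → k) {x : BB f} {P Q : MvPolynomial σ k} (hQ : eval f Q ≠ 0)
    (h : x * algebraMap _ _ Q = algebraMap _ _ P) : evB f x = 0 ↔ eval f P = 0 := by
  have h1 := congrArg (evB f) h
  rw [map_mul, evB_alg, evB_alg] at h1
  rw [← h1, mul_eq_zero]
  constructor
  · intro h2; exact Or.inl h2
  · intro h2; exact h2.resolve_right hQ

theorem mem_max_iff (f : σ → k) (x : BB f) :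
    x ∈ IsLocalRing.maximalIdeal (BB f) ↔ evB f x = 0 := by
  obtain ⟨P, Q, hQ, h⟩ := exists_rep f x
  rw [evB_eq_zero_iff f hQ h, IsLocalRing.mem_maximalIdeal, mem_nonunits_iff]
  have h1 : IsUnit x ↔ IsUnit (algebraMap _ (BB f) P) := by
    rw [← h, IsUnit.mul_iff]
    exact ⟨fun h2 => ⟨h2, alg_isUnit f hQ⟩, fun h2 => h2.1⟩
  rw [h1]
  constructor
  · intro h2
    by_contra h3
    exact h2 (alg_isUnit f h3)
  · intro h2 h3
    have h4 := h3.map (evB f)
    rw [evB_alg, h2] at h4
    exact not_isUnit_zero h4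

end gen

section LL

variable {k : Type} [Field k] {N d : ℕ}

/-- Fractions of semi-invariants of equal weight with denominator not vanishing at `f`. -/
def LL (f : Ix N d → k) : Subalgebra k (BB f) where
  carrier := {x | ∃ (w : ℕ) (P Q : MvPolynomial (Ix N d) k), IsSemi w P ∧ IsSemi w Q ∧
    eval f Q ≠ 0 ∧ x * algebraMap _ _ Q = algebraMap _ _ P}
  mul_mem' := by
    rintro x y ⟨w, P, Q, hP, hQ, hQf, hx⟩ ⟨w', P', Q', hP', hQ', hQf', hy⟩
    refine ⟨w + w', P * P', Q * Q', hP.mul hP', hQ.mul hQ', ?_, ?_⟩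
    · rw [map_mul]; exact mul_ne_zero hQf hQf'
    · rw [map_mul, map_mul, ← hx, ← hy]; ring
  add_mem' := by
    rintro x y ⟨w, P, Q, hP, hQ, hQf, hx⟩ ⟨w', P', Q', hP', hQ', hQf', hy⟩
    refine ⟨w + w', P * Q' + Q * P', Q * Q', (hP.mul hQ').add (hQ.mul hP'), hQ.mul hQ', ?_, ?_⟩
    · rw [map_mul]; exact mul_ne_zero hQf hQf'
    · rw [map_mul, map_add, map_mul, map_mul, ← hx, ← hy]; ring
  algebraMap_mem' := by
    intro a
    refine ⟨0, C a, 1, ?_, IsSemi.one, by simp, ?_⟩
    · have := (IsSemi.one (k := k) (N := N) (d := d)).C_mul a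
      rwa [mul_one] at this
    · rw [map_one, mul_one]
      exact (IsScalarTower.algebraMap_apply k (MvPolynomial (Ix N d) k) (BB f) a)

/-- a fraction of semi-invariants -/
def mkL (f : Ix N d → k) (w : ℕ) (P Q : MvPolynomial (Ix N d) k) (hP : IsSemi w P)
    (hQ : IsSemi w Q) (hQf : eval f Q ≠ 0) : LL f :=
  ⟨IsLocalization.mk' (BB f) P (⟨Q, hQf⟩ : (nn f).primeCompl),
    w, P, Q, hP, hQ, hQf, IsLocalization.mk'_spec _ _ _⟩

theorem mkL_spec (f : Ix N d → k) (w : ℕ) (P Q : MvPolynomial (Ix N d) k) (hP : IsSemi w P)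
    (hQ : IsSemi w Q) (hQf : eval f Q ≠ 0) :
    (mkL f w P Q hP hQ hQf : BB f) * algebraMap _ _ Q = algebraMap _ _ P :=
  IsLocalization.mk'_spec _ _ _

/-- evaluation -/
def evL (f : Ix N d → k) : LL f →+* k := (evB f).comp (LL f).val.toRingHom

theorem evL_apply (f : Ix N d → k) (x : LL f) : evL f x = evB f x := rfl

theorem isUnit_LL (f : Ix N d → k) {x : LL f} (h : evL f x ≠ 0) : IsUnit x := by
  obtain ⟨x, w, P, Q, hP, hQ, hQf, hx⟩ := x
  have hPf : eval f P ≠ 0 := by
    intro h0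
    exact h ((evB_eq_zero_iff f hQf hx).mpr h0)
  refine IsUnit.of_mul_eq_one (mkL f w Q P hQ hP hPf) (Subtype.ext ?_)
  apply (alg_isUnit f hPf).mul_left_injective
  change x * (mkL f w Q P hQ hP hPf : BB f) * _ = 1 * _
  rw [mul_assoc, mkL_spec, hx, one_mul]

instance (f : Ix N d → k) : IsLocalHom (evL f) := ⟨fun x hx => isUnit_LL f hx.ne_zero⟩

instance (f : Ix N d → k) : IsLocalRing (LL f) := RingHom.domain_isLocalRing (evL f)

theorem mem_maxL_iff (f : Ix N d → k) (x : LL f) :
    x ∈ IsLocalRing.maximalIdeal (LL f) ↔ evL f x = 0 := by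
  rw [IsLocalRing.mem_maximalIdeal, mem_nonunits_iff]
  constructor
  · intro h
    by_contra h2
    exact h (isUnit_LL f h2)
  · intro h h2
    have h3 := h2.map (evL f)
    rw [h] at h3
    exact not_isUnit_zero h3

/-- common denominators for finitely many elements of the ring -/
theorem LL_rep (f : Ix N d → k) (x : LL f) : ∃ (w : ℕ) (P Q : MvPolynomial (Ix N d) k),
    IsSemi w P ∧ IsSemi w Q ∧ eval f Q ≠ 0 ∧
      (x : BB f) * algebraMap _ _ Q = algebraMap _ _ P := x.2

theorem IsSemi.prod {ι : Type} (s : Finset ι) (w : ι → ℕ) (Q : ι → MvPolynomial (Ix N d) k)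
    (hQ : ∀ i ∈ s, IsSemi (w i) (Q i)) : IsSemi (∑ i ∈ s, w i) (∏ i ∈ s, Q i) := by
  classical
  induction s using Finset.induction_on with
  | empty => simpa using IsSemi.one
  | insert a s ha ih =>
    rw [Finset.sum_insert ha, Finset.prod_insert ha]
    exact (hQ a (Finset.mem_insert_self a s)).mul
      (ih fun i hi => hQ i (Finset.mem_insert_of_mem hi))

theorem common_den {ι : Type} [Fintype ι] (f : Ix N d → k) (x : ι → LL f) :
    ∃ (w : ℕ) (P : ι → MvPolynomial (Ix N d) k) (Q : MvPolynomial (Ix N d) k),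
      (∀ i, IsSemi w (P i)) ∧ IsSemi w Q ∧ eval f Q ≠ 0 ∧
      ∀ i, (x i : BB f) * algebraMap _ _ Q = algebraMap _ _ (P i) := by
  classical
  choose w P Q hP hQ hQf hx using fun i => LL_rep f (x i)
  refine ⟨∑ i, w i, fun i => P i * ∏ j ∈ Finset.univ.erase i, Q j, ∏ i, Q i, ?_, ?_, ?_, ?_⟩
  · intro i
    rw [← Finset.add_sum_erase _ _ (Finset.mem_univ i)]
    exact (hP i).mul (IsSemi.prod _ _ _ fun j _ => hQ j)
  · exact IsSemi.prod _ _ _ fun j _ => hQ j
  · rw [map_prod]
    exact Finset.prod_ne_zero_iff.mpr fun i _ => hQf i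
  · intro i
    rw [← Finset.mul_prod_erase _ _ (Finset.mem_univ i), map_mul, ← mul_assoc, hx, map_mul]

end LL

section contract

variable {k : Type} [Field k] [IsAlgClosed k] [CharZero k] {N d : ℕ}

theorem eval_compT' (A : Matrix (Fin (N + 1)) (Fin (N + 1)) k) (c : Ix N d → k)
    (P : MvPolynomial (Ix N d) k) : eval c (Dyn.compT A P) = eval (actT A c) P :=
  Dyn.eval_compT A c P

theorem compT_semi {w : ℕ} {P : MvPolynomial (Ix N d) k} (hP : IsSemi w P)
    (A : Matrix (Fin (N + 1)) (Fin (N + 1)) k) : Dyn.compT A P = C (A.det ^ w) * P := by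
  have hinf : Infinite k := inferInstance
  apply MvPolynomial.funext
  intro c
  rw [eval_compT', hP A c, map_mul, eval_C]

/-- A stable ideal which is not contained in the maximal ideal of `f` contains a semi-invariant
not vanishing at `f`. -/
theorem exists_semi_mem (hd : 2 ≤ d) {f : Ix N d → k} (hf : NZ (tup f))
    (J : Ideal (MvPolynomial (Ix N d) k))
    (hJ : ∀ A : Matrix (Fin (N + 1)) (Fin (N + 1)) k, A.det ≠ 0 → ∀ a ∈ J, Dyn.compT A a ∈ J)
    {s : MvPolynomial (Ix N d) k} (hs : s ∈ J) (hsf : eval f s ≠ 0) :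
    ∃ (w : ℕ) (R : MvPolynomial (Ix N d) k), IsSemi w R ∧ eval f R ≠ 0 ∧ R ∈ J := by
  obtain ⟨w, R, hR, hRf, hRZ⟩ := exists_semi hd hf {c | ∀ a ∈ J, eval c a = 0} (by
    intro c hc a ha
    apply hc
    intro z hz
    exact hz a ha) (by
    intro A hA z hz a ha
    rw [← eval_compT']
    exact hz _ (hJ A hA a ha)) (by
    intro h
    exact hsf (h s hs))
  have hrad : R ∈ J.radical := by
    rw [← vanishingIdeal_zeroLocus_eq_radical (K := k), mem_vanishingIdeal_iff]
    intro c hc
    rw [Gr.aeval_eq_eval_self]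
    apply hRZ
    intro a ha
    have := (mem_zeroLocus_iff.mp hc) a ha
    rwa [Gr.aeval_eq_eval_self] at this
  obtain ⟨m, hm⟩ := hrad
  refine ⟨w * m, R ^ m, hR.pow m, ?_, hm⟩
  rw [map_pow]
  exact pow_ne_zero _ hRf

/-- Reynolds operator for the conjugation action. -/
theorem reynolds {n W : ℕ} {P : MvPolynomial (Ix N d) k} (hP : IsSemi W P)
    (a Q : Fin n → MvPolynomial (Ix N d) k) (w : Fin n → ℕ) (hQ : ∀ i, IsSemi (w i) (Q i))
    (hw : ∀ i, w i ≤ W) (h : P = ∑ i, a i * Q i) :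
    ∃ b : Fin n → MvPolynomial (Ix N d) k, (∀ i, IsSemi (W - w i) (b i)) ∧
      P = ∑ i, b i * Q i := by
  refine ⟨fun i => Gr.sharp (CAct N d).toRAct (fun _ => W - w i) (a i),
    fun i => (semi_iff _ _).mp (Gr.isSemi_sharp _ _ _), ?_⟩
  have h1 := congrArg (Gr.sharp (CAct N d).toRAct (fun _ => W)) h
  rw [Gr.sharp_semi _ ((semi_iff _ _).mpr hP), Gr.sharp_sum] at h1
  rw [h1]
  refine Finset.sum_congr rfl fun i _ => ?_
  have h2 : (fun _ : Unit => W) = (fun _ => W - w i) + fun _ => w i := by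
    funext s
    change W = W - w i + w i
    rw [Nat.sub_add_cancel (hw i)]
  rw [h2]
  exact Gr.sharp_mul_semi _ _ ((semi_iff _ _).mpr (hQ i)) _

theorem contract (hd : 2 ≤ d) {f : Ix N d → k} (hf : NZ (tup f)) (I : Ideal (LL f)) (x : LL f)
    (hx : (x : BB f) ∈ I.map (algebraMap (LL f) (BB f))) : x ∈ I := by
  classical
  obtain ⟨n, b, y, hy⟩ := Submodule.mem_span_set'.mp hx
  choose z hz hzy using fun i => (y i).2
  -- denominators
  obtain ⟨s, hs⟩ := IsLocalization.exist_integer_multiples_of_finite (nn f).primeCompl b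
  choose a ha using hs
  have ha' : ∀ i, algebraMap _ (BB f) (a i) =
      algebraMap _ _ (s : MvPolynomial (Ix N d) k) * b i := by
    intro i
    rw [ha i, Algebra.smul_def]
  have hy' : (x : BB f) = ∑ i, b i * (z i : BB f) := by
    rw [← hy]
    refine Finset.sum_congr rfl fun i _ => ?_
    rw [smul_eq_mul, ← hzy i]
    rfl
  choose w P Q hP hQ hQf hyr using fun i => LL_rep f (z i)
  obtain ⟨w0, P0, Q0, hP0, hQ0, hQf0, hx0⟩ := LL_rep f x
  set T := ∏ i, Q i with hT
  have hTs : IsSemi (∑ i, w i) T := IsSemi.prod _ _ _ fun j _ => hQ j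
  have hTf : eval f T ≠ 0 := by
    rw [hT, map_prod]
    exact Finset.prod_ne_zero_iff.mpr fun i _ => hQf i
  have hP' : IsSemi (w0 + ∑ i, w i) (P0 * T) := hP0.mul hTs
  let J : Ideal (MvPolynomial (Ix N d) k) :=
    { carrier := {c | c * (P0 * T) ∈ Ideal.span (Set.range P)}
      add_mem' := by
        intro x y hx hy
        change (x + y) * (P0 * T) ∈ Ideal.span (Set.range P)
        rw [add_mul]
        exact Submodule.add_mem _ hx hy
      zero_mem' := by
        change 0 * (P0 * T) ∈ Ideal.span (Set.range P)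
        rw [zero_mul]
        exact Submodule.zero_mem _
      smul_mem' := by
        intro x y hy
        change (x * y) * (P0 * T) ∈ Ideal.span (Set.range P)
        rw [mul_assoc]
        exact Ideal.mul_mem_left _ _ hy }
  have hsJ : (s : MvPolynomial (Ix N d) k) ∈ J := by
    change (s : MvPolynomial (Ix N d) k) * (P0 * T) ∈ Ideal.span (Set.range P)
    have h1 : (s : MvPolynomial (Ix N d) k) * (P0 * T) =
        ∑ i, (a i * Q0 * ∏ j ∈ Finset.univ.erase i, Q j) * P i := by
      apply alg_inj f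
      rw [map_mul, map_mul, ← hx0, hy', map_sum, Finset.sum_mul, Finset.sum_mul, Finset.mul_sum]
      refine Finset.sum_congr rfl fun i _ => ?_
      rw [hT, ← Finset.mul_prod_erase _ _ (Finset.mem_univ i), map_mul, map_mul, map_mul, map_mul,
        ha' i, ← hyr i]
      ring
    rw [h1]
    exact Submodule.sum_mem _ fun i _ => Ideal.mul_mem_left _ _ (Ideal.subset_span ⟨i, rfl⟩)
  have hJst : ∀ A : Matrix (Fin (N + 1)) (Fin (N + 1)) k, A.det ≠ 0 → ∀ a ∈ J,
      Dyn.compT A a ∈ J := by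
    intro A hA a ha
    change Dyn.compT A a * (P0 * T) ∈ Ideal.span (Set.range P)
    have h1 : Ideal.span (Set.range P) ≤ (Ideal.span (Set.range P)).comap (Dyn.compT A) := by
      rw [Ideal.span_le]
      rintro _ ⟨i, rfl⟩
      change Dyn.compT A (P i) ∈ Ideal.span (Set.range P)
      rw [compT_semi (hP i)]
      exact Ideal.mul_mem_left _ _ (Ideal.subset_span ⟨i, rfl⟩)
    have h2 : Dyn.compT A (a * (P0 * T)) ∈ Ideal.span (Set.range P) := h1 ha
    rw [map_mul, compT_semi hP'] at h2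
    have h3 := Ideal.mul_mem_left _ (C (A.det ^ (w0 + ∑ i, w i))⁻¹) h2
    have h4 : (C (A.det ^ (w0 + ∑ i, w i))⁻¹ * (Dyn.compT A a *
        (C (A.det ^ (w0 + ∑ i, w i)) * (P0 * T))) : MvPolynomial (Ix N d) k) =
        Dyn.compT A a * (P0 * T) := by
      have h5 : (C (A.det ^ (w0 + ∑ i, w i))⁻¹ * C (A.det ^ (w0 + ∑ i, w i)) :
          MvPolynomial (Ix N d) k) = 1 := by
        rw [← C_mul, inv_mul_cancel₀ (pow_ne_zero _ hA), C_1]
      linear_combination (Dyn.compT A a * (P0 * T)) * h5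
    rwa [h4] at h3
  obtain ⟨wR, R, hR, hRf, hRJ⟩ := exists_semi_mem hd hf J hJst hsJ s.2
  have hRJ' : R * (P0 * T) ∈ Ideal.span (Set.range P) := hRJ
  rw [Ideal.span, Submodule.mem_span_range_iff_exists_fun] at hRJ'
  obtain ⟨c, hc⟩ := hRJ'
  obtain ⟨e, he, hRe⟩ := reynolds (hR.mul hP') c P w hP (by
    intro i
    have : w i ≤ ∑ i, w i := Finset.single_le_sum (fun _ _ => Nat.zero_le _) (Finset.mem_univ i)
    omega) (by rw [← hc]; rfl)
  have hle : ∀ i, w i ≤ wR + (w0 + ∑ i, w i) := by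
    intro i
    have : w i ≤ ∑ i, w i := Finset.single_le_sum (fun _ _ => Nat.zero_le _) (Finset.mem_univ i)
    omega
  have hden : IsSemi (wR + (w0 + ∑ i, w i)) (R * (Q0 * T)) := hR.mul (hQ0.mul hTs)
  have hdenf : eval f (R * (Q0 * T)) ≠ 0 := by
    rw [map_mul, map_mul]
    exact mul_ne_zero hRf (mul_ne_zero hQf0 hTf)
  have hnum : ∀ i, IsSemi (wR + (w0 + ∑ i, w i)) (e i * Q i) := by
    intro i
    have := (he i).mul (hQ i)
    rwa [Nat.sub_add_cancel (hle i)] at this
  have hfin : x = ∑ i, mkL f _ (e i * Q i) (R * (Q0 * T)) (hnum i) hden hdenf * z i := by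
    apply Subtype.ext
    apply (alg_isUnit f hdenf).mul_left_injective
    change (x : BB f) * _ = ((∑ i, mkL f _ (e i * Q i) (R * (Q0 * T)) (hnum i) hden hdenf * z i :
      LL f) : BB f) * _
    rw [AddSubmonoidClass.coe_finsetSum, Finset.sum_mul]
    have h1 : ∀ i, ((mkL f _ (e i * Q i) (R * (Q0 * T)) (hnum i) hden hdenf * z i : LL f) : BB f) *
        algebraMap _ _ (R * (Q0 * T)) = algebraMap _ _ (e i * P i) := by
      intro i
      change (mkL f _ (e i * Q i) (R * (Q0 * T)) (hnum i) hden hdenf : BB f) * (z i : BB f) * _ = _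
      rw [mul_right_comm, mkL_spec, map_mul, map_mul, mul_assoc, mul_comm (algebraMap _ _ (Q i)),
        hyr]
    rw [Finset.sum_congr rfl fun i _ => h1 i, ← map_sum, ← hRe]
    rw [map_mul, map_mul, map_mul, map_mul, ← hx0]
    ring
  rw [hfin]
  exact Submodule.sum_mem _ fun i _ => Ideal.mul_mem_left _ _ (hz i)

theorem noeth (hd : 2 ≤ d) {f : Ix N d → k} (hf : NZ (tup f)) : IsNoetherianRing (LL f) := by
  rw [isNoetherianRing_iff, isNoetherian_iff']
  have h1 : WellFoundedGT (Ideal (BB f)) := inferInstance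
  let φ : Ideal (LL f) → Ideal (BB f) := fun I => I.map (algebraMap (LL f) (BB f))
  have hφ : StrictMono φ := by
    intro I J hIJ
    refine lt_of_le_of_ne (Ideal.map_mono hIJ.le) ?_
    intro heq
    apply hIJ.not_ge
    intro x hx
    apply contract hd hf I x
    change _ ∈ φ I
    rw [heq]
    exact Ideal.mem_map_of_mem _ hx
  exact ⟨(InvImage.wf φ h1.wf).mono fun a b hab => hφ hab⟩

end contract

end

end Pool.Agent.N141.Sing
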