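import Pool.Agent.N141.Sing.Ring

/-!
Linear slices through a point and their behaviour at nearby points.
-/

open MvPolynomial

namespace Pool.Agent.N141.Sing

open Pool.Agent.Helper819 Pool.Agent.Helper819.Apolar Pool.Agent.Helper819.Dyn

noncomputable section

set_option linter.unusedSectionVars false

variable {k : Type} [Field k] {N d : ℕ}

/-- A complement of the tangent space of the orbit of `f`. -/
structure Slice (f : Ix N d → k) where
  s : ℕ
  e : Fin s → Ix N d → k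
  hs : s + (N + 1) * (N + 1) = Fintype.card (Ix N d)
  inj : ∀ (Y : Matrix (Fin (N + 1)) (Fin (N + 1)) k) (a : Fin s → k),
    xi Y f + ∑ j, a j • e j = 0 → Y = 0 ∧ a = 0

theorem xi_inj [IsAlgClosed k] [CharZero k] (hd : 2 ≤ d) {f : Ix N d → k} (hf : NZ (tup f))
    (Y : Matrix (Fin (N + 1)) (Fin (N + 1)) k) (h : xi Y f = 0) : Y = 0 := by
  apply lie_inj hd hf
  intro i
  have h1 := tup_xi (by omega : 1 ≤ d) Y f
  rw [h] at h1
  have h2 := congrFun h1 i
  have h3 : tup (0 : Ix N d → k) i = 0 := by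
    unfold tup
    simp
  rw [h3] at h2
  unfold lieT at h2
  linear_combination -h2

theorem exists_slice [IsAlgClosed k] [CharZero k] (hd : 2 ≤ d) {f : Ix N d → k}
    (hf : NZ (tup f)) : Nonempty (Slice f) := by
  have hinj : Function.Injective (xiL f : Matrix (Fin (N + 1)) (Fin (N + 1)) k →ₗ[k] _) := by
    rw [injective_iff_map_eq_zero]
    intro Y hY
    exact xi_inj hd hf Y hY
  obtain ⟨C, hC⟩ := Submodule.exists_isCompl (LinearMap.range (xiL f :
    Matrix (Fin (N + 1)) (Fin (N + 1)) k →ₗ[k] (Ix N d → k)))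
  let b := Module.finBasis k C
  have hdim := Submodule.finrank_add_eq_of_isCompl hC
  rw [LinearMap.finrank_range_of_inj hinj, Module.finrank_matrix, Fintype.card_fin,
    Module.finrank_self, mul_one, Module.finrank_fintype_fun_eq_card] at hdim
  refine ⟨⟨Module.finrank k C, fun j => (b j : Ix N d → k), by rw [add_comm]; exact hdim, ?_⟩⟩
  intro Y a h
  have h1 : ∑ j, a j • (b j : Ix N d → k) = ((∑ j, a j • b j : C) : Ix N d → k) := by
    rw [AddSubmonoidClass.coe_finsetSum]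
    rfl
  rw [h1] at h
  have h2 : xi Y f ∈ LinearMap.range (xiL f :
    Matrix (Fin (N + 1)) (Fin (N + 1)) k →ₗ[k] (Ix N d → k)) := ⟨Y, rfl⟩
  have h3 : xi Y f ∈ C := by
    have h4 : xi Y f = -((∑ j, a j • b j : C) : Ix N d → k) := eq_neg_of_add_eq_zero_left h
    rw [h4]
    exact C.neg_mem (Subtype.property _)
  have h4 : xi Y f = 0 := by
    have := (Submodule.mem_inf.mpr ⟨h2, h3⟩)
    rw [hC.inf_eq_bot] at this
    exact this
  refine ⟨xi_inj hd hf Y h4, ?_⟩
  rw [h4, zero_add] at h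
  have h5 : (∑ j, a j • b j : C) = 0 := Subtype.ext h
  have h6 := Fintype.linearIndependent_iff.mp b.linearIndependent a h5
  funext j
  exact h6 j

namespace Slice

variable {f : Ix N d → k} (𝓢 : Slice f)

/-- the linear map of the slice -/
def Φ : (Matrix (Fin (N + 1)) (Fin (N + 1)) k × (Fin 𝓢.s → k)) →ₗ[k] (Ix N d → k) :=
  LinearMap.coprod (xiL f) (Fintype.linearCombination k 𝓢.e)

theorem Φ_apply (Y : Matrix (Fin (N + 1)) (Fin (N + 1)) k) (a : Fin 𝓢.s → k) :
    𝓢.Φ (Y, a) = xi Y f + ∑ j, a j • 𝓢.e j := by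
  unfold Φ
  rw [LinearMap.coprod_apply, Fintype.linearCombination_apply]
  rfl

theorem Φ_inj : Function.Injective 𝓢.Φ := by
  rw [injective_iff_map_eq_zero]
  rintro ⟨Y, a⟩ h
  rw [Φ_apply] at h
  obtain ⟨h1, h2⟩ := 𝓢.inj Y a h
  rw [h1, h2]
  rfl

theorem Φ_surj : Function.Surjective 𝓢.Φ := by
  have h1 : Module.finrank k (Matrix (Fin (N + 1)) (Fin (N + 1)) k × (Fin 𝓢.s → k)) =
      Module.finrank k (Ix N d → k) := by
    rw [Module.finrank_prod, Module.finrank_matrix, Fintype.card_fin, Module.finrank_self,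
      mul_one, Module.finrank_fintype_fun_eq_card, Module.finrank_fintype_fun_eq_card,
      Fintype.card_fin, ← 𝓢.hs, add_comm]
  exact (LinearMap.injective_iff_surjective_of_finrank_eq_finrank h1).mp 𝓢.Φ_inj

/-- the linear equivalence -/
def equiv : (Matrix (Fin (N + 1)) (Fin (N + 1)) k × (Fin 𝓢.s → k)) ≃ₗ[k] (Ix N d → k) :=
  LinearEquiv.ofBijective 𝓢.Φ ⟨𝓢.Φ_inj, 𝓢.Φ_surj⟩

/-- the coordinate functionals of the slice -/
def ell (i : Fin 𝓢.s) (v : Ix N d → k) : k := (𝓢.equiv.symm v).2 i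

theorem decomp (v : Ix N d → k) : ∃ Y, v = xi Y f + ∑ j, 𝓢.ell j v • 𝓢.e j := by
  refine ⟨(𝓢.equiv.symm v).1, ?_⟩
  conv_lhs => rw [← 𝓢.equiv.apply_symm_apply v]
  exact 𝓢.Φ_apply _ _

theorem ell_xi (i : Fin 𝓢.s) (Y : Matrix (Fin (N + 1)) (Fin (N + 1)) k) :
    𝓢.ell i (xi Y f) = 0 := by
  have h1 : 𝓢.equiv (Y, 0) = xi Y f := by
    have h2 : 𝓢.Φ (Y, 0) = xi Y f := by
      have := 𝓢.Φ_apply Y 0
      simpa using this
    exact h2
  unfold ell
  rw [← h1, LinearEquiv.symm_apply_apply]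
  rfl

theorem ell_e (i j : Fin 𝓢.s) : 𝓢.ell i (𝓢.e j) = if i = j then 1 else 0 := by
  have h1 : 𝓢.equiv (0, Pi.single j 1) = 𝓢.e j := by
    have := 𝓢.Φ_apply 0 (Pi.single j 1)
    have h2 : xi (0 : Matrix (Fin (N + 1)) (Fin (N + 1)) k) f = 0 := map_zero (xiL f)
    rw [h2, zero_add, Finset.sum_eq_single j] at this
    · rw [Pi.single_eq_same, one_smul] at this
      exact this
    · intro b _ hb
      rw [Pi.single_eq_of_ne hb, zero_smul]
    · simp
  unfold ell
  rw [← h1, LinearEquiv.symm_apply_apply]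
  exact Pi.single_apply _ _ _

/-- the coefficients of the functionals -/
def co (i : Fin 𝓢.s) (p : Ix N d) : k := 𝓢.ell i (Pi.single p 1)

theorem ell_eq (i : Fin 𝓢.s) (v : Ix N d → k) : 𝓢.ell i v = ∑ p, 𝓢.co i p * v p := by
  let L : (Ix N d → k) →ₗ[k] k := (LinearMap.proj i ∘ₗ LinearMap.snd k
    (Matrix (Fin (N + 1)) (Fin (N + 1)) k) (Fin 𝓢.s → k)) ∘ₗ 𝓢.equiv.symm.toLinearMap
  change L v = ∑ p, L (Pi.single p 1) * v p
  conv_lhs => rw [← LinearMap.sum_single_apply (fun _ => k) v]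
  rw [map_sum]
  refine Finset.sum_congr rfl fun p _ => ?_
  have : (Pi.single p (v p) : Ix N d → k) = v p • Pi.single p 1 := by
    rw [← Pi.single_smul, smul_eq_mul, mul_one]
  rw [this, map_smul, smul_eq_mul, mul_comm]

/-- an indexing -/
def idx : ((Fin (N + 1) × Fin (N + 1)) ⊕ Fin 𝓢.s) ≃ Ix N d :=
  Fintype.equivOfCardEq (by
    rw [Fintype.card_sum, Fintype.card_prod, Fintype.card_fin, Fintype.card_fin, ← 𝓢.hs, add_comm])

/-- the matrix of the slice map at the generic point -/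
def MX : Matrix (Ix N d) (Ix N d) (MvPolynomial (Ix N d) k) := Matrix.of fun q p =>
  Sum.elim (fun ij => xi (Matrix.single ij.1 ij.2 1) (X : Ix N d → MvPolynomial (Ix N d) k) q)
    (fun j => C (𝓢.e j q)) (𝓢.idx.symm p)

theorem map_single {R S : Type} [CommRing R] [CommRing S] (φ : R →+* S) (i j : Fin (N + 1)) :
    (Matrix.single i j (1 : R)).map φ = Matrix.single i j 1 := by
  ext a b
  rw [Matrix.map_apply, Matrix.single_apply, Matrix.single_apply]
  split_ifs <;> simp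

theorem aeval_MX {K : Type} [Field K] [Algebra k K] (c : Ix N d → K)
    (y : (Fin (N + 1) × Fin (N + 1)) ⊕ Fin 𝓢.s → K) (q : Ix N d) :
    (((aeval c : MvPolynomial (Ix N d) k →ₐ[k] K).toRingHom.mapMatrix 𝓢.MX).mulVec
      (fun p => y (𝓢.idx.symm p))) q =
      (xi (Matrix.of fun i j => y (Sum.inl (i, j))) c +
        ∑ j, y (Sum.inr j) • fun p => algebraMap k K (𝓢.e j p)) q := by
  have h1 : (((aeval c : MvPolynomial (Ix N d) k →ₐ[k] K).toRingHom.mapMatrix 𝓢.MX).mulVec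
      (fun p => y (𝓢.idx.symm p))) q =
      ∑ p, aeval c (𝓢.MX q p) * y (𝓢.idx.symm p) := rfl
  rw [h1, ← Equiv.sum_comp 𝓢.idx, Fintype.sum_sum_type]
  simp only [MX, Matrix.of_apply, Equiv.symm_apply_apply, Sum.elim_inl, Sum.elim_inr]
  rw [Pi.add_apply, Finset.sum_apply]
  congr 1
  · have h2 : (Matrix.of fun i j => y (Sum.inl (i, j)) : Matrix (Fin (N + 1)) (Fin (N + 1)) K) =
        ∑ i, ∑ j, y (Sum.inl (i, j)) • Matrix.single i j (1 : K) := by
      conv_lhs => rw [Matrix.matrix_eq_sum_single (Matrix.of fun i j => y (Sum.inl (i, j)))]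
      refine Finset.sum_congr rfl fun i _ => Finset.sum_congr rfl fun j _ => ?_
      rw [Matrix.smul_single, smul_eq_mul, mul_one]
      rfl
    have h3 : xi (Matrix.of fun i j => y (Sum.inl (i, j)) : Matrix (Fin (N + 1)) (Fin (N + 1)) K) c =
        ∑ i, ∑ j, y (Sum.inl (i, j)) • xi (Matrix.single i j (1 : K)) c := by
      change xiL c _ = ∑ i, ∑ j, y (Sum.inl (i, j)) • xiL c (Matrix.single i j (1 : K))
      rw [h2, map_sum]
      refine Finset.sum_congr rfl fun i _ => ?_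
      rw [map_sum]
      refine Finset.sum_congr rfl fun j _ => ?_
      rw [map_smul]
    rw [h3, Finset.sum_apply, Fintype.sum_prod_type]
    refine Finset.sum_congr rfl fun i _ => ?_
    rw [Finset.sum_apply]
    refine Finset.sum_congr rfl fun j _ => ?_
    rw [Pi.smul_apply, smul_eq_mul, mul_comm]
    congr 1
    have h4 := Dyn.map_xi (aeval c : MvPolynomial (Ix N d) k →ₐ[k] K).toRingHom
      (Matrix.single i j 1) (X : Ix N d → MvPolynomial (Ix N d) k) q
    change aeval c (xi (Matrix.single i j 1) X q) = _ at h4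
    rw [h4, map_single]
    congr 1
    funext p
    exact aeval_X _ _
  · refine Finset.sum_congr rfl fun j _ => ?_
    rw [Pi.smul_apply, smul_eq_mul, mul_comm]
    congr 1
    exact aeval_C _ _

/-- the discriminant of the slice -/
def disc : MvPolynomial (Ix N d) k := 𝓢.MX.det

theorem inj_of_disc {K : Type} [Field K] [Algebra k K] {c : Ix N d → K}
    (hc : aeval c 𝓢.disc ≠ 0) (Y : Matrix (Fin (N + 1)) (Fin (N + 1)) K) (a : Fin 𝓢.s → K)
    (h : xi Y c + ∑ j, a j • (fun p => algebraMap k K (𝓢.e j p)) = 0) : Y = 0 ∧ a = 0 := by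
  let y : (Fin (N + 1) × Fin (N + 1)) ⊕ Fin 𝓢.s → K := Sum.elim (fun ij => Y ij.1 ij.2) a
  have h1 : ((aeval c : MvPolynomial (Ix N d) k →ₐ[k] K).toRingHom.mapMatrix 𝓢.MX).mulVec
      (fun p => y (𝓢.idx.symm p)) = 0 := by
    funext q
    rw [𝓢.aeval_MX c y q]
    exact congrFun h q
  have h2 : ((aeval c : MvPolynomial (Ix N d) k →ₐ[k] K).toRingHom.mapMatrix 𝓢.MX).det ≠ 0 := by
    rw [← RingHom.map_det]
    exact hc
  have h3 := Matrix.eq_zero_of_mulVec_eq_zero h2 h1
  constructor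
  · ext i j
    have := congrFun h3 (𝓢.idx (Sum.inl (i, j)))
    simp only [Equiv.symm_apply_apply] at this
    exact this
  · funext j
    have := congrFun h3 (𝓢.idx (Sum.inr j))
    simp only [Equiv.symm_apply_apply] at this
    exact this

theorem disc_ne : eval f 𝓢.disc ≠ 0 := by
  intro h0
  have h1 : (((aeval f : MvPolynomial (Ix N d) k →ₐ[k] k).toRingHom.mapMatrix 𝓢.MX)).det = 0 := by
    rw [← RingHom.map_det]
    change aeval f 𝓢.disc = 0
    rw [Gr.aeval_eq_eval_self, h0]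
  obtain ⟨v, hv, hv0⟩ := Matrix.exists_mulVec_eq_zero_iff.mpr h1
  apply hv
  let y : (Fin (N + 1) × Fin (N + 1)) ⊕ Fin 𝓢.s → k := fun x => v (𝓢.idx x)
  have hvy : v = fun p => y (𝓢.idx.symm p) := by
    funext p
    simp [y]
  rw [hvy] at hv0
  have h2 : xi (Matrix.of fun i j => y (Sum.inl (i, j))) f +
      ∑ j, y (Sum.inr j) • 𝓢.e j = 0 := by
    funext q
    have := 𝓢.aeval_MX (K := k) f y q
    rw [hv0] at this
    exact this.symm
  obtain ⟨h3, h4⟩ := 𝓢.inj _ _ h2
  funext p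
  obtain ⟨x, rfl⟩ := 𝓢.idx.surjective p
  rcases x with ⟨i, j⟩ | j
  · exact congrFun (congrFun h3 i) j
  · exact congrFun h4 j

end Slice

end

end Pool.Agent.N141.Sing
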