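import Pool.Agent.N141.Sing.Defs
import Pool.Agent.N141.Sing.Ring

/-!
Comparison of coordinates and invariant fractions as functions on the moduli space.
-/

open MvPolynomial Filter Topology

namespace Pool.Agent.N141.Sing

open Pool.Agent.Helper819 Pool.Agent.Helper819.Apolar Pool.Agent.Helper819.Dyn

noncomputable section

set_option linter.unusedSectionVars false

section conv

variable {k : Type} [Field k] {N d : ℕ}

/-- the coefficient vector of a morphism -/
abbrev pt (G : EndTuple k N d) : Ix N d → k := cf G.1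

/-- from all coordinates to the coordinates of degree `d` -/
def toIx : MvPolynomial (Fin (N + 1) × (Fin (N + 1) →₀ ℕ)) k →ₐ[k] MvPolynomial (Ix N d) k :=
  bind₁ fun p => if h : p.2 ∈ Finset.finsuppAntidiag (Finset.univ : Finset (Fin (N + 1))) d then
    X (p.1, ⟨p.2, h⟩) else 0

theorem eval_toIx (G : EndTuple k N d) (P : MvPolynomial (Fin (N + 1) × (Fin (N + 1) →₀ ℕ)) k) :
    eval (pt G) (toIx P) = eval (coords G) P := by
  unfold toIx
  rw [eval_bind']
  congr 2
  funext p
  split_ifs with h
  · rw [eval_X]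
    rfl
  · rw [map_zero]
    symm
    apply (G.2.1 p.1).coeff_eq_zero
    intro h2
    exact h ((mem_Ex p.2).mpr h2)

/-- from the coordinates of degree `d` to all coordinates -/
def frIx : MvPolynomial (Ix N d) k →ₐ[k] MvPolynomial (Fin (N + 1) × (Fin (N + 1) →₀ ℕ)) k :=
  rename fun p => (p.1, p.2.1)

theorem eval_frIx (G : EndTuple k N d) (P : MvPolynomial (Ix N d) k) :
    eval (coords G) (frIx P) = eval (pt G) P := by
  unfold frIx
  rw [eval_rename]
  rfl

theorem frIx_homog {P : MvPolynomial (Ix N d) k} {e : ℕ} (hP : P.IsHomogeneous e) :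
    (frIx P).IsHomogeneous e := hP.rename_isHomogeneous

variable [IsAlgClosed k]

theorem pt_NZ (G : EndTuple k N d) : NZ (tup (pt G)) := by
  have h1 := (isEnd_iff_NZ G.1).mp G.2
  rw [tup_cf h1.1]
  exact h1.2

/-- the morphism with given coefficients -/
def mkE (c : Ix N d → k) (hc : NZ (tup c)) : EndTuple k N d :=
  ⟨tup c, (isEnd_iff_NZ _).mpr ⟨tup_homog c, hc⟩⟩

theorem pt_mkE (c : Ix N d → k) (hc : NZ (tup c)) : pt (mkE c hc) = c := cf_tup c

theorem pt_actE (A : Matrix (Fin (N + 1)) (Fin (N + 1)) k) (hA : A.det ≠ 0) (F : EndTuple k N d) :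
    pt (actE A hA F) = actT A (pt F) := by
  change cf (act A F.1) = cf (act A (tup (cf F.1)))
  rw [tup_cf F.2.1]

/-- A polynomial vanishing at all points of `End_d^N` is zero. -/
theorem eq_zero_of_pt [CharZero k] (hd : 1 ≤ d) {P : MvPolynomial (Ix N d) k}
    (h : ∀ G : EndTuple k N d, eval (pt G) P = 0) (hne : Nonempty (EndTuple k N d)) : P = 0 := by
  obtain ⟨D, r, -, hD, -⟩ := exists_D (k := k) (N := N) hd
  have hD0 : D ≠ 0 := by
    rintro rfl
    obtain ⟨G⟩ := hne
    have := (hD (pt G)).mpr (pt_NZ G)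
    rw [map_zero] at this
    exact this rfl
  have hinf : Infinite k := inferInstance
  have h1 : P * D = 0 := by
    apply MvPolynomial.funext
    intro c
    rw [map_mul, map_zero]
    by_cases hc : eval c D = 0
    · rw [hc, mul_zero]
    · have h2 := h (mkE c ((hD c).mp hc))
      rw [pt_mkE] at h2
      rw [h2, zero_mul]
  exact (mul_eq_zero.mp h1).resolve_right hD0

end conv

section homog

variable {k : Type} [Field k] [CharZero k] {N d : ℕ}

theorem two_pow_inj {a b : ℕ} (h : (2 : k) ^ a = 2 ^ b) : a = b := by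
  have h1 : ((2 ^ a : ℕ) : k) = ((2 ^ b : ℕ) : k) := by
    push_cast
    exact h
  exact Nat.pow_right_injective le_rfl (Nat.cast_injective h1)

theorem coeff_scale {σ : Type} (a : k) (P : MvPolynomial σ k) (m : σ →₀ ℕ) :
    coeff m (bind₁ (fun i => C a * X i) P) = a ^ m.degree * coeff m P := by
  classical
  induction P using MvPolynomial.induction_on' with
  | monomial u c =>
    rw [bind₁_monomial]
    have h1 : (C c * ∏ i ∈ u.support, (C a * X i) ^ u i : MvPolynomial σ k) =
        C (a ^ u.degree) * monomial u c := by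
      rw [monomial_eq (s := u), Finsupp.prod]
      simp_rw [mul_pow]
      rw [Finset.prod_mul_distrib]
      have h2 : (∏ i ∈ u.support, (C a : MvPolynomial σ k) ^ u i) = C (a ^ u.degree) := by
        rw [Finset.prod_pow_eq_pow_sum, ← C_pow]
        rfl
      rw [h2]
      ring
    rw [h1, coeff_C_mul, coeff_monomial]
    split_ifs with h
    · rw [h]
    · ring
  | add p q hp hq =>
    rw [map_add, coeff_add, hp, hq, coeff_add, mul_add]

theorem semi_degree {w : ℕ} {P : MvPolynomial (Ix N d) k} (hP : IsSemi w P) {m : Ix N d →₀ ℕ}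
    (hm : coeff m P ≠ 0) : (N + d) * m.degree = (N + 1) * w := by
  have hinf : Infinite k := inferInstance
  have h1 : bind₁ (fun i => C ((2 : k) ^ (N + d)) * X i) P = C ((2 : k) ^ ((N + 1) * w)) * P := by
    apply MvPolynomial.funext
    intro c
    rw [eval_bind', map_mul, eval_C]
    have h2 := hP ((2 : k) • (1 : Matrix (Fin (N + 1)) (Fin (N + 1)) k)) c
    rw [actT_scalar, Matrix.det_smul, Matrix.det_one, mul_one, Fintype.card_fin, ← pow_mul] at h2
    rw [← h2]
    congr 2
    funext i
    rw [map_mul, eval_C, eval_X]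
    rfl
  have h2 := congrArg (coeff m) h1
  rw [coeff_scale, coeff_C_mul] at h2
  have h3 := mul_right_cancel₀ hm h2
  rw [← pow_mul] at h3
  exact two_pow_inj h3

/-- Semi-invariants of the same weight are homogeneous of the same degree. -/
theorem semi_homog (hN : 0 < N + d) {w : ℕ} {Q : MvPolynomial (Ix N d) k} (hQ : IsSemi w Q)
    (hQ0 : Q ≠ 0) : ∃ e : ℕ, ∀ P : MvPolynomial (Ix N d) k, IsSemi w P → P.IsHomogeneous e := by
  obtain ⟨m, hm⟩ := MvPolynomial.ne_zero_iff.mp hQ0
  refine ⟨m.degree, fun P hP m' hm' => ?_⟩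
  have h1 := semi_degree hQ hm
  have h2 := semi_degree hP hm'
  have h3 : (N + d) * m'.degree = (N + d) * m.degree := h2.trans h1.symm
  have h4 := Nat.eq_of_mul_eq_mul_left hN h3
  rw [← h4, Finsupp.degree_eq_weight_one]
  rfl

end homog

end

end Pool.Agent.N141.Sing
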