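import Pool.Agent.N141.Sing.Stalk1

/-!
The local ring of the moduli space is the ring of invariant fractions.
-/

open MvPolynomial Filter Topology

namespace Pool.Agent.N141.Sing

open Pool.Agent.Helper819 Pool.Agent.Helper819.Apolar Pool.Agent.Helper819.Dyn

noncomputable section

set_option linter.unusedSectionVars false

variable {k : Type} [Field k] [IsAlgClosed k] [CharZero k] {N d : ℕ}

/-- quotient of semi-invariants as a function on the moduli space -/
def frac (hN : 0 < N + d) {w : ℕ} {P Q : MvPolynomial (Ix N d) k} (hP : IsSemi w P)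
    (hQ : IsSemi w Q) : Moduli k N d → k :=
  Quot.lift (fun G : EndTuple k N d => eval (pt G) P / eval (pt G) Q) (by
    intro F G h
    obtain ⟨A, hA, rfl⟩ := (rel_iff hN F G).mp h
    rw [pt_actE, hP, hQ, mul_div_mul_left _ _ (pow_ne_zero _ hA)])

theorem frac_cls (hN : 0 < N + d) {w : ℕ} {P Q : MvPolynomial (Ix N d) k} (hP : IsSemi w P)
    (hQ : IsSemi w Q) (G : EndTuple k N d) :
    frac hN hP hQ (cls G) = eval (pt G) P / eval (pt G) Q := rfl

theorem isOpen_pt (Q : MvPolynomial (Ix N d) k) :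
    IsOpen {G : EndTuple k N d | eval (pt G) Q ≠ 0} := by
  have h1 := (isZar_coords k N d).isOpen_ne (frIx Q)
  have h2 : {G : EndTuple k N d | eval (coords G) (frIx Q) ≠ 0} =
      {G : EndTuple k N d | eval (pt G) Q ≠ 0} := by
    ext G
    change eval (coords G) (frIx Q) ≠ 0 ↔ eval (pt G) Q ≠ 0
    rw [eval_frIx]
  rwa [h2] at h1

theorem eventually_of (hN : 0 < N + d) {F : EndTuple k N d} {p : Moduli k N d → Prop}
    (Q : MvPolynomial (Ix N d) k) (hQ : eval (pt F) Q ≠ 0)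
    (h : ∀ G : EndTuple k N d, eval (pt G) Q ≠ 0 → p (cls G)) : ∀ᶠ x in 𝓝 (cls F), p x := by
  have h1 := isOpenMap_cls hN _ (isOpen_pt Q)
  have h2 := h1.mem_nhds ⟨F, hQ, rfl⟩
  filter_upwards [h2] with x hx
  obtain ⟨G, hG, rfl⟩ := hx
  exact h G hG

theorem of_eventually {F : EndTuple k N d} {p : Moduli k N d → Prop}
    (h : ∀ᶠ x in 𝓝 (cls F), p x) : ∃ Q : MvPolynomial (Ix N d) k, eval (pt F) Q ≠ 0 ∧
      ∀ G : EndTuple k N d, eval (pt G) Q ≠ 0 → p (cls G) := by
  have h1 : ∀ᶠ G in 𝓝 F, p (cls G) := (continuous_cls (k := k)).continuousAt.eventually h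
  obtain ⟨_, ⟨q, rfl⟩, hF, hsub⟩ :=
    (isZar_coords k N d).isTopologicalBasis.mem_nhds_iff.mp h1
  refine ⟨toIx q, ?_, ?_⟩
  · rw [eval_toIx]
    exact hF
  · intro G hG
    rw [eval_toIx] at hG
    exact hsub hG

theorem frac_regular (hN : 0 < N + d) {w : ℕ} {P Q : MvPolynomial (Ix N d) k} (hP : IsSemi w P)
    (hQ : IsSemi w Q) {G : EndTuple k N d} (hG : eval (pt G) Q ≠ 0) :
    IsRegularAt (frac hN hP hQ) (cls G) := by
  intro G' hG'
  obtain ⟨A, hA, rfl⟩ := (cls_eq_iff hN G G').mp hG'.symm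
  have hQ0 : Q ≠ 0 := by
    rintro rfl
    rw [map_zero] at hG
    exact hG rfl
  obtain ⟨e, he⟩ := semi_homog hN hQ hQ0
  refine ⟨frIx P, frIx Q, e, frIx_homog (he P hP), frIx_homog (he Q hQ), ?_, ?_⟩
  · rw [eval_frIx, pt_actE, hQ]
    exact mul_ne_zero (pow_ne_zero _ hA) hG
  · intro H _
    rw [frac_cls, eval_frIx, eval_frIx]

section germ

variable (hN : 0 < N + d) (F : EndTuple k N d)

/-- equal fractions define equal germs -/
theorem frac_germ {w w' : ℕ} {P Q P' Q' : MvPolynomial (Ix N d) k} (hP : IsSemi w P)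
    (hQ : IsSemi w Q) (hP' : IsSemi w' P') (hQ' : IsSemi w' Q') (hQf : eval (pt F) Q ≠ 0)
    (hQf' : eval (pt F) Q' ≠ 0) (h : P * Q' = P' * Q) :
    (frac hN hP hQ : Germ (𝓝 (cls F)) k) = (frac hN hP' hQ' : Germ (𝓝 (cls F)) k) := by
  rw [Germ.coe_eq]
  refine eventually_of hN (Q * Q') (by rw [map_mul]; exact mul_ne_zero hQf hQf') fun G hG => ?_
  rw [map_mul] at hG
  rw [frac_cls, frac_cls, div_eq_div_iff (left_ne_zero_of_mul hG) (right_ne_zero_of_mul hG),
    ← map_mul, ← map_mul, h]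

theorem cross {P Q P' Q' : MvPolynomial (Ix N d) k} {x : BB (pt F)}
    (h : x * algebraMap _ _ Q = algebraMap _ _ P) (h' : x * algebraMap _ _ Q' = algebraMap _ _ P') :
    P * Q' = P' * Q := by
  apply alg_inj (pt F)
  rw [map_mul, map_mul, ← h, ← h']
  ring

/-- the germ of an invariant fraction -/
def germF (x : LL (pt F)) : Germ (𝓝 (cls F)) k :=
  (frac hN (LL_rep (pt F) x).choose_spec.choose_spec.choose_spec.1
    (LL_rep (pt F) x).choose_spec.choose_spec.choose_spec.2.1 : Moduli k N d → k)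

theorem germF_eq (x : LL (pt F)) {w : ℕ} {P Q : MvPolynomial (Ix N d) k} (hP : IsSemi w P)
    (hQ : IsSemi w Q) (hQf : eval (pt F) Q ≠ 0)
    (h : (x : BB (pt F)) * algebraMap _ _ Q = algebraMap _ _ P) :
    germF hN F x = (frac hN hP hQ : Germ (𝓝 (cls F)) k) := by
  have h0 := (LL_rep (pt F) x).choose_spec.choose_spec.choose_spec
  exact frac_germ hN F _ _ _ _ h0.2.2.1 hQf (cross F h0.2.2.2 h)

/-- the germ of an invariant fraction, as a ring homomorphism -/
def germL : LL (pt F) →+* Germ (𝓝 (cls F)) k where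
  toFun := germF hN F
  map_one' := by
    rw [germF_eq hN F 1 IsSemi.one IsSemi.one (by rw [map_one]; exact one_ne_zero) (by
      rw [OneMemClass.coe_one, one_mul])]
    apply congrArg (fun φ : Moduli k N d → k => (φ : Germ (𝓝 (cls F)) k))
    funext m
    obtain ⟨G, rfl⟩ := cls_surjective m
    rw [frac_cls, map_one, div_one]
  map_zero' := by
    rw [germF_eq hN F 0 IsSemi.zero IsSemi.one (by rw [map_one]; exact one_ne_zero) (by
      rw [ZeroMemClass.coe_zero, zero_mul, map_zero])]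
    apply congrArg (fun φ : Moduli k N d → k => (φ : Germ (𝓝 (cls F)) k))
    funext m
    obtain ⟨G, rfl⟩ := cls_surjective m
    rw [frac_cls, map_zero, zero_div]
  map_mul' := by
    intro x y
    obtain ⟨w, P, Q, hP, hQ, hQf, hx⟩ := LL_rep (pt F) x
    obtain ⟨w', P', Q', hP', hQ', hQf', hy⟩ := LL_rep (pt F) y
    rw [germF_eq hN F x hP hQ hQf hx, germF_eq hN F y hP' hQ' hQf' hy,
      germF_eq hN F (x * y) (hP.mul hP') (hQ.mul hQ') (by
        rw [map_mul]; exact mul_ne_zero hQf hQf') (by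
        rw [MulMemClass.coe_mul, map_mul, map_mul, ← hx, ← hy]; ring), ← Germ.coe_mul]
    apply congrArg (fun φ : Moduli k N d → k => (φ : Germ (𝓝 (cls F)) k))
    funext m
    obtain ⟨G, rfl⟩ := cls_surjective m
    rw [Pi.mul_apply, frac_cls, frac_cls, frac_cls, map_mul, map_mul, div_mul_div_comm]
  map_add' := by
    intro x y
    obtain ⟨w, P, Q, hP, hQ, hQf, hx⟩ := LL_rep (pt F) x
    obtain ⟨w', P', Q', hP', hQ', hQf', hy⟩ := LL_rep (pt F) y
    have hQQ : eval (pt F) (Q * Q') ≠ 0 := by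
      rw [map_mul]; exact mul_ne_zero hQf hQf'
    rw [germF_eq hN F x hP hQ hQf hx, germF_eq hN F y hP' hQ' hQf' hy,
      germF_eq hN F (x + y) ((hP.mul hQ').add (hQ.mul hP')) (hQ.mul hQ') hQQ (by
        rw [AddMemClass.coe_add, map_add, map_mul, map_mul, map_mul, ← hx, ← hy]; ring),
      ← Germ.coe_add, Germ.coe_eq]
    refine eventually_of hN (Q * Q') hQQ fun G hG => ?_
    rw [map_mul] at hG
    rw [Pi.add_apply, frac_cls, frac_cls, frac_cls, map_mul, map_add, map_mul, map_mul,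
      div_add_div _ _ (left_ne_zero_of_mul hG) (right_ne_zero_of_mul hG)]

theorem germL_eq (x : LL (pt F)) {w : ℕ} {P Q : MvPolynomial (Ix N d) k} (hP : IsSemi w P)
    (hQ : IsSemi w Q) (hQf : eval (pt F) Q ≠ 0)
    (h : (x : BB (pt F)) * algebraMap _ _ Q = algebraMap _ _ P) :
    germL hN F x = (frac hN hP hQ : Germ (𝓝 (cls F)) k) := germF_eq hN F x hP hQ hQf h

theorem germL_inj (hd : 1 ≤ d) : Function.Injective (germL hN F) := by
  rw [injective_iff_map_eq_zero]
  intro x hx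
  obtain ⟨w, P, Q, hP, hQ, hQf, h⟩ := LL_rep (pt F) x
  rw [germL_eq hN F x hP hQ hQf h] at hx
  have hx' : ∀ᶠ m in 𝓝 (cls F), frac hN hP hQ m = 0 := Germ.coe_eq.mp hx
  obtain ⟨s, hs, hsG⟩ := of_eventually hx'
  have h1 : P * (Q * s) = 0 := by
    apply eq_zero_of_pt hd _ ⟨F⟩
    intro G
    rw [map_mul, map_mul]
    by_cases h2 : eval (pt G) s = 0
    · rw [h2, mul_zero, mul_zero]
    · have h3 := hsG G h2
      rw [frac_cls, div_eq_zero_iff] at h3
      rcases h3 with h3 | h3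
      · rw [h3, zero_mul]
      · rw [h3, zero_mul, mul_zero]
  have hQ0 : Q ≠ 0 := by
    rintro rfl
    rw [map_zero] at hQf
    exact hQf rfl
  have hs0 : s ≠ 0 := by
    rintro rfl
    rw [map_zero] at hs
    exact hs rfl
  have hP0 : P = 0 := (mul_eq_zero.mp h1).resolve_right (mul_ne_zero hQ0 hs0)
  rw [hP0, map_zero] at h
  exact Subtype.ext ((alg_isUnit (pt F) hQf).mul_left_eq_zero.mp h)

theorem germL_mem (x : LL (pt F)) : germL hN F x ∈ localRing (cls F) := by
  obtain ⟨w, P, Q, hP, hQ, hQf, h⟩ := LL_rep (pt F) x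
  refine ⟨frac hN hP hQ, ?_, (germL_eq hN F x hP hQ hQf h).symm⟩
  exact eventually_of hN Q hQf fun G hG => frac_regular hN hP hQ hG

end germ

end

end Pool.Agent.N141.Sing
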