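import Pool.Agent.N141.Sing.Stalk2
import Pool.Agent.N141.Sing.Easy3
import Pool.Agent.N141.Sing.Hard3

/-!
The local ring of the moduli space is the ring of invariant fractions; the main theorem.
-/

open MvPolynomial Filter Topology

namespace Pool.Agent.N141.Sing

open Pool.Agent.Helper819 Pool.Agent.Helper819.Apolar Pool.Agent.Helper819.Dyn

noncomputable section

set_option linter.unusedSectionVars false

variable {k : Type} [Field k] [IsAlgClosed k] [CharZero k] {N d : ℕ}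

theorem compT_compT (A B : Matrix (Fin (N + 1)) (Fin (N + 1)) k) (Q : MvPolynomial (Ix N d) k) :
    Dyn.compT B (Dyn.compT A Q) = Dyn.compT (B * A) Q := by
  have hinf : Infinite k := inferInstance
  apply MvPolynomial.funext
  intro c
  rw [eval_compT', eval_compT', eval_compT', actT_actT]

theorem compT_one (Q : MvPolynomial (Ix N d) k) : Dyn.compT 1 Q = Q := by
  have hinf : Infinite k := inferInstance
  apply MvPolynomial.funext
  intro c
  rw [eval_compT', actT_one]

theorem compT_ne_zero {A : Matrix (Fin (N + 1)) (Fin (N + 1)) k} (hA : A.det ≠ 0)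
    {Q : MvPolynomial (Ix N d) k} (hQ : Q ≠ 0) : Dyn.compT A Q ≠ 0 := by
  intro h
  apply hQ
  have h1 := compT_compT A A⁻¹ Q
  rw [h, map_zero, Matrix.nonsing_inv_mul _ (isUnit_iff_ne_zero.mpr hA), compT_one] at h1
  exact h1.symm

/-- semi-invariance may be checked on invertible matrices -/
theorem semi_of_invertible {w : ℕ} {H : MvPolynomial (Ix N d) k}
    (h : ∀ A : Matrix (Fin (N + 1)) (Fin (N + 1)) k, A.det ≠ 0 →
      Dyn.compT A H = C (A.det ^ w) * H) : IsSemi w H := by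
  have hinf : Infinite k := inferInstance
  intro A c
  have h1 : aeval (orb c) H = C (eval c H) * dt (N + 1) k ^ w := by
    apply poly_ext
    intro B hB
    rw [eval_aeval_orb, ← eval_compT', h B hB, map_mul, map_mul, eval_C, eval_C, map_pow, eval_dt,
      mul_comm]
  have h2 := congrArg (eval (ent A)) h1
  rw [eval_aeval_orb, map_mul, eval_C, map_pow, eval_dt] at h2
  rw [h2, mul_comm]

theorem alg_id {R : Type} [CommRing R] {P Q cP cQ cH H R' d' : R}
    (h1 : cP * (d' * R') = cQ * cH) (h2 : P * cQ = Q * cP) (h3 : P * R' = Q * H) :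
    Q * cQ * cH = Q * cQ * (d' * H) := by
  linear_combination (-Q) * h1 + (-(d' * R')) * h2 + (d' * cQ) * h3

theorem exists_H {R : Type} [CommRing R] (T : Set R) (P Q : R)
    (hT : ∀ q ∈ T, ∃ H, P * q = Q * H) : ∀ q ∈ Ideal.span T, ∃ H, P * q = Q * H := by
  intro q hq
  induction hq using Submodule.span_induction with
  | mem x hx => exact hT x hx
  | zero => exact ⟨0, by rw [mul_zero, mul_zero]⟩
  | add x y _ _ hx hy =>
    obtain ⟨H, hH⟩ := hx
    obtain ⟨H', hH'⟩ := hy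
    exact ⟨H + H', by rw [mul_add, mul_add, hH, hH']⟩
  | smul a x _ hx =>
    obtain ⟨H, hH⟩ := hx
    exact ⟨a * H, by rw [smul_eq_mul]; linear_combination a * hH⟩

/-- translates -/
def TT (Q : MvPolynomial (Ix N d) k) : Set (MvPolynomial (Ix N d) k) :=
    {q | ∃ A : Matrix (Fin (N + 1)) (Fin (N + 1)) k, A.det ≠ 0 ∧ Dyn.compT A Q = q}

theorem self_TT (Q : MvPolynomial (Ix N d) k) : Q ∈ Ideal.span (TT Q) :=
  Ideal.subset_span ⟨1, by rw [Matrix.det_one]; exact one_ne_zero, compT_one Q⟩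

theorem TT_stable (Q : MvPolynomial (Ix N d) k) :
    ∀ A : Matrix (Fin (N + 1)) (Fin (N + 1)) k, A.det ≠ 0 → ∀ a ∈ Ideal.span (TT Q),
      Dyn.compT A a ∈ Ideal.span (TT Q) := by
  intro A hA a ha
  have h1 : Ideal.span (TT Q) ≤ (Ideal.span (TT Q)).comap (Dyn.compT A) := by
    rw [Ideal.span_le]
    rintro _ ⟨B, hB, rfl⟩
    rw [SetLike.mem_coe, Ideal.mem_comap, compT_compT]
    exact Ideal.subset_span ⟨A * B, by rw [Matrix.det_mul]; exact mul_ne_zero hA hB, rfl⟩
  exact h1 ha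

theorem TT_H (P Q : MvPolynomial (Ix N d) k)
    (h : ∀ A : Matrix (Fin (N + 1)) (Fin (N + 1)) k, A.det ≠ 0 →
      P * Dyn.compT A Q = Q * Dyn.compT A P) : ∀ q ∈ Ideal.span (TT Q), ∃ H, P * q = Q * H := by
  apply exists_H
  rintro _ ⟨A, hA, rfl⟩
  exact ⟨_, h A hA⟩

theorem TT_semi {w : ℕ} {P Q R H : MvPolynomial (Ix N d) k} (hR : IsSemi w R) (hQ0 : Q ≠ 0)
    (h : ∀ A : Matrix (Fin (N + 1)) (Fin (N + 1)) k, A.det ≠ 0 →
      P * Dyn.compT A Q = Q * Dyn.compT A P) (hPH : P * R = Q * H) : IsSemi w H := by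
  apply semi_of_invertible
  intro A hA
  apply mul_left_cancel₀ (mul_ne_zero hQ0 (compT_ne_zero hA hQ0))
  have h1 := congrArg (Dyn.compT A) hPH
  rw [map_mul, map_mul, compT_semi hR] at h1
  exact alg_id h1 (h A hA) hPH

/-- An invariant fraction is a fraction of semi-invariants. -/
theorem exists_semi_frac (hd : 2 ≤ d) {f : Ix N d → k} (hf : NZ (tup f))
    {P Q : MvPolynomial (Ix N d) k} (hQ : eval f Q ≠ 0)
    (h : ∀ A : Matrix (Fin (N + 1)) (Fin (N + 1)) k, A.det ≠ 0 →
      P * Dyn.compT A Q = Q * Dyn.compT A P) :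
    ∃ (w : ℕ) (H R : MvPolynomial (Ix N d) k), IsSemi w H ∧ IsSemi w R ∧ eval f R ≠ 0 ∧
      P * R = Q * H := by
  have hQ0 : Q ≠ 0 := by
    rintro rfl
    rw [map_zero] at hQ
    exact hQ rfl
  obtain ⟨w, R, hR, hRf, hRT⟩ :=
    exists_semi_mem hd hf (Ideal.span (TT Q)) (TT_stable Q) (self_TT Q) hQ
  obtain ⟨H, hPH⟩ := TT_H P Q h R hRT
  exact ⟨w, H, R, TT_semi hR hQ0 h hPH, hR, hRf, hPH⟩

section germ

variable (hN : 0 < N + d) (F : EndTuple k N d)

theorem germL_surj (hd : 2 ≤ d) {φ : Moduli k N d → k} (hφ : IsRegularAt φ (cls F)) :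
    ∃ x : LL (pt F), germL hN F x = (φ : Germ (𝓝 (cls F)) k) := by
  obtain ⟨P, Q, -, -, -, hQF, hG⟩ := hφ F rfl
  have hQf : eval (pt F) (toIx Q) ≠ 0 := by
    rw [eval_toIx]
    exact hQF
  have hQ0 : (toIx Q : MvPolynomial (Ix N d) k) ≠ 0 := by
    intro h
    rw [h, map_zero] at hQf
    exact hQf rfl
  have hGf : ∀ G : EndTuple k N d, eval (pt G) (toIx Q) ≠ 0 →
      φ (cls G) = eval (pt G) (toIx P) / eval (pt G) (toIx Q) := by
    intro G hG'
    rw [eval_toIx] at hG'
    rw [eval_toIx, eval_toIx]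
    exact hG G hG'
  obtain ⟨w, H, R, hH, hR, hRf, hPR⟩ := exists_semi_frac (P := toIx P) hd (pt_NZ F) hQf (by
    intro A hA
    have h1 : ((toIx P : MvPolynomial (Ix N d) k) * Dyn.compT A (toIx Q) -
        toIx Q * Dyn.compT A (toIx P)) * (toIx Q * Dyn.compT A (toIx Q)) = 0 := by
      apply eq_zero_of_pt (by omega) _ ⟨F⟩
      intro G
      simp only [map_mul, map_sub, eval_compT']
      by_cases h2 : eval (pt G) (toIx Q) = 0
      · rw [h2]; ring
      by_cases h3 : eval (actT A (pt G)) (toIx Q) = 0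
      · rw [h3]; ring
      have h4 := hGf G h2
      have h5 := hGf (actE A hA G) (by rw [pt_actE]; exact h3)
      have h6 : cls (actE A hA G) = cls G := ((cls_eq_iff hN G _).mpr ⟨A, hA, rfl⟩).symm
      rw [h6, pt_actE, h4, div_eq_div_iff h2 h3] at h5
      rw [h5]
      ring
    exact sub_eq_zero.mp ((mul_eq_zero.mp h1).resolve_right
      (mul_ne_zero hQ0 (compT_ne_zero hA hQ0))))
  refine ⟨mkL (pt F) w H R hH hR hRf, ?_⟩
  rw [germL_eq hN F _ hH hR hRf (mkL_spec _ _ _ _ _ _ _), Germ.coe_eq]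
  refine eventually_of hN (toIx Q * R) (by rw [map_mul]; exact mul_ne_zero hQf hRf) fun G hG' => ?_
  rw [map_mul] at hG'
  have h1 := left_ne_zero_of_mul hG'
  have h2 := right_ne_zero_of_mul hG'
  rw [frac_cls, hGf G h1, div_eq_div_iff h2 h1, ← map_mul, ← map_mul, hPR, mul_comm]

/-- The local ring of `M_d^N` at `[F]` is the ring of invariant fractions. -/
def stalkEquiv (hd : 2 ≤ d) : LL (pt F) ≃+* localRing (cls F) :=
  RingEquiv.ofBijective ((germL hN F).codRestrict (localRing (cls F)) (germL_mem hN F)) (by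
    constructor
    · intro x y h
      exact germL_inj hN F (by omega) (congrArg Subtype.val h)
    · rintro ⟨_, φ, hφ, rfl⟩
      obtain ⟨x, hx⟩ := germL_surj hN F hd hφ.self_of_nhds
      exact ⟨x, Subtype.ext hx⟩)

end germ

section aut

theorem act_eq_conj (φ : GL (Fin (N + 1)) k) (F : Tuple k N) :
    act (φ : Matrix (Fin (N + 1)) (Fin (N + 1)) k) F =
      fun i => C ((φ : Matrix (Fin (N + 1)) (Fin (N + 1)) k).det) * conj φ F i := by
  have hdet : (φ : Matrix (Fin (N + 1)) (Fin (N + 1)) k).det ≠ 0 :=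
    ((Matrix.isUnit_iff_isUnit_det _).mp φ.isUnit).ne_zero
  have hinv : (↑(φ⁻¹) : Matrix (Fin (N + 1)) (Fin (N + 1)) k) =
      (φ : Matrix (Fin (N + 1)) (Fin (N + 1)) k).det⁻¹ •
        (φ : Matrix (Fin (N + 1)) (Fin (N + 1)) k).adjugate := by
    rw [Matrix.coe_units_inv, Matrix.inv_def, Ring.inverse_eq_inv']
  funext i
  unfold act conj
  rw [Finset.mul_sum]
  refine Finset.sum_congr rfl fun j _ => ?_
  rw [hinv, Matrix.smul_apply, smul_eq_mul, ← mul_assoc, ← C_mul, ← mul_assoc,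
    mul_inv_cancel₀ hdet, one_mul]

theorem stab_iff (hN : 0 < N + d) (F : EndTuple k N d) :
    (∀ A : Matrix (Fin (N + 1)) (Fin (N + 1)) k, A.det ≠ 0 → actT A (pt F) = pt F →
      ∃ a : k, A = a • 1) ↔ ¬ HasNontrivialAut F := by
  constructor
  · rintro h ⟨φ, ⟨c, hc⟩, hφ⟩
    apply hφ
    set M := (φ : Matrix (Fin (N + 1)) (Fin (N + 1)) k) with hM
    have hdet : M.det ≠ 0 := ((Matrix.isUnit_iff_isUnit_det _).mp φ.isUnit).ne_zero
    have h1 : act M F.1 = fun i => C (M.det * c) * F.1 i := by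
      rw [hM, act_eq_conj, hc]
      funext i
      rw [C_mul, mul_assoc]
    have h2 : actT M (pt F) = (M.det * (c : k)) • pt F := by
      change cf (act M (tup (cf F.1))) = _
      rw [tup_cf F.2.1, h1, cf_C_mul]
    have hb : M.det * (c : k) ≠ 0 := mul_ne_zero hdet c.ne_zero
    obtain ⟨a, ha⟩ := IsAlgClosed.exists_pow_nat_eq ((M.det * (c : k))⁻¹) hN
    have ha0 : a ≠ 0 := by
      rintro rfl
      rw [zero_pow hN.ne'] at ha
      exact inv_ne_zero hb ha.symm
    obtain ⟨b, hb'⟩ := h (a • M) (by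
      rw [Matrix.det_smul]
      exact mul_ne_zero (pow_ne_zero _ ha0) hdet) (by
      rw [actT_smul_mat, h2, ha, smul_smul, inv_mul_cancel₀ hb, one_smul])
    refine ⟨a⁻¹ * b, ?_⟩
    rw [mul_smul, ← hb', smul_smul, inv_mul_cancel₀ ha0, one_smul]
  · intro h A hA hAF
    by_contra hne
    apply h
    have hu : IsUnit A := (Matrix.isUnit_iff_isUnit_det A).mpr (isUnit_iff_ne_zero.mpr hA)
    have hAF' : act A F.1 = F.1 := by
      have h1 := congrArg tup hAF
      rwa [tup_actT, tup_cf F.2.1] at h1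
    refine ⟨hu.unit, ⟨(Units.mk0 A.det hA)⁻¹, ?_⟩, hne⟩
    have h1 := act_eq_conj hu.unit F.1
    rw [IsUnit.unit_spec, hAF'] at h1
    funext i
    have h2 := congrFun h1 i
    rw [h2, ← mul_assoc, ← C_mul, Units.val_inv_eq_inv_val, Units.val_mk0, inv_mul_cancel₀ hA, C_1,
      one_mul]

end aut

/-- The singular points of `M_d^N`, `N ≥ 2`, `d ≥ 2`, are the classes of the maps with a
nontrivial automorphism. -/
theorem isSingular_iff (hN : 2 ≤ N) (hd : 2 ≤ d) (F : EndTuple k N d) :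
    IsSingular (cls F) ↔ HasNontrivialAut F := by
  have hNd : 0 < N + d := by omega
  rw [← not_iff_not, ← stab_iff hNd F, ← regular_iff hN hd (pt_NZ F)]
  unfold IsSingular
  rw [not_not]
  constructor
  · intro h
    exact IsRegularLocalRing.of_ringEquiv (R' := LL (pt F)) (stalkEquiv hNd F hd).symm
  · intro h
    exact IsRegularLocalRing.of_ringEquiv (R := LL (pt F)) (stalkEquiv hNd F hd)

end

end Pool.Agent.N141.Sing
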