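import Pool.Agent.N141.Sing.Point

/-!
The upper bound for the dimension of the local ring of the moduli space.
-/

open MvPolynomial

namespace Pool.Agent.N141.Sing

open Pool.Agent.Helper819 Pool.Agent.Helper819.Apolar Pool.Agent.Helper819.Dyn

noncomputable section

set_option linter.unusedSectionVars false

variable {k : Type} [Field k] {N d : ℕ}

/-- derivatives of semi-invariants along the orbit -/
theorem semi_lieK [Infinite k] {K : Type} [Field K] [Algebra k K] {w : ℕ}
    {P : MvPolynomial (Ix N d) k} (hP : IsSemi w P)
    (Y : Matrix (Fin (N + 1)) (Fin (N + 1)) K) (c : Ix N d → K) :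
    ∑ p, xi Y c p * aeval c (pderiv p P) = w * Y.trace * aeval c P := by
  have h1 := aeval_act hP (R := DualNumber K) (oneEps (DualNumber.eps : DualNumber K) Y)
    (fun p => algebraMap K (DualNumber K) (c p))
  have h2 : actT (oneEps (DualNumber.eps : DualNumber K) Y)
      (fun p => algebraMap K (DualNumber K) (c p)) = fun p => algebraMap K (DualNumber K) (c p) +
        DualNumber.eps * algebraMap K (DualNumber K) (xi Y c p) := by
    funext p
    exact actT_eps _ DualNumber.eps_mul_eps Y c p
  have h0 : aeval (fun p => algebraMap K (DualNumber K) (c p)) P =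
      algebraMap K (DualNumber K) (aeval c P) := by
    exact aeval_algebraMap_apply (B := DualNumber K) c P
  rw [h2, aeval_dual, det_oneEps _ DualNumber.eps_mul_eps, h0] at h1
  have h3 : ∀ w : ℕ, (1 + (DualNumber.eps : DualNumber K) * algebraMap K (DualNumber K) Y.trace) ^ w =
      1 + DualNumber.eps * algebraMap K (DualNumber K) (w * Y.trace) := by
    intro w
    induction w with
    | zero => simp
    | succ w ih =>
      rw [pow_succ, ih, Nat.cast_succ]
      have e1 : algebraMap K (DualNumber K) (((w : K) + 1) * Y.trace) =
          ((w : DualNumber K) + 1) * algebraMap K (DualNumber K) Y.trace := by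
        rw [map_mul, map_add, map_natCast, map_one]
      have e2 : algebraMap K (DualNumber K) ((w : K) * Y.trace) =
          (w : DualNumber K) * algebraMap K (DualNumber K) Y.trace := by
        rw [map_mul, map_natCast]
      rw [e1, e2]
      linear_combination ((w : DualNumber K) * algebraMap K (DualNumber K) Y.trace *
        algebraMap K (DualNumber K) Y.trace) * (DualNumber.eps_mul_eps (R := K))
  have h4 := congrArg TrivSqZeroExt.snd h1
  rw [snd_form, h3] at h4
  have h5 : (1 + (DualNumber.eps : DualNumber K) * algebraMap K (DualNumber K) (w * Y.trace)) *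
      algebraMap K (DualNumber K) (aeval c P) = algebraMap K (DualNumber K) (aeval c P) +
        DualNumber.eps * algebraMap K (DualNumber K) (w * Y.trace * aeval c P) := by
    rw [map_mul _ (w * Y.trace) (aeval c P)]
    ring
  rw [h5, snd_form] at h4
  exact h4

/-- the fraction field -/
abbrev LF (k : Type) [Field k] (N d : ℕ) : Type := FractionRing (MvPolynomial (Ix N d) k)

instance : Algebra.EssFiniteType k (LF k N d) := by
  have h1 : Algebra.EssFiniteType (MvPolynomial (Ix N d) k) (LF k N d) :=
    Algebra.EssFiniteType.of_isLocalization _ (nonZeroDivisors (MvPolynomial (Ix N d) k))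
  exact Algebra.EssFiniteType.comp k (MvPolynomial (Ix N d) k) (LF k N d)

/-- the local ring embeds in the fraction field -/
def toLF (f : Ix N d → k) : BB f →ₐ[k] LF k N d :=
  IsLocalization.liftAlgHom (M := (nn f).primeCompl)
    (f := IsScalarTower.toAlgHom k (MvPolynomial (Ix N d) k) (LF k N d)) (by
      intro y
      rw [isUnit_iff_ne_zero]
      change algebraMap (MvPolynomial (Ix N d) k) (LF k N d) y ≠ 0
      rw [Ne, FaithfulSMul.algebraMap_eq_zero_iff]
      intro h
      exact y.2 (by rw [h]; exact Ideal.zero_mem _))

theorem toLF_alg (f : Ix N d → k) (P : MvPolynomial (Ix N d) k) :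
    toLF f (algebraMap _ (BB f) P) = algebraMap _ (LF k N d) P := by
  unfold toLF
  rw [IsLocalization.liftAlgHom_apply, IsLocalization.lift_eq]
  rfl

theorem toLF_inj (f : Ix N d → k) : Function.Injective (toLF f) := by
  rw [injective_iff_map_eq_zero]
  intro x hx
  obtain ⟨P, Q, hQ, h⟩ := exists_rep f x
  have h1 := congrArg (toLF f) h
  rw [map_mul, hx, zero_mul, toLF_alg] at h1
  have h2 : P = 0 := by
    have h3 := h1.symm
    rwa [FaithfulSMul.algebraMap_eq_zero_iff] at h3
  rw [h2, map_zero] at h
  exact (mul_eq_zero.mp h).resolve_right (alg_isUnit f hQ).ne_zero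

theorem indep_le [IsAlgClosed k] [CharZero k] {f : Ix N d → k} (𝓢 : Slice f) {n : ℕ}
    (x : Fin n → LL f) (hx : ∀ F : MvPolynomial (Fin n) k, aeval x F = 0 → F = 0) :
    n ≤ 𝓢.s := by
  classical
  have hinf : Infinite k := inferInstance
  · obtain ⟨w, P, Q, hP, hQ, hQf, hPQ⟩ := common_den f x
    let L := LF k N d
    let X' : Ix N d → L := fun q => algebraMap (MvPolynomial (Ix N d) k) L (X q)
    have hX' : ∀ P : MvPolynomial (Ix N d) k, aeval X' P = algebraMap _ L P := by
      intro P
      have : (aeval X' : MvPolynomial (Ix N d) k →ₐ[k] L) =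
          IsScalarTower.toAlgHom k (MvPolynomial (Ix N d) k) L := by
        apply algHom_ext
        intro q
        rw [aeval_X]
        rfl
      rw [this]
      rfl
    let z : Fin n → L := fun i => toLF f (x i : BB f)
    have hzPQ : ∀ i, z i * aeval X' Q = aeval X' (P i) := by
      intro i
      rw [hX', hX', ← toLF_alg f, ← toLF_alg f, ← hPQ, map_mul]
    have hQ0 : aeval X' Q ≠ 0 := by
      rw [hX', Ne, FaithfulSMul.algebraMap_eq_zero_iff]
      rintro rfl
      rw [map_zero] at hQf
      exact hQf rfl
    have hz : ∀ F : MvPolynomial (Fin n) k, aeval z F = 0 → F = 0 := by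
      intro F hF
      apply hx
      have h2 : toLF f ((LL f).val (aeval x F)) = 0 := by
        rw [← hF]
        have e1 := comp_aeval_apply x ((toLF f).comp (LL f).val) F
        exact e1
      have h3 := toLF_inj f (h2.trans (map_zero _).symm)
      exact Subtype.ext h3
    have hφ : ∀ j, ∃ φ : L →+* DualNumber L, (∀ a, (φ a).fst = a) ∧
        (∀ a : k, φ (algebraMap k L a) = algebraMap k (DualNumber L) a) ∧
        ∀ i, (φ (z i)).snd = if i = j then 1 else 0 := by
      intro j
      apply exists_dual_ext z (fun i => if i = j then 1 else 0)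
      intro F hF
      rw [hz F hF]
      simp
    choose φ hφ1 hφ2 hφ3 using hφ
    let u : Fin n → Ix N d → L := fun j q => (φ j (X' q)).snd
    have hφX : ∀ j (P : MvPolynomial (Ix N d) k), (φ j (aeval X' P)).snd =
        ∑ q, u j q * aeval X' (pderiv q P) := by
      intro j P
      have h1 : φ j (aeval X' P) = aeval (fun q => algebraMap L (DualNumber L) (X' q) +
          DualNumber.eps * algebraMap L (DualNumber L) (u j q)) P := by
        rw [aeval_def, hom_eval₂, aeval_def]
        congr 1
        · refine RingHom.ext fun a => ?_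
          exact hφ2 j a
        · funext q
          apply TrivSqZeroExt.ext
          · rw [fst_form, hφ1]
          · rw [snd_form]
      rw [h1, aeval_dual, snd_form]
    have hdu : ∀ i j, (∑ q, u j q * aeval X' (pderiv q (P i))) -
        z i * (∑ q, u j q * aeval X' (pderiv q Q)) = if i = j then aeval X' Q else 0 := by
      intro i j
      rw [← hφX, ← hφX, ← hzPQ i, map_mul, DualNumber.snd_mul, hφ1, hφ1, hφ3]
      split_ifs <;> ring
    have hdxi : ∀ i (Y : Matrix (Fin (N + 1)) (Fin (N + 1)) L),
        (∑ q, xi Y X' q * aeval X' (pderiv q (P i))) -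
        z i * (∑ q, xi Y X' q * aeval X' (pderiv q Q)) = 0 := by
      intro i Y
      rw [semi_lieK (hP i), semi_lieK hQ, ← hzPQ i]
      ring
    -- the linear map
    let Ψ : (Matrix (Fin (N + 1)) (Fin (N + 1)) L × (Fin n → L)) →ₗ[L] (Ix N d → L) :=
      LinearMap.coprod (xiL X') (Fintype.linearCombination L u)
    have hΨ : ∀ Y a, Ψ (Y, a) = xi Y X' + ∑ j, a j • u j := by
      intro Y a
      change LinearMap.coprod (xiL X') (Fintype.linearCombination L u) (Y, a) = _
      rw [LinearMap.coprod_apply, Fintype.linearCombination_apply]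
      rfl
    have hΨi : Function.Injective Ψ := by
      rw [injective_iff_map_eq_zero]
      rintro ⟨Y, a⟩ h0
      rw [hΨ] at h0
      let D : Fin n → (Ix N d → L) →ₗ[L] L := fun i =>
        Fintype.linearCombination L (fun q => aeval X' (pderiv q (P i))) -
          z i • Fintype.linearCombination L (fun q => aeval X' (pderiv q Q))
      have hD : ∀ i v, D i v = (∑ q, v q * aeval X' (pderiv q (P i))) -
          z i * (∑ q, v q * aeval X' (pderiv q Q)) := by
        intro i v
        change (Fintype.linearCombination L (fun q => aeval X' (pderiv q (P i))) -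
          z i • Fintype.linearCombination L (fun q => aeval X' (pderiv q Q))) v = _
        rw [LinearMap.sub_apply, LinearMap.smul_apply, Fintype.linearCombination_apply,
          Fintype.linearCombination_apply]
        rfl
      have ha : a = 0 := by
        funext i
        have h1 := congrArg (D i) h0
        rw [map_zero, map_add, map_sum, hD i (xi Y X'), hdxi, zero_add] at h1
        have h2 : ∀ j, D i (a j • u j) = if i = j then a j * aeval X' Q else 0 := by
          intro j
          rw [map_smul, hD, hdu, smul_eq_mul]
          split_ifs <;> simp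
        rw [Finset.sum_congr rfl fun j _ => h2 j, Finset.sum_ite_eq,
          if_pos (Finset.mem_univ _)] at h1
        exact (mul_eq_zero.mp h1).resolve_right hQ0
      rw [ha] at h0
      simp only [Pi.zero_apply, zero_smul, Finset.sum_const_zero, add_zero] at h0
      have hdisc : aeval X' 𝓢.disc ≠ 0 := by
        rw [hX', Ne, FaithfulSMul.algebraMap_eq_zero_iff]
        intro h1
        have h2 := 𝓢.disc_ne
        rw [h1, map_zero] at h2
        exact h2 rfl
      obtain ⟨h1, _⟩ := 𝓢.inj_of_disc hdisc Y 0 (by
        rw [h0]
        simp)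
      rw [h1, ha]
      rfl
    have h1 := LinearMap.finrank_le_finrank_of_injective hΨi
    rw [Module.finrank_prod, Module.finrank_matrix, Fintype.card_fin, Module.finrank_self,
      mul_one, Module.finrank_fintype_fun_eq_card, Module.finrank_fintype_fun_eq_card,
      Fintype.card_fin, ← 𝓢.hs] at h1
    omega

theorem dim_le [IsAlgClosed k] [CharZero k] {f : Ix N d → k} (𝓢 : Slice f) :
    ringKrullDim (LL f) ≤ 𝓢.s := by
  unfold ringKrullDim Order.krullDim
  refine iSup_le fun p => ?_
  obtain ⟨x, hx⟩ := Zar.exists_indep (k := k) (R := LL f) p.length p.toFun p.strictMono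
  have key := indep_le 𝓢 x (by
    intro F hF
    apply hx
    rw [hF]
    exact Ideal.zero_mem _)
  exact_mod_cast key

end

end Pool.Agent.N141.Sing
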